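import Pool.Agent.Lib.H92B.Basic

/-!
# H92B, chunk BC

Adding a variable. Let ι = rename Fin.succ : P k n → P k (n + 1) (an injective algebra homomorphism) and E = finSuccEquiv k n : P k (n + 1) ≃ₐ Polynomial (P k n); E (ι a) = Polynomial.C a (finSuccEquiv_rename_finSuccEquiv or by induction: E (X (succ i)) = C (X i), finSuccEquiv_X_succ). Given f let A_i a b = f i (Pi.single b 1) a, so (f i x) a = Σ_b x b * A_i a b, and put (f' i x) a = Σ_b x b * ι (A_i a b) (Matrix.mulVecLin or toLin'). Homogeneity: IsHomogeneous.rename.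
For x : Fin (β (i + 1)) → P k (n + 1) and m : ℕ let c_m x = (b ↦ (E (x b)).coeff m). Then c_m (f' i x) = f i (c_m x) (coeff of a product with a constant polynomial C; Polynomial.coeff_mul_C). Exactness: range ≤ ker: c_m (f' i (f' (i + 1) y)) = f i (f (i + 1) (c_m y)) = 0 for all m, so f' i (f' (i + 1) y) = 0. ker ≤ range: if f' i x = 0 then f i (c_m x) = 0 for all m, so c_m x = f (i + 1) (y_m), with y_m = 0 if c_m x = 0 (which holds for all m outside of a finite set);
put y b = E.symm (Σ_m Polynomial.monomial m (y_m b)) (finite sum); c_m y = y_m, so c_m (f' (i + 1) y) = c_m x for all m, so f' (i + 1) y = x.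
-/

open MvPolynomial

namespace H92B

theorem bc_pi {R : Type} [CommRing R] {a b : ℕ} (f : (Fin b → R) →ₗ[R] (Fin a → R)) (x : Fin b → R) (j : Fin a) :
    f x j = ∑ i, f (Pi.single i 1) j * x i := by
  conv_lhs => rw [← Finset.univ_sum_single x]
  rw [map_sum, Finset.sum_apply]
  refine Finset.sum_congr rfl fun i _ => ?_
  have h1 : (Pi.single i (x i) : Fin b → R) = x i • Pi.single i 1 := by
    rw [← Pi.single_smul, smul_eq_mul, mul_one]
  rw [h1, map_smul, mul_comm]
  rfl

theorem bc_E {k : Type} [Field k] {n : ℕ} (a : P k n) : finSuccEquiv k n (rename Fin.succ a) = Polynomial.C a := by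
  induction a using MvPolynomial.induction_on with
  | C c =>
    rw [rename_C, finSuccEquiv_apply, coe_eval₂Hom, eval₂_C]
    rfl
  | add p q hp hq => rw [map_add, map_add, hp, hq, Polynomial.C_add]
  | mul_X p i hp => rw [map_mul, map_mul, hp, rename_X, finSuccEquiv_X_succ, Polynomial.C_mul]

theorem bc (k : Type) [Field k] (n : ℕ) (d : ℕ → ℤ) (β : ℕ → ℕ) (h : Res k n d β) : Res k (n + 1) d β := by
  classical
  obtain ⟨f, hhom, hex⟩ := h
  let A : (i : ℕ) → Matrix (Fin (β i)) (Fin (β (i + 1))) (P k (n + 1)) := fun i a b => rename Fin.succ (f i (Pi.single b 1) a)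
  let f' : (i : ℕ) → (Fin (β (i + 1)) → P k (n + 1)) →ₗ[P k (n + 1)] (Fin (β i) → P k (n + 1)) := fun i => (A i).mulVecLin
  let cm : {b : ℕ} → ℕ → (Fin b → P k (n + 1)) → (Fin b → P k n) := fun m x b => (finSuccEquiv k n (x b)).coeff m
  have hcm : ∀ (i m : ℕ) (x : Fin (β (i + 1)) → P k (n + 1)), cm m (f' i x) = f i (cm m x) := by
    intro i m x
    funext a
    rw [bc_pi (f i)]
    show (finSuccEquiv k n ((A i).mulVecLin x a)).coeff m = _
    rw [Matrix.mulVecLin_apply, Matrix.mulVec, dotProduct, map_sum, Polynomial.finsetSum_coeff]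
    refine Finset.sum_congr rfl fun b _ => ?_
    show (finSuccEquiv k n (rename Fin.succ (f i (Pi.single b 1) a) * x b)).coeff m = _
    rw [map_mul, bc_E, Polynomial.coeff_C_mul]
  have hext : ∀ {b : ℕ} (x y : Fin b → P k (n + 1)), (∀ m, cm m x = cm m y) → x = y := by
    intro b x y h
    funext c
    apply (finSuccEquiv k n).injective
    ext1 m
    exact congrFun (h m) c
  have hcm0 : ∀ {b : ℕ} (m : ℕ), cm m (0 : Fin b → P k (n + 1)) = 0 := by
    intro b m
    funext c
    show (finSuccEquiv k n 0).coeff m = 0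
    rw [map_zero, Polynomial.coeff_zero]
  refine ⟨f', fun i a b => ?_, fun i => ?_⟩
  · show ((A i).mulVecLin (Pi.single b 1) a).IsHomogeneous _
    rw [Matrix.mulVecLin_apply, Matrix.mulVec_single_one]
    exact (hhom i a b).rename_isHomogeneous
  · ext x
    constructor
    · rintro ⟨y, rfl⟩
      rw [LinearMap.mem_ker]
      refine hext _ _ fun m => ?_
      rw [hcm, hcm, hcm0]
      have h1 : f (i + 1) (cm m y) ∈ LinearMap.ker (f i) := by
        rw [← hex i]
        exact ⟨_, rfl⟩
      exact h1
    · intro hx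
      rw [LinearMap.mem_ker] at hx
      have h1 : ∀ m, ∃ y : Fin (β (i + 2)) → P k n, f (i + 1) y = cm m x := by
        intro m
        have h2 : cm m x ∈ LinearMap.ker (f i) := by
          rw [LinearMap.mem_ker, ← hcm, hx, hcm0]
        rw [← hex i] at h2
        exact h2
      choose y hy using h1
      let N : ℕ := (Finset.univ.sup fun b => (finSuccEquiv k n (x b)).natDegree) + 1
      have hN : ∀ b, (finSuccEquiv k n (x b)).natDegree < N := fun b =>
        Nat.lt_succ_of_le (Finset.le_sup (f := fun b => (finSuccEquiv k n (x b)).natDegree) (Finset.mem_univ b))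
      let z : Fin (β (i + 2)) → P k (n + 1) := fun b =>
        (finSuccEquiv k n).symm (∑ m ∈ Finset.range N, Polynomial.monomial m (y m b))
      have hz : ∀ m, cm m z = if m < N then y m else 0 := by
        intro m
        funext b
        show (finSuccEquiv k n ((finSuccEquiv k n).symm (∑ m ∈ Finset.range N, Polynomial.monomial m (y m b)))).coeff m = _
        rw [AlgEquiv.apply_symm_apply, Polynomial.finsetSum_coeff]
        simp only [Polynomial.coeff_monomial, Finset.sum_ite_eq', Finset.mem_range]
        split_ifs <;> rfl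
      refine ⟨z, hext _ _ fun m => ?_⟩
      rw [hcm, hz]
      split_ifs with hm
      · exact hy m
      · rw [map_zero]
        funext b
        exact (Polynomial.coeff_eq_zero_of_natDegree_lt (by have := hN b; omega)).symm

end H92B
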