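import Pool.Agent.Lib.H92B.Defs

/-!
# H92B: elementary facts about the definitions (proved)
-/

open MvPolynomial

namespace H92B

section kdlin

variable {k : Type} [Field k] {n : ℕ} {M : Type} [AddCommGroup M] [Module (P k n) M]
variable {M' : Type} [AddCommGroup M'] [Module (P k n) M']

theorem kd_map (ρ : M →ₗ[P k n] M') (φ : Finset (Fin n) → M) (T : Finset (Fin n)) :
    kd k (fun T => ρ (φ T)) T = ρ (kd k φ T) := by
  unfold kd
  rw [map_sum]
  refine Finset.sum_congr rfl fun a _ => ?_
  rw [map_zsmul, map_smul]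

theorem kd_sub (φ ψ : Finset (Fin n) → M) (T : Finset (Fin n)) :
    kd k (fun T => φ T - ψ T) T = kd k φ T - kd k ψ T := by
  unfold kd
  rw [← Finset.sum_sub_distrib]
  refine Finset.sum_congr rfl fun a _ => ?_
  rw [smul_sub, smul_sub]

theorem kd_zero (T : Finset (Fin n)) : kd k (fun _ => (0 : M)) T = 0 := by
  unfold kd
  exact Finset.sum_eq_zero fun a _ => by rw [smul_zero, smul_zero]

theorem kd_eq_zero_of (φ : Finset (Fin n) → M) (h : ∀ T, φ T = 0) (T : Finset (Fin n)) : kd k φ T = 0 := by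
  unfold kd
  exact Finset.sum_eq_zero fun a _ => by rw [h, smul_zero, smul_zero]

/-- The differential lowers the cardinality by one. -/
theorem kd_card (φ : Finset (Fin n) → M) (q : ℕ) (h : ∀ T, T.card ≠ q + 1 → φ T = 0) (T : Finset (Fin n)) (hT : T.card ≠ q) :
    kd k φ T = 0 := by
  unfold kd
  refine Finset.sum_eq_zero fun a ha => ?_
  rw [h, smul_zero, smul_zero]
  rw [Finset.card_insert_of_notMem (by simpa using ha)]
  omega

/-- In cardinality n everything is zero. -/
theorem kd_top (φ : Finset (Fin n) → M) : kd k φ Finset.univ = 0 := by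
  unfold kd
  simp

end kdlin

section graded

variable {k : Type} [Field k] {n : ℕ} {M : Type} [AddCommGroup M] [Module (P k n) M] [Module k M]

/-- The differential raises the degree by one. -/
theorem kd_mem (g : ℤ → Submodule k M) (hg : ∀ (a : Fin n) (j : ℤ) (x : M), x ∈ g j → (X a : P k n) • x ∈ g (j + 1))
    (φ : Finset (Fin n) → M) (j : ℤ) (h : ∀ T, φ T ∈ g j) (T : Finset (Fin n)) : kd k φ T ∈ g (j + 1) := by
  unfold kd
  exact Submodule.sum_mem _ fun a _ => Submodule.smul_of_tower_mem _ _ (hg a j _ (h _))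

/-- Homology in homological degrees above n. -/
theorem HV_gt (g : ℤ → Submodule k M) (q : ℕ) (j : ℤ) (hq : n < q) : HV n g q j := by
  intro φ _ h2 _
  refine ⟨fun _ => 0, fun _ => Submodule.zero_mem _, fun _ _ => rfl, fun T => ?_⟩
  rw [kd_zero, h2 T]
  have := Finset.card_le_univ T
  simp at this
  omega

/-- Homology with values in the zero space. -/
theorem HV_bot (g : ℤ → Submodule k M) (q : ℕ) (j : ℤ) (h : g j = ⊥) : HV n g q j := by
  intro φ h1 _ _
  refine ⟨fun _ => 0, fun _ => Submodule.zero_mem _, fun _ _ => rfl, fun T => ?_⟩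
  have h3 := h1 T
  rw [h] at h3
  rw [kd_zero]
  exact ((Submodule.mem_bot k).1 h3).symm

/-- No socle means no homology in homological degree n. -/
theorem HV_top (g : ℤ → Submodule k M) (j : ℤ) (h : ∀ y ∈ g j, (∀ a : Fin n, (X a : P k n) • y = 0) → y = 0) : HV n g n j := by
  intro φ h1 h2 h3
  refine ⟨fun _ => 0, fun _ => Submodule.zero_mem _, fun _ _ => rfl, fun T => ?_⟩
  rw [kd_zero]
  by_cases hT : T.card = n
  · have hT' : T = Finset.univ := Finset.eq_univ_of_card T (by simpa using hT)
    refine (h _ (h1 T) fun a => ?_).symm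
    have h4 := h3 (T.erase a)
    unfold kd at h4
    have h5 : (T.erase a)ᶜ = {a} := by
      ext b
      simp [hT']
    rw [h5, Finset.sum_singleton, Finset.insert_erase (by simp [hT'])] at h4
    have h6 : sg a (T.erase a) = 1 ∨ sg a (T.erase a) = -1 := by
      unfold sg
      exact neg_one_pow_eq_or ℤ _
    rcases h6 with h6 | h6 <;> rw [h6] at h4 <;> simpa using h4
  · exact (h2 T hT).symm

/-- The converse of HV_top. -/
theorem socle_of_HV (g : ℤ → Submodule k M) (j : ℤ) (h : HV n g n j) (y : M) (hy : y ∈ g j)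
    (hy2 : ∀ a : Fin n, (X a : P k n) • y = 0) : y = 0 := by
  obtain ⟨ψ, _, h2, h3⟩ := h (fun T => if T = Finset.univ then y else 0)
    (fun T => by split_ifs; exacts [hy, Submodule.zero_mem _])
    (fun T hT => if_neg fun h => hT (by rw [h]; simp))
    (fun T => by
      unfold kd
      refine Finset.sum_eq_zero fun a _ => ?_
      dsimp only
      by_cases h7 : insert a T = Finset.univ
      · rw [if_pos h7, hy2, smul_zero]
      · rw [if_neg h7, smul_zero, smul_zero])
  have h4 := h3 Finset.univ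
  rw [kd_top] at h4
  simpa using h4.symm

/-- Homology in homological degree zero: generation. -/
theorem gen_of_HV (g : ℤ → Submodule k M) (j : ℤ) (h : HV n g 0 j) (y : M) (hy : y ∈ g j) :
    ∃ z : Fin n → M, (∀ a, z a ∈ g (j - 1)) ∧ y = ∑ a, (X a : P k n) • z a := by
  obtain ⟨ψ, h1, _, h3⟩ := h (fun T => if T = ∅ then y else 0)
    (fun T => by split_ifs; exacts [hy, Submodule.zero_mem _])
    (fun T hT => if_neg fun h => hT (by rw [h]; simp))
    (fun T => by
      unfold kd
      refine Finset.sum_eq_zero fun a _ => ?_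
      dsimp only
      rw [if_neg (Finset.insert_ne_empty _ _), smul_zero, smul_zero])
  have h4 := h3 ∅
  rw [if_pos rfl] at h4
  refine ⟨fun a => ψ {a}, fun a => h1 _, ?_⟩
  rw [← h4]
  unfold kd
  refine Finset.sum_congr (by simp) fun a _ => ?_
  simp [sg]

/-- The converse of gen_of_HV. -/
theorem HV_of_gen (g : ℤ → Submodule k M) (j : ℤ)
    (h : ∀ y ∈ g j, ∃ z : Fin n → M, (∀ a, z a ∈ g (j - 1)) ∧ y = ∑ a, (X a : P k n) • z a) : HV n g 0 j := by
  intro φ h1 h2 _
  obtain ⟨z, hz, hz2⟩ := h _ (h1 ∅)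
  refine ⟨fun T => ∑ a, if T = {a} then z a else 0, fun T => ?_, fun T hT => ?_, fun T => ?_⟩
  · exact Submodule.sum_mem _ fun a _ => by split_ifs; exacts [hz a, Submodule.zero_mem _]
  · refine Finset.sum_eq_zero fun a _ => if_neg fun h => hT ?_
    rw [h]
    simp
  · by_cases hT : T = ∅
    · subst hT
      rw [hz2]
      unfold kd
      refine Finset.sum_congr (by simp) fun a _ => ?_
      simp [sg]
    · rw [h2 T (by simpa using hT)]
      unfold kd
      refine Finset.sum_eq_zero fun a ha => ?_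
      have h5 : ∀ b, insert a T ≠ {b} := by
        intro b hb
        have h6 : a ∉ T := by simpa using ha
        have h7 : (insert a T).card = 1 := by rw [hb]; simp
        rw [Finset.card_insert_of_notMem h6] at h7
        exact hT (Finset.card_eq_zero.1 (by omega))
      simp [h5]

end graded

section free

variable {k : Type} [Field k] {n : ℕ}

theorem mem_HM {β : ℕ} {j : ℤ} {x : Fin β → P k n} : x ∈ HM k n β j ↔ ∀ i, x i ∈ hm k n j := by
  simp [HM, Submodule.mem_pi]

theorem mem_hm_nat {j : ℕ} {p : P k n} : p ∈ hm k n j ↔ p.IsHomogeneous j := by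
  simp [hm]

theorem hm_neg {j : ℤ} (hj : j < 0) : hm k n j = ⊥ := by
  unfold hm
  rw [if_neg (by omega)]

theorem HM_neg {β : ℕ} {j : ℤ} (hj : j < 0) : HM k n β j = ⊥ := by
  rw [eq_bot_iff]
  intro x hx
  rw [mem_HM] at hx
  simp only [hm_neg hj, Submodule.mem_bot] at hx
  exact (Submodule.mem_bot k).2 (funext hx)

theorem hm_mul {i j : ℤ} {p q : P k n} (hp : p ∈ hm k n i) (hq : q ∈ hm k n j) : p * q ∈ hm k n (i + j) := by
  by_cases hi : 0 ≤ i
  · by_cases hj : 0 ≤ j
    · lift i to ℕ using hi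
      lift j to ℕ using hj
      rw [mem_hm_nat] at hp hq
      rw [← Nat.cast_add, mem_hm_nat]
      exact hp.mul hq
    · rw [hm_neg (by omega), Submodule.mem_bot] at hq
      rw [hq, mul_zero]
      exact Submodule.zero_mem _
  · rw [hm_neg (by omega), Submodule.mem_bot] at hp
    rw [hp, zero_mul]
    exact Submodule.zero_mem _

theorem X_mem_hm (a : Fin n) : (X a : P k n) ∈ hm k n 1 := by
  have h := mem_hm_nat (k := k) (n := n) (j := 1) (p := X a)
  rw [Nat.cast_one] at h
  exact h.2 (isHomogeneous_X k a)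

theorem C_mem_hm (c : k) : (C c : P k n) ∈ hm k n 0 := by
  have h := mem_hm_nat (k := k) (n := n) (j := 0) (p := C c)
  rw [Nat.cast_zero] at h
  exact h.2 (isHomogeneous_C (Fin n) c)

theorem hm_toNat {j : ℤ} {p : P k n} (h : p ∈ hm k n j) : p.IsHomogeneous j.toNat := by
  by_cases hj : 0 ≤ j
  · lift j to ℕ using hj
    rw [mem_hm_nat] at h
    simpa using h
  · rw [hm_neg (by omega), Submodule.mem_bot] at h
    rw [h]
    exact isHomogeneous_zero _ _ _

theorem HM_smul {β : ℕ} {i j : ℤ} {p : P k n} {x : Fin β → P k n} (hp : p ∈ hm k n i) (hx : x ∈ HM k n β j) :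
    p • x ∈ HM k n β (i + j) := by
  rw [mem_HM] at hx ⊢
  intro b
  exact hm_mul hp (hx b)

theorem HM_X {β : ℕ} {j : ℤ} (a : Fin n) {x : Fin β → P k n} (hx : x ∈ HM k n β j) : (X a : P k n) • x ∈ HM k n β (j + 1) := by
  rw [add_comm]
  exact HM_smul (X_mem_hm a) hx

theorem mem_gr {β : ℕ} {Z : Submodule (P k n) (Fin β → P k n)} {j : ℤ} {x : Fin β → P k n} :
    x ∈ gr Z j ↔ x ∈ Z ∧ x ∈ HM k n β j := by
  simp [gr]

/-- The members of An n m are the exponents of degree m. -/
theorem mem_An {m : ℕ} {μ : Fin n →₀ ℕ} : μ ∈ An n m ↔ μ.degree = m := by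
  unfold An
  rw [Finset.mem_finsuppAntidiag, Finsupp.degree_eq_sum]
  simp

/-- Homogeneity in terms of the coefficients. -/
theorem hm_coeff {j : ℤ} {p : P k n} :
    p ∈ hm k n j ↔ ∀ μ : Fin n →₀ ℕ, coeff μ p ≠ 0 → ((μ.degree : ℕ) : ℤ) = j := by
  constructor
  · intro h μ hμ
    by_cases hj : 0 ≤ j
    · lift j to ℕ using hj
      rw [mem_hm_nat] at h
      have h1 := h hμ
      rw [← h1, Finsupp.degree_eq_weight_one]
      rfl
    · rw [hm_neg (by omega), Submodule.mem_bot] at h
      rw [h, coeff_zero] at hμ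
      exact absurd rfl hμ
  · intro h
    by_cases hj : 0 ≤ j
    · lift j to ℕ using hj
      rw [mem_hm_nat]
      intro μ hμ
      have h1 := h μ hμ
      rw [Finsupp.degree_eq_weight_one] at h1
      exact_mod_cast h1
    · have h1 : p = 0 := by
        ext μ
        rw [coeff_zero]
        by_contra h2
        have := h μ h2
        omega
      rw [h1]
      exact Submodule.zero_mem _

/-- No socle in a submodule of a free module. -/
theorem HM_socle (hn : 0 < n) {β : ℕ} {x : Fin β → P k n} (h : ∀ a : Fin n, (X a : P k n) • x = 0) : x = 0 := by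
  funext b
  have h1 := congrFun (h ⟨0, hn⟩) b
  simp only [Pi.smul_apply, smul_eq_mul, Pi.zero_apply, mul_eq_zero] at h1
  rcases h1 with h1 | h1
  · exact absurd h1 (X_ne_zero _)
  · simpa using h1

end free

section cofree

variable {k : Type} [Field k] {n : ℕ}

theorem mem_GM {c : ℕ} {h j : ℤ} {x : Fin c → Du k n} : x ∈ GM k n c h j ↔ ∀ i, x i ∈ Dg k n (h - j) := by
  simp [GM, Submodule.mem_pi]

theorem mem_Dg {i : ℤ} {f : Du k n} :
    f ∈ Dg k n i ↔ ∀ j : ℕ, (j : ℤ) ≠ i → ∀ p ∈ homogeneousSubmodule (Fin n) k j, f.ev p = 0 := Iff.rfl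

/-- Linear forms with the same values on the monomials are equal. -/
theorem Du_ext_monomial {f g : Du k n} (h : ∀ μ : Fin n →₀ ℕ, f.ev (monomial μ 1) = g.ev (monomial μ 1)) : f = g := by
  refine Du.ext fun x => ?_
  have : f.ev = g.ev := (basisMonomials (Fin n) k).ext fun μ => by simpa using h μ
  rw [this]

/-- The linear form with prescribed values on the monomials. -/
noncomputable def Du.mk' (c : (Fin n →₀ ℕ) → k) : Du k n := (basisMonomials (Fin n) k).constr k c

@[simp] theorem Du.mk'_ev (c : (Fin n →₀ ℕ) → k) (μ : Fin n →₀ ℕ) : (Du.mk' c).ev (monomial μ 1) = c μ := by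
  have := (basisMonomials (Fin n) k).constr_basis k c μ
  rwa [coe_basisMonomials] at this

/-- The criterion with monomials: the values vanish on the monomials of the wrong degree. -/
theorem mem_Dg_iff {i : ℤ} {f : Du k n} :
    f ∈ Dg k n i ↔ ∀ μ : Fin n →₀ ℕ, ((μ.degree : ℕ) : ℤ) ≠ i → f.ev (monomial μ 1) = 0 := by
  constructor
  · intro h μ hμ
    exact h _ hμ _ ((mem_homogeneousSubmodule _ _).2 (isHomogeneous_monomial 1 rfl))
  · intro h j hj p hp
    rw [mem_homogeneousSubmodule] at hp
    rw [p.as_sum, map_sum]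
    refine Finset.sum_eq_zero fun μ hμ => ?_
    have h1 : μ.degree = j := by
      have h2 := hp (mem_support_iff.1 hμ)
      rw [← h2, Finsupp.degree_eq_weight_one]
      rfl
    have h3 : (monomial μ (coeff μ p) : P k n) = coeff μ p • monomial μ 1 := by
      rw [smul_monomial, smul_eq_mul, mul_one]
    rw [h3, map_smul, h μ (by rw [h1]; exact hj), smul_zero]

theorem Dg_smul {i j : ℤ} {p : P k n} {f : Du k n} (hp : p ∈ hm k n j) (hf : f ∈ Dg k n i) : p • f ∈ Dg k n (i - j) := by
  by_cases hj : 0 ≤ j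
  · lift j to ℕ using hj
    intro l hl q hq
    rw [Du.smul_ev]
    refine hf (j + l) (by push_cast; omega) _ ?_
    rw [mem_hm_nat] at hp
    rw [mem_homogeneousSubmodule] at hq ⊢
    exact hp.mul hq
  · rw [hm_neg (by omega), Submodule.mem_bot] at hp
    rw [hp, zero_smul]
    exact Submodule.zero_mem _

theorem Dg_neg {i : ℤ} (hi : i < 0) : Dg k n i = ⊥ := by
  rw [eq_bot_iff]
  intro f hf
  rw [mem_Dg_iff] at hf
  refine (Submodule.mem_bot k).2 (Du_ext_monomial fun μ => ?_)
  rw [hf μ (by omega), Du.zero_ev]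

theorem GM_X {c : ℕ} {h j : ℤ} (a : Fin n) {x : Fin c → Du k n} (hx : x ∈ GM k n c h j) :
    (X a : P k n) • x ∈ GM k n c h (j + 1) := by
  rw [mem_GM] at hx ⊢
  intro i
  have := Dg_smul (X_mem_hm a) (hx i)
  rwa [show h - j - 1 = h - (j + 1) by ring] at this

theorem GM_gt {c : ℕ} {h j : ℤ} (hj : h < j) : GM k n c h j = ⊥ := by
  rw [eq_bot_iff]
  intro x hx
  rw [mem_GM] at hx
  simp only [Dg_neg (show h - j < 0 by omega), Submodule.mem_bot] at hx
  exact (Submodule.mem_bot k).2 (funext hx)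

end cofree

end H92B
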