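import Pool.Agent.Lib.H92B.Basic

/-!
# H92B, chunk K0

Signs. sg a T is a sign, so its square is 1. For the second: write T' = T.erase b. Then sg a T = sg a T' if not b < a and - sg a T' if b < a
(the filtered set (T.filter (. < a)) is insert b (T'.filter (. < a)) if b < a, and T'.filter (. < a) otherwise), and
sg b (insert a T') = sg b T' if not a < b and - sg b T' if a < b. As a, b are different exactly one of a < b, b < a holds, so the product
changes the sign exactly once.
-/

open MvPolynomial

namespace H92B

theorem k0_sq {n : ℕ} (a : Fin n) (T : Finset (Fin n)) : sg a T * sg a T = 1 := by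
  unfold sg
  rw [← mul_pow]
  simp

theorem k0_erase {n : ℕ} (a b : Fin n) (T : Finset (Fin n)) (hb : b ∈ T) :
    sg a T = sg a (T.erase b) * (if b < a then -1 else 1) := by
  unfold sg
  rw [Finset.filter_erase]
  split_ifs with h
  · have h1 : b ∈ T.filter (· < a) := Finset.mem_filter.2 ⟨hb, h⟩
    rw [← Finset.card_erase_add_one h1, pow_succ]
  · have h1 : b ∉ T.filter (· < a) := fun h1 => h (Finset.mem_filter.1 h1).2
    rw [Finset.erase_eq_of_notMem h1, mul_one]

theorem k0_insert {n : ℕ} (a b : Fin n) (T : Finset (Fin n)) (ha : a ∉ T) :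
    sg b (insert a T) = sg b T * (if a < b then -1 else 1) := by
  have h := k0_erase b a (insert a T) (Finset.mem_insert_self a T)
  rwa [Finset.erase_insert ha] at h

theorem k0_swap {n : ℕ} (a b : Fin n) (T : Finset (Fin n)) (ha : a ∉ T) (hb : b ∈ T) :
    sg a T * sg b (insert a (T.erase b)) = - (sg a (T.erase b) * sg b (T.erase b)) := by
  have hab : a ≠ b := fun h => ha (h ▸ hb)
  rw [k0_erase a b T hb, k0_insert a b (T.erase b) (fun h => ha (Finset.mem_of_mem_erase h))]
  rcases lt_or_gt_of_ne hab with h | h
  · rw [if_neg (not_lt.2 h.le), if_pos h]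
    ring
  · rw [if_pos h, if_neg (not_lt.2 h.le)]
    ring

end H92B
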