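import Pool.Agent.Lib.H92B.Basic
import Pool.Agent.Lib.H92B.K0

/-!
# H92B, chunk K1

The Koszul differential squares to zero. kd (kd φ) T = sum over a not in T and b not in insert a T (that is b ∉ T, b ≠ a) of
sg a T * sg b (insert a T) • (X a * X b) • φ (insert b (insert a T)). The pair (a, b) cancels against (b, a): insert b (insert a T) is symmetric, and
sg a T * sg b (insert a T) = - sg b T * sg a (insert b T). The last fact: apply k0_swap with T := insert b T, which reads (for a ∉ insert b T, b ∈ insert b T,
(insert b T).erase b = T) sg a (insert b T) * sg b (insert a T) = - (sg a T * sg b T); multiply by sg a T * sg a (insert b T) and use k0_sq.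
For the double sum use Finset.sum_involution on the sigma type or: write both sums over all of Fin n x Fin n with an indicator, S = sum over p of F p with
F (p.swap) = - F p and F (a, a) = 0; for instance Finset.sum_involution with the involution Prod.swap.
-/

open MvPolynomial

namespace H92B

theorem k1_sym {n : ℕ} (a b : Fin n) (T : Finset (Fin n)) (ha : a ∉ T) (hb : b ∉ T) (hab : a ≠ b) :
    sg a T * sg b (insert a T) = - (sg b T * sg a (insert b T)) := by
  have h := k0_swap a b (insert b T) (fun h => by
    rcases Finset.mem_insert.1 h with h | h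
    · exact hab h
    · exact ha h) (Finset.mem_insert_self b T)
  rw [Finset.erase_insert hb] at h
  have h1 := k0_sq a (insert b T)
  have h2 := k0_sq a T
  linear_combination (sg a T * sg a (insert b T)) * h - (sg a T * sg b (insert a T)) * h1 - (sg b T * sg a (insert b T)) * h2

theorem k1_kd_kd {k : Type} [Field k] {n : ℕ} {M : Type} [AddCommGroup M] [Module (P k n) M]
    (φ : Finset (Fin n) → M) (T : Finset (Fin n)) : kd k (kd k φ) T = 0 := by
  classical
  let F : Fin n × Fin n → M := fun p => if p.1 ∉ T ∧ p.2 ∉ insert p.1 T then
    (sg p.1 T * sg p.2 (insert p.1 T)) • (((X p.1 * X p.2 : P k n)) • φ (insert p.2 (insert p.1 T))) else 0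
  have h1 : kd k (kd k φ) T = ∑ p : Fin n × Fin n, F p := by
    unfold kd
    rw [Fintype.sum_prod_type, ← Finset.sum_subset (Finset.subset_univ Tᶜ)]
    · refine Finset.sum_congr rfl fun a ha => ?_
      have ha' : a ∉ T := Finset.mem_compl.1 ha
      rw [← Finset.sum_subset (Finset.subset_univ (insert a T)ᶜ)]
      · rw [Finset.smul_sum, Finset.smul_sum]
        refine Finset.sum_congr rfl fun b hb => ?_
        show _ = if _ then _ else _
        rw [if_pos ⟨ha', Finset.mem_compl.1 hb⟩, mul_smul, mul_smul]
        rw [smul_comm (X a : P k n) (sg b (insert a T))]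
      · intro b _ hb
        exact if_neg fun h => hb (Finset.mem_compl.2 h.2)
    · intro a _ ha
      exact Finset.sum_eq_zero fun b _ => if_neg fun h => ha (Finset.mem_compl.2 h.1)
  rw [h1]
  refine Finset.sum_involution (fun p _ => p.swap) ?_ ?_ (fun p _ => Finset.mem_univ _) (fun p _ => Prod.swap_swap p)
  · rintro ⟨a, b⟩ _
    show F (a, b) + F (b, a) = 0
    by_cases h : a ∉ T ∧ b ∉ insert a T
    · have hab : a ≠ b := fun h' => h.2 (h' ▸ Finset.mem_insert_self a T)
      have hbT : b ∉ T := fun h' => h.2 (Finset.mem_insert_of_mem h')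
      have h' : b ∉ T ∧ a ∉ insert b T := ⟨hbT, fun h3 => by
        rcases Finset.mem_insert.1 h3 with h3 | h3
        · exact hab h3
        · exact h.1 h3⟩
      show (if _ then _ else _) + (if _ then _ else _) = (0 : M)
      rw [if_pos h, if_pos h', k1_sym a b T h.1 hbT hab, mul_comm (X a : P k n), Finset.insert_comm b a T, neg_smul, neg_add_cancel]
    · have h' : ¬ (b ∉ T ∧ a ∉ insert b T) := by
        rintro ⟨h3, h4⟩
        apply h
        have hab : a ≠ b := fun h' => h4 (h' ▸ Finset.mem_insert_self b T)
        exact ⟨fun h5 => h4 (Finset.mem_insert_of_mem h5), fun h5 => by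
          rcases Finset.mem_insert.1 h5 with h5 | h5
          · exact hab h5.symm
          · exact h3 h5⟩
      show (if _ then _ else _) + (if _ then _ else _) = (0 : M)
      rw [if_neg h, if_neg h', add_zero]
  · rintro ⟨a, b⟩ _ h
    intro h2
    apply h
    have h3 : b = a := congrArg Prod.fst h2
    subst h3
    exact if_neg fun h4 => h4.2 (Finset.mem_insert_self _ _)

end H92B
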