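import Pool.Agent.Lib.H92B.Basic
import Pool.Agent.Lib.H92B.K1

/-!
# H92B, chunk CH

The chase. Let φ have values in the pieces of the kernel in degree j, support in cardinality q, kd φ = 0. By h1 there is ψ with values in g (j - 1), support in cardinality q + 1, kd ψ = φ. The function T ↦ ρ (ψ T) has values in
g' (j - 1 + e), support in cardinality q + 1, and kd of it is ρ (φ T) = 0 (kd_map). By h2 there is χ with values in g' (j - 1 + e - 1), support in cardinality q + 2, kd χ T = ρ (ψ T). If q + 2 ≤ n choose by h3, for every T,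
χ' T ∈ g (j - 2) with ρ (χ' T) = χ T, and χ' T = 0 if T.card ≠ q + 2; if n < q + 2 then χ T = 0 for all T (the cardinality of T is at most n, so T.card ≠ q + 2) and χ' = 0. Put ψ' T = ψ T - kd χ' T. Values: g (j - 1) by hg (kd_mem),
and ρ (ψ' T) = ρ (ψ T) - kd (ρ χ') T = 0. Support: kd_card. kd ψ' T = φ T - kd (kd χ') T = φ T (kd_sub, k1_kd_kd).
-/

open MvPolynomial

namespace H92B

theorem ch {k : Type} [Field k] {n : ℕ} {M : Type} [AddCommGroup M] [Module (P k n) M] [Module k M]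
    {M' : Type} [AddCommGroup M'] [Module (P k n) M'] [Module k M']
    (g : ℤ → Submodule k M) (g' : ℤ → Submodule k M') (ρ : M →ₗ[P k n] M') (e : ℤ) (gk : ℤ → Submodule k M)
    (hgk : ∀ j x, x ∈ gk j ↔ x ∈ g j ∧ ρ x = 0)
    (hg : ∀ (a : Fin n) (j : ℤ) (x : M), x ∈ g j → (X a : P k n) • x ∈ g (j + 1))
    (hρ : ∀ j, ∀ x ∈ g j, ρ x ∈ g' (j + e))
    (q : ℕ) (j : ℤ) (h1 : HV n g q j) (h2 : HV n g' (q + 1) (j - 1 + e))
    (h3 : q + 2 ≤ n → ∀ y ∈ g' (j - 2 + e), ∃ x ∈ g (j - 2), ρ x = y) :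
    HV n gk q j := by
  intro φ hφ1 hφ2 hφ3
  obtain ⟨ψ, hψ1, hψ2, hψ3⟩ := h1 φ (fun T => ((hgk _ _).1 (hφ1 T)).1) hφ2 hφ3
  obtain ⟨χ, hχ1, hχ2, hχ3⟩ := h2 (fun T => ρ (ψ T)) (fun T => hρ _ _ (hψ1 T)) (fun T hT => by rw [hψ2 T hT, map_zero])
    (fun T => by rw [kd_map, hψ3 T]; exact ((hgk _ _).1 (hφ1 T)).2)
  obtain ⟨χ', hχ'1, hχ'2, hχ'3⟩ : ∃ χ' : Finset (Fin n) → M, (∀ T, χ' T ∈ g (j - 2)) ∧ (∀ T, T.card ≠ q + 2 → χ' T = 0) ∧
      ∀ T, ρ (χ' T) = χ T := by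
    by_cases hq : q + 2 ≤ n
    · have h4 : ∀ T : Finset (Fin n), ∃ x : M, x ∈ g (j - 2) ∧ (T.card ≠ q + 2 → x = 0) ∧ ρ x = χ T := by
        intro T
        by_cases hT : T.card = q + 2
        · obtain ⟨x, hx1, hx2⟩ := h3 hq (χ T) (by
            have := hχ1 T
            rwa [show j - 1 + e - 1 = j - 2 + e by ring] at this)
          exact ⟨x, hx1, fun h => absurd hT h, hx2⟩
        · exact ⟨0, Submodule.zero_mem _, fun _ => rfl, by rw [map_zero, hχ2 T hT]⟩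
      choose χ' h5 using h4
      exact ⟨χ', fun T => (h5 T).1, fun T => (h5 T).2.1, fun T => (h5 T).2.2⟩
    · refine ⟨fun _ => 0, fun _ => Submodule.zero_mem _, fun _ _ => rfl, fun T => ?_⟩
      rw [map_zero, hχ2 T]
      have := Finset.card_le_univ T
      rw [Fintype.card_fin] at this
      omega
  refine ⟨fun T => ψ T - kd k χ' T, fun T => (hgk _ _).2 ⟨?_, ?_⟩, fun T hT => ?_, fun T => ?_⟩
  · refine Submodule.sub_mem _ (hψ1 T) ?_
    have := kd_mem g hg χ' (j - 2) hχ'1 T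
    rwa [show j - 2 + 1 = j - 1 by ring] at this
  · rw [map_sub, ← kd_map ρ χ' T, ← hχ3 T, sub_eq_zero]
    congr 1
    funext T
    exact (hχ'3 T).symm
  · show ψ T - kd k χ' T = 0
    rw [hψ2 T hT, kd_card χ' (q + 1) hχ'2 T hT, sub_zero]
  · rw [kd_sub, hψ3 T, k1_kd_kd, sub_zero]

end H92B
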