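import Mathlib

/-!
# H92B: definitions (MP_b67468: integral points on the rays of the Boij-Soederberg cone)

P k n is the polynomial ring over the field k in n variables; modules over it carry gradings g by k-subspaces indexed by the integers.
-/

open MvPolynomial

namespace H92B

/-- The polynomial ring in n variables. -/
abbrev P (k : Type) [Field k] (n : ℕ) : Type := MvPolynomial (Fin n) k

/-- The sign of a relative to T. -/
def sg {n : ℕ} (a : Fin n) (T : Finset (Fin n)) : ℤ := (-1) ^ (T.filter (· < a)).card

section mods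

variable (k : Type) [Field k] {n : ℕ} {M : Type} [AddCommGroup M] [Module (P k n) M]

/-- The Koszul differential on functions on the subsets of the set of variables. -/
noncomputable def kd (φ : Finset (Fin n) → M) (T : Finset (Fin n)) : M :=
  ∑ a ∈ Tᶜ, sg a T • ((X a : P k n) • φ (insert a T))

variable {k} [Module k M]

/-- The Koszul homology of the graded module (M, g) vanishes in homological degree q and with values in degree j (total degree j + q). -/
def HV (n : ℕ) [Module (P k n) M] (g : ℤ → Submodule k M) (q : ℕ) (j : ℤ) : Prop :=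
  ∀ φ : Finset (Fin n) → M, (∀ T, φ T ∈ g j) → (∀ T, T.card ≠ q → φ T = 0) → (∀ T, kd k φ T = 0) →
    ∃ ψ : Finset (Fin n) → M, (∀ T, ψ T ∈ g (j - 1)) ∧ (∀ T, T.card ≠ q + 1 → ψ T = 0) ∧ ∀ T, kd k ψ T = φ T

/-- (M, g) is graded: the variables raise the degree by one, the pieces are independent. -/
structure GrM (n : ℕ) [Module (P k n) M] (g : ℤ → Submodule k M) : Prop where
  mul : ∀ (a : Fin n) (j : ℤ) (x : M), x ∈ g j → (X a : P k n) • x ∈ g (j + 1)
  ind : iSupIndep g

/-- The type condition: the Koszul homology in homological degree q is concentrated in the total degree d (i + q) - c for i + q ≤ s and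
vanishes for i + q > s. -/
def TC (n : ℕ) [Module (P k n) M] (g : ℤ → Submodule k M) (d : ℕ → ℤ) (s i : ℕ) (c : ℤ) : Prop :=
  ∀ (q : ℕ) (j : ℤ), ¬ (i + q ≤ s ∧ j + q = d (i + q) - c) → HV n g q j

end mods

section free

variable (k : Type) [Field k] (n : ℕ)

/-- The homogeneous polynomials of degree j. -/
noncomputable def hm (j : ℤ) : Submodule k (P k n) :=
  if 0 ≤ j then homogeneousSubmodule (Fin n) k j.toNat else ⊥

/-- The vectors of homogeneous polynomials of degree j. -/
noncomputable def HM (β : ℕ) (j : ℤ) : Submodule k (Fin β → P k n) :=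
  Submodule.pi Set.univ (fun _ => hm k n j)

variable {k n}

/-- The graded pieces of a submodule of a free module. -/
noncomputable def gr {β : ℕ} (Z : Submodule (P k n) (Fin β → P k n)) (j : ℤ) : Submodule k (Fin β → P k n) :=
  Z.restrictScalars k ⊓ HM k n β j

/-- Homogeneous submodules. -/
def IsHom {β : ℕ} (Z : Submodule (P k n) (Fin β → P k n)) : Prop :=
  ∀ z ∈ Z, ∀ j : ℕ, (fun i => homogeneousComponent j (z i)) ∈ Z

end free

section cofree

variable (k : Type) [Field k] (n : ℕ)

/-- The linear forms on the polynomial ring. -/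
def Du : Type := P k n →ₗ[k] k

noncomputable instance : AddCommGroup (Du k n) := inferInstanceAs (AddCommGroup (P k n →ₗ[k] k))

noncomputable instance : Module k (Du k n) := inferInstanceAs (Module k (P k n →ₗ[k] k))

variable {k n}

/-- The value of a linear form. -/
def Du.ev (f : Du k n) : P k n →ₗ[k] k := f

theorem Du.ext {f g : Du k n} (h : ∀ x, f.ev x = g.ev x) : f = g := LinearMap.ext h

/-- The polynomials act by (p f)(x) = f(p x). -/
noncomputable instance : SMul (P k n) (Du k n) := ⟨fun p f => (f.ev ∘ₗ LinearMap.mulLeft k p : P k n →ₗ[k] k)⟩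

@[simp] theorem Du.smul_ev (p : P k n) (f : Du k n) (x : P k n) : (p • f).ev x = f.ev (p * x) := rfl

@[simp] theorem Du.csmul_ev (c : k) (f : Du k n) (x : P k n) : (c • f).ev x = c * f.ev x := rfl

@[simp] theorem Du.add_ev (f g : Du k n) (x : P k n) : (f + g).ev x = f.ev x + g.ev x := rfl

@[simp] theorem Du.neg_ev (f : Du k n) (x : P k n) : (-f).ev x = - f.ev x := rfl

@[simp] theorem Du.sub_ev (f g : Du k n) (x : P k n) : (f - g).ev x = f.ev x - g.ev x := rfl

@[simp] theorem Du.zero_ev (x : P k n) : (0 : Du k n).ev x = 0 := rfl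

noncomputable instance : Module (P k n) (Du k n) where
  one_smul f := Du.ext fun x => by simp
  mul_smul p q f := Du.ext fun x => by simp [mul_left_comm, mul_assoc]
  smul_zero p := Du.ext fun x => by simp
  smul_add p f g := Du.ext fun x => by simp
  add_smul p q f := Du.ext fun x => by simp [add_mul]
  zero_smul f := Du.ext fun x => by simp

instance : IsScalarTower k (P k n) (Du k n) where
  smul_assoc c p f := Du.ext fun x => by simp

variable (k n)

/-- The linear forms supported in degree i (i an integer): zero on the polynomials with zero component of degree i. -/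
noncomputable def Dg (i : ℤ) : Submodule k (Du k n) where
  carrier := {f | ∀ j : ℕ, (j : ℤ) ≠ i → ∀ p ∈ homogeneousSubmodule (Fin n) k j, f.ev p = 0}
  zero_mem' := by intro j _ p _; simp
  add_mem' := by intro f g hf hg j hj p hp; simp [hf j hj p hp, hg j hj p hp]
  smul_mem' := by intro c f hf j hj p hp; simp [hf j hj p hp]

/-- The vectors of linear forms of degree j, the pairing has degree h: the form is supported in degree h - j. -/
noncomputable def GM (c : ℕ) (h j : ℤ) : Submodule k (Fin c → Du k n) :=
  Submodule.pi Set.univ (fun _ => Dg k n (h - j))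

end cofree

section mono

/-- The set of the exponents of the monomials of degree m. -/
noncomputable abbrev An (n m : ℕ) : Finset (Fin n →₀ ℕ) := Finset.finsuppAntidiag (Finset.univ : Finset (Fin n)) m

/-- The set of the sums of an element of L and an exponent of degree p. -/
noncomputable def shf (n p : ℕ) (L : Finset (Fin n →₀ ℕ)) : Finset (Fin n →₀ ℕ) :=
  (L ×ˢ An n p).image (fun x => x.1 + x.2)

/-- The exponents of the monomials of degree m. -/
abbrev Mon (n m : ℕ) : Type := (An n m : Finset (Fin n →₀ ℕ))

variable {V A B : Type} [Fintype V] [Fintype A] [Fintype B] (t : V → A → B → ℤ)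

/-- The bilinear map over K with the structure constants t. -/
def bl (K : Type) [Field K] (v : V → K) (u : A → K) (b : B) : K :=
  ∑ l, ∑ a, (t l a b : K) * v l * u a

/-- The span of the values on a subspace U. -/
def TU (K : Type) [Field K] (U : Submodule K (A → K)) : Submodule K (B → K) :=
  Submodule.span K {w | ∃ v : V → K, ∃ u ∈ U, w = bl t K v u}

/-- Strict stability. -/
def Stab (K : Type) [Field K] : Prop :=
  TU t K ⊤ = ⊤ ∧ ∀ U : Submodule K (A → K), U ≠ ⊥ → U ≠ ⊤ →
    Module.finrank K U * Fintype.card B < Module.finrank K (TU t K U) * Fintype.card A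

/-- The block matrix Φ has no kernel. -/
def NoKer (K : Type) [Field K] {a b : ℕ} (Φ : Fin b → Fin a → V → K) : Prop :=
  ∀ ζ : Fin a → A → K, (∀ i, ∑ j, bl t K (Φ i j) (ζ j) = 0) → ζ = 0

end mono

/-- The structure constants of the multiplication of monomials of degrees p and m. -/
noncomputable def tm (n p m : ℕ) (l : Mon n p) (a : Mon n m) (b : Mon n (m + p)) : ℤ :=
  if (l : Fin n →₀ ℕ) + (a : Fin n →₀ ℕ) = (b : Fin n →₀ ℕ) then 1 else 0

/-- The structure constants of the contraction. -/
noncomputable def tc (n j l : ℕ) (x : Mon n (j + l)) (a : Mon n j) (b : Mon n l) : ℤ :=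
  if (a : Fin n →₀ ℕ) + (b : Fin n →₀ ℕ) = (x : Fin n →₀ ℕ) then 1 else 0

/-- The proportions of the Betti numbers of type d (Herzog-Kuehl). -/
def HK (d : ℕ → ℤ) (s : ℕ) (β : ℕ → ℕ) : Prop :=
  ∀ i ≤ s, ∀ i' ≤ s,
    (β i : ℤ) * ∏ j ∈ (Finset.range (s + 1)).erase i, |d j - d i| =
      (β i' : ℤ) * ∏ j ∈ (Finset.range (s + 1)).erase i', |d j - d i'|

/-- A pure resolution with Betti numbers β and degrees d (the conclusion of the frozen statement). -/
def Res (k : Type) [Field k] (n : ℕ) (d : ℕ → ℤ) (β : ℕ → ℕ) : Prop :=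
  ∃ f : (i : ℕ) → (Fin (β (i + 1)) → MvPolynomial (Fin n) k) →ₗ[MvPolynomial (Fin n) k]
        (Fin (β i) → MvPolynomial (Fin n) k),
    (∀ (i : ℕ) (a : Fin (β i)) (b : Fin (β (i + 1))),
      (f i (Pi.single b 1) a).IsHomogeneous (d (i + 1) - d i).toNat) ∧
    (∀ i : ℕ, LinearMap.range (f (i + 1)) = LinearMap.ker (f i))

/-- All integral points with large β 0 are Betti tables. -/
def Good (k : Type) [Field k] (n s : ℕ) (d : ℕ → ℤ) : Prop :=
  ∃ N : ℕ, ∀ β : ℕ → ℕ, (∀ i, s < i → β i = 0) → 0 < β 0 → N ≤ β 0 → HK d s β → Res k n d β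

end H92B
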