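import Pool.Agent.Lib.H92B.Basic

/-!
# H92B, chunk E1

Propagation of injectivity and surjectivity. (down) Downward induction from i0 (write j = i0 - t, t : ℕ): x ∈ g j, j < i0, ρ x = 0: each X a • x ∈ g (j + 1) has ρ (X a • x) = X a • ρ x = 0, so X a • x = 0 by induction, so x = 0 by hsoc (j < i0). (up) Upward induction j = i0 + t: y ∈ g' (j + e) with j > i0; by h0 and gen_of_HV y = Σ X a • z a, z a ∈ g' (j + e - 1) = g' ((j - 1) + e), z a = ρ (x a) with x a ∈ g (j - 1), y = ρ (Σ X a • x a) and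
Σ X a • x a ∈ g j.
-/

open MvPolynomial

namespace H92B

theorem e1_down {k : Type} [Field k] {n : ℕ} {M : Type} [AddCommGroup M] [Module (P k n) M] [Module k M]
    {M' : Type} [AddCommGroup M'] [Module (P k n) M'] (g : ℤ → Submodule k M) (ρ : M →ₗ[P k n] M') (i0 : ℤ)
    (hg : ∀ (a : Fin n) (j : ℤ) (x : M), x ∈ g j → (X a : P k n) • x ∈ g (j + 1))
    (hsoc : ∀ j < i0, ∀ y ∈ g j, (∀ a : Fin n, (X a : P k n) • y = 0) → y = 0)
    (h : ∀ x ∈ g i0, ρ x = 0 → x = 0) : ∀ j ≤ i0, ∀ x ∈ g j, ρ x = 0 → x = 0 := by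
  have h1 : ∀ t : ℕ, ∀ x ∈ g (i0 - t), ρ x = 0 → x = 0 := by
    intro t
    induction t with
    | zero =>
      intro x hx
      rw [Nat.cast_zero, sub_zero] at hx
      exact h x hx
    | succ t ih =>
      intro x hx hx2
      refine hsoc (i0 - ((t + 1 : ℕ) : ℤ)) (by push_cast; omega) x hx fun a => ih _ ?_ ?_
      · have := hg a _ x hx
        rwa [show i0 - ((t + 1 : ℕ) : ℤ) + 1 = i0 - t by push_cast; ring] at this
      · rw [map_smul, hx2, smul_zero]
  intro j hj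
  have := h1 (i0 - j).toNat
  rwa [show i0 - ((i0 - j).toNat : ℤ) = j by omega] at this

theorem e1_up {k : Type} [Field k] {n : ℕ} {M : Type} [AddCommGroup M] [Module (P k n) M] [Module k M]
    {M' : Type} [AddCommGroup M'] [Module (P k n) M'] [Module k M'] (g : ℤ → Submodule k M) (g' : ℤ → Submodule k M')
    (ρ : M →ₗ[P k n] M') (e i0 : ℤ)
    (hg : ∀ (a : Fin n) (j : ℤ) (x : M), x ∈ g j → (X a : P k n) • x ∈ g (j + 1))
    (h0 : ∀ j, i0 < j → HV n g' 0 (j + e))
    (h : ∀ y ∈ g' (i0 + e), ∃ x ∈ g i0, ρ x = y) : ∀ j, i0 ≤ j → ∀ y ∈ g' (j + e), ∃ x ∈ g j, ρ x = y := by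
  have h1 : ∀ t : ℕ, ∀ y ∈ g' (i0 + t + e), ∃ x ∈ g (i0 + t), ρ x = y := by
    intro t
    induction t with
    | zero =>
      intro y hy
      rw [Nat.cast_zero, add_zero] at hy ⊢
      exact h y hy
    | succ t ih =>
      intro y hy
      obtain ⟨z, hz1, hz2⟩ := gen_of_HV g' _ (h0 (i0 + ((t + 1 : ℕ) : ℤ)) (by push_cast; omega)) y hy
      have h2 : ∀ a, ∃ x ∈ g (i0 + t), ρ x = z a := by
        intro a
        refine ih (z a) ?_
        have := hz1 a
        rwa [show i0 + ((t + 1 : ℕ) : ℤ) + e - 1 = i0 + t + e by push_cast; ring] at this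
      choose x hx1 hx2 using h2
      refine ⟨∑ a, (X a : P k n) • x a, Submodule.sum_mem _ fun a _ => ?_, ?_⟩
      · have := hg a _ _ (hx1 a)
        rwa [show i0 + (t : ℤ) + 1 = i0 + ((t + 1 : ℕ) : ℤ) by push_cast; ring] at this
      · rw [map_sum, hz2]
        exact Finset.sum_congr rfl fun a _ => by rw [map_smul, hx2]
  intro j hj
  have := h1 (j - i0).toNat
  rwa [show i0 + ((j - i0).toNat : ℤ) = j by omega] at this

end H92B
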