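import Pool.Agent.Lib.H92B.Basic

/-!
# H92B, chunk E2

Equal dimensions: an injective k-linear map from a finite-dimensional space to one of the same dimension is surjective (LinearMap.injective_iff_surjective_of_finrank_eq_finrank for the restriction of ρ to g i → g' i', LinearMap.restrict; the P-linear ρ is k-linear: LinearMap.restrictScalars k, with the scalar towers).
-/

open MvPolynomial

namespace H92B

theorem e2 {k : Type} [Field k] {n : ℕ} {M : Type} [AddCommGroup M] [Module (P k n) M] [Module k M] [IsScalarTower k (P k n) M]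
    {M' : Type} [AddCommGroup M'] [Module (P k n) M'] [Module k M'] [IsScalarTower k (P k n) M']
    (W : Submodule k M) (W' : Submodule k M') [FiniteDimensional k W] [FiniteDimensional k W'] (ρ : M →ₗ[P k n] M')
    (hρ : ∀ x ∈ W, ρ x ∈ W') (hr : Module.finrank k W = Module.finrank k W') (h : ∀ x ∈ W, ρ x = 0 → x = 0) :
    ∀ y ∈ W', ∃ x ∈ W, ρ x = y := by
  let r : W →ₗ[k] W' :=
    { toFun := fun x => ⟨ρ x, hρ x x.2⟩
      map_add' := fun x y => Subtype.ext (by simp)
      map_smul' := fun c x => Subtype.ext (by
        show ρ (c • (x : M)) = c • ρ (x : M)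
        rw [← algebraMap_smul (P k n) c (x : M), map_smul, algebraMap_smul]) }
  have hinj : Function.Injective r := by
    rw [injective_iff_map_eq_zero]
    intro x hx
    exact Subtype.ext (h x x.2 (congrArg Subtype.val hx))
  have hsurj := (LinearMap.injective_iff_surjective_of_finrank_eq_finrank hr).1 hinj
  intro y hy
  obtain ⟨x, hx⟩ := hsurj ⟨y, hy⟩
  exact ⟨x, x.2, congrArg Subtype.val hx⟩

end H92B
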