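import Pool.Agent.Lib.H92B.Basic

/-!
# H92B, chunk EX

The substitution x ↦ x^g, g ≥ 1. Let E = expand g : P k n →ₐ[k] P k n (X i ↦ X i ^ g), and for a multi-index r with r i < g (Fin n → Fin g, as a Finsupp) let sec r : P k n → P k n be the additive map with coeff μ (sec r x) = coeff (g • μ + r) x (well defined since μ ↦ g • μ + r is injective: Finsupp.comapDomain). Then (1) sec r (E a * x) = a * sec r x (check on monomials a = monomial μ c, x = monomial ν c': g • μ + ν = g • μ' + r iff ν = g • ν' + r and μ' = μ + ν', where the divisibility of ν - r by g is the point), and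
(2) x = Σ_r monomial r 1 * E (sec r x) (check on monomials: each ν is g • ν' + r for exactly one r). Given f with A_i a b = f i (Pi.single b 1) a define (f' i x) a = Σ_b x b * E (A_i a b). Homogeneity: E of a homogeneous polynomial of degree D is homogeneous of degree g * D, and (g * e (i + 1) - g * e i).toNat = g * (e (i + 1) - e i).toNat. sec r (f' i x) = f i (sec r x) (componentwise). Exactness: f' i (f' (i + 1) y) = 0 since the matrix product is E of the zero matrix (or by (2)).
If f' i x = 0 then f i (sec r x) = 0, sec r x = f (i + 1) (y_r), and x = Σ_r monomial r 1 * E (f (i + 1) (y_r)) = f' (i + 1) (Σ_r monomial r 1 * E (y_r)).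
-/

open MvPolynomial

namespace H92B

theorem ex_pi {R : Type} [CommRing R] {a b : ℕ} (f : (Fin b → R) →ₗ[R] (Fin a → R)) (x : Fin b → R) (j : Fin a) :
    f x j = ∑ i, f (Pi.single i 1) j * x i := by
  conv_lhs => rw [← Finset.univ_sum_single x]
  rw [map_sum, Finset.sum_apply]
  refine Finset.sum_congr rfl fun i _ => ?_
  have h1 : (Pi.single i (x i) : Fin b → R) = x i • Pi.single i 1 := by
    rw [← Pi.single_smul, smul_eq_mul, mul_one]
  rw [h1, map_smul, mul_comm]
  rfl

/-- The exponent g μ + r. -/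
noncomputable def ex_w {n g : ℕ} (r : Fin n → Fin g) (μ : Fin n →₀ ℕ) : Fin n →₀ ℕ :=
  Finsupp.equivFunOnFinite.symm fun i => g * μ i + (r i : ℕ)

theorem ex_w_apply {n g : ℕ} (r : Fin n → Fin g) (μ : Fin n →₀ ℕ) (i : Fin n) : ex_w r μ i = g * μ i + (r i : ℕ) := rfl

theorem ex_w_inj {n g : ℕ} {r r' : Fin n → Fin g} {μ μ' : Fin n →₀ ℕ} (h : ex_w r μ = ex_w r' μ') : r = r' ∧ μ = μ' := by
  have h1 : ∀ i, g * μ i + (r i : ℕ) = g * μ' i + (r' i : ℕ) := fun i => DFunLike.congr_fun h i
  have h2 : ∀ i, (r i : ℕ) = (r' i : ℕ) := by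
    intro i
    have h3 := congrArg (· % g) (h1 i)
    simp only [Nat.mul_add_mod] at h3
    rwa [Nat.mod_eq_of_lt (r i).2, Nat.mod_eq_of_lt (r' i).2] at h3
  refine ⟨funext fun i => Fin.ext (h2 i), Finsupp.ext fun i => ?_⟩
  have h3 := h1 i
  rw [h2 i] at h3
  have h4 : 0 < g := (Nat.zero_le _).trans_lt (r i).2
  exact Nat.eq_of_mul_eq_mul_left h4 (Nat.add_right_cancel h3)

theorem ex_w_surj {n g : ℕ} (hg : 0 < g) (ν : Fin n →₀ ℕ) : ∃ (r : Fin n → Fin g) (μ : Fin n →₀ ℕ), ex_w r μ = ν := by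
  refine ⟨fun i => ⟨ν i % g, Nat.mod_lt _ hg⟩, Finsupp.equivFunOnFinite.symm fun i => ν i / g, Finsupp.ext fun i => ?_⟩
  rw [ex_w_apply]
  exact Nat.div_add_mod (ν i) g

/-- The section of x of residue r. -/
noncomputable def ex_sec {k : Type} [Field k] {n g : ℕ} (r : Fin n → Fin g) (x : P k n) : P k n :=
  ∑ μ ∈ x.support.preimage (ex_w r) (fun _ _ _ _ h => (ex_w_inj h).2), monomial μ (coeff (ex_w r μ) x)

theorem ex_sec_coeff {k : Type} [Field k] {n g : ℕ} (r : Fin n → Fin g) (x : P k n) (μ : Fin n →₀ ℕ) :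
    coeff μ (ex_sec r x) = coeff (ex_w r μ) x := by
  unfold ex_sec
  rw [coeff_sum]
  simp only [coeff_monomial, Finset.sum_ite_eq']
  by_cases h : μ ∈ x.support.preimage (ex_w r) (fun _ _ _ _ h => (ex_w_inj h).2)
  · rw [if_pos h]
  · rw [if_neg h]
    rw [Finset.mem_preimage, notMem_support_iff] at h
    exact h.symm

theorem ex_sec_add {k : Type} [Field k] {n g : ℕ} (r : Fin n → Fin g) (x y : P k n) : ex_sec r (x + y) = ex_sec r x + ex_sec r y := by
  ext μ
  rw [coeff_add, ex_sec_coeff, ex_sec_coeff, ex_sec_coeff, coeff_add]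

theorem ex_sec_zero {k : Type} [Field k] {n g : ℕ} (r : Fin n → Fin g) : ex_sec r (0 : P k n) = 0 := by
  ext μ
  rw [ex_sec_coeff, coeff_zero, coeff_zero]

/-- The section as an additive map. -/
noncomputable def ex_secHom {k : Type} [Field k] {n g : ℕ} (r : Fin n → Fin g) : P k n →+ P k n where
  toFun := ex_sec r
  map_zero' := ex_sec_zero r
  map_add' := ex_sec_add r

theorem ex_sec_sum {k : Type} [Field k] {n g : ℕ} (r : Fin n → Fin g) {ι : Type} (s : Finset ι) (f : ι → P k n) :
    ex_sec r (∑ i ∈ s, f i) = ∑ i ∈ s, ex_sec r (f i) := map_sum (ex_secHom r) f s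

theorem ex_ext {k : Type} [Field k] {n g : ℕ} (hg : 0 < g) {x y : P k n} (h : ∀ r : Fin n → Fin g, ex_sec r x = ex_sec r y) : x = y := by
  ext ν
  obtain ⟨r, μ, rfl⟩ := ex_w_surj hg ν
  rw [← ex_sec_coeff, ← ex_sec_coeff, h r]

theorem ex_sec_mul {k : Type} [Field k] {n g : ℕ} (hg : 0 < g) (r : Fin n → Fin g) (a x : P k n) :
    ex_sec r (expand g a * x) = a * ex_sec r x := by
  induction a using MvPolynomial.induction_on' with
  | monomial μ0 c =>
    ext μ
    rw [ex_sec_coeff, expand_monomial, coeff_monomial_mul', coeff_monomial_mul']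
    have h1 : (g • μ0 ≤ ex_w r μ) ↔ μ0 ≤ μ := by
      constructor
      · intro h i
        have h2 : g * μ0 i ≤ g * μ i + (r i : ℕ) := h i
        have h3 := (r i).2
        by_contra h4
        have h5 : μ i + 1 ≤ μ0 i := by omega
        have h6 : g * (μ i + 1) ≤ g * μ0 i := Nat.mul_le_mul_left _ h5
        rw [mul_add, mul_one] at h6
        omega
      · intro h i
        have h2 : g * μ0 i ≤ g * μ i := Nat.mul_le_mul_left _ (h i)
        show g * μ0 i ≤ g * μ i + (r i : ℕ)
        omega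
    by_cases h2 : μ0 ≤ μ
    · rw [if_pos (h1.2 h2), if_pos h2, ex_sec_coeff]
      congr 2
      ext i
      show g * μ i + (r i : ℕ) - g * μ0 i = g * (μ i - μ0 i) + (r i : ℕ)
      have h3 : g * μ0 i ≤ g * μ i := Nat.mul_le_mul_left _ (h2 i)
      rw [Nat.mul_sub]
      omega
    · rw [if_neg (fun h => h2 (h1.1 h)), if_neg h2]
  | add p q hp hq => rw [map_add, add_mul, add_mul, ex_sec_add, hp, hq]

theorem ex_sec_mono {k : Type} [Field k] {n g : ℕ} (r s : Fin n → Fin g) :
    ex_sec s (monomial (ex_w r 0) (1 : k)) = if s = r then 1 else 0 := by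
  ext μ
  rw [ex_sec_coeff, coeff_monomial]
  by_cases h : s = r
  · subst h
    rw [if_pos rfl, coeff_one]
    by_cases hμ : 0 = μ
    · rw [if_pos hμ, ← hμ, if_pos rfl]
    · rw [if_neg hμ, if_neg fun h1 => hμ (ex_w_inj h1).2]
  · rw [if_neg h, coeff_zero, if_neg fun h1 => h (ex_w_inj h1).1.symm]

/-- The element with given sections. -/
noncomputable def ex_glue {k : Type} [Field k] {n g : ℕ} (y : (Fin n → Fin g) → P k n) : P k n :=
  ∑ r, expand g (y r) * monomial (ex_w r 0) 1

theorem ex_sec_glue {k : Type} [Field k] {n g : ℕ} (hg : 0 < g) (y : (Fin n → Fin g) → P k n) (s : Fin n → Fin g) :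
    ex_sec s (ex_glue y) = y s := by
  unfold ex_glue
  rw [ex_sec_sum, Finset.sum_eq_single s]
  · rw [ex_sec_mul hg, ex_sec_mono, if_pos rfl, mul_one]
  · intro r _ hr
    rw [ex_sec_mul hg, ex_sec_mono, if_neg (Ne.symm hr), mul_zero]
  · exact fun h => absurd (Finset.mem_univ _) h

theorem ex_hom {k : Type} [Field k] {n : ℕ} (g D : ℕ) (a : P k n) (ha : a.IsHomogeneous D) : (expand g a).IsHomogeneous (g * D) := by
  rw [a.as_sum, map_sum]
  refine IsHomogeneous.sum _ _ _ fun μ hμ => ?_
  rw [expand_monomial]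
  refine isHomogeneous_monomial _ ?_
  have h1 := ha (mem_support_iff.1 hμ)
  have h2 : μ.degree = D := by
    rw [← h1, Finsupp.degree_eq_weight_one]
    rfl
  rw [map_nsmul, h2, smul_eq_mul]

theorem ex (k : Type) [Field k] (n : ℕ) (e : ℕ → ℤ) (c : ℤ) (g : ℕ) (hg : 0 < g) (β : ℕ → ℕ) (h : Res k n e β) :
    Res k n (fun i => c + g * e i) β := by
  classical
  obtain ⟨f, hhom, hex⟩ := h
  let A : (i : ℕ) → Matrix (Fin (β i)) (Fin (β (i + 1))) (P k n) := fun i a b => expand g (f i (Pi.single b 1) a)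
  let f' : (i : ℕ) → (Fin (β (i + 1)) → P k n) →ₗ[P k n] (Fin (β i) → P k n) := fun i => (A i).mulVecLin
  let sc : {b : ℕ} → (Fin n → Fin g) → (Fin b → P k n) → (Fin b → P k n) := fun r x b => ex_sec r (x b)
  have hsc : ∀ (i : ℕ) (r : Fin n → Fin g) (x : Fin (β (i + 1)) → P k n), sc r (f' i x) = f i (sc r x) := by
    intro i r x
    funext a
    rw [ex_pi (f i)]
    show ex_sec r ((A i).mulVecLin x a) = _
    rw [Matrix.mulVecLin_apply, Matrix.mulVec, dotProduct, ex_sec_sum]
    exact Finset.sum_congr rfl fun b _ => ex_sec_mul hg r _ _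
  have hext : ∀ {b : ℕ} (x y : Fin b → P k n), (∀ r : Fin n → Fin g, sc r x = sc r y) → x = y := by
    intro b x y h
    funext c
    exact ex_ext hg fun r => congrFun (h r) c
  have hsc0 : ∀ {b : ℕ} (r : Fin n → Fin g), sc r (0 : Fin b → P k n) = 0 := by
    intro b r
    funext c
    exact ex_sec_zero r
  refine ⟨f', fun i a b => ?_, fun i => ?_⟩
  · show ((A i).mulVecLin (Pi.single b 1) a).IsHomogeneous _
    rw [Matrix.mulVecLin_apply, Matrix.mulVec_single_one]
    have h1 := ex_hom g _ _ (hhom i a b)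
    have h2 : (c + (g : ℤ) * e (i + 1) - (c + g * e i)).toNat = g * (e (i + 1) - e i).toNat := by
      rw [show c + (g : ℤ) * e (i + 1) - (c + g * e i) = g * (e (i + 1) - e i) by ring]
      by_cases h3 : 0 ≤ e (i + 1) - e i
      · obtain ⟨t, ht⟩ := Int.eq_ofNat_of_zero_le h3
        rw [ht, ← Nat.cast_mul, Int.toNat_natCast, Int.toNat_natCast]
      · rw [Int.toNat_of_nonpos (by omega : e (i + 1) - e i ≤ 0), mul_zero]
        refine Int.toNat_of_nonpos ?_
        exact mul_nonpos_of_nonneg_of_nonpos (by positivity) (by omega)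
    rw [h2]
    exact h1
  · ext x
    constructor
    · rintro ⟨y, rfl⟩
      rw [LinearMap.mem_ker]
      refine hext _ _ fun r => ?_
      rw [hsc, hsc, hsc0]
      have h1 : f (i + 1) (sc r y) ∈ LinearMap.ker (f i) := by
        rw [← hex i]
        exact ⟨_, rfl⟩
      exact h1
    · intro hx
      rw [LinearMap.mem_ker] at hx
      have h1 : ∀ r : Fin n → Fin g, ∃ y : Fin (β (i + 2)) → P k n, f (i + 1) y = sc r x := by
        intro r
        have h2 : sc r x ∈ LinearMap.ker (f i) := by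
          rw [LinearMap.mem_ker, ← hsc, hx, hsc0]
        rw [← hex i] at h2
        exact h2
      choose y hy using h1
      refine ⟨fun b => ex_glue fun r => y r b, hext _ _ fun r => ?_⟩
      rw [hsc, ← hy r]
      congr 1
      funext b
      exact ex_sec_glue hg _ r

end H92B
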