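import Pool.Agent.Lib.H92B.Basic

/-!
# H92B, chunk F1A

The matrix of forms of degree p. α is the linear map with (α x) i = Σ_j α_ij * x j, α_ij = Σ over λ ∈ Mon n p of C (Φ i j λ) * monomial λ 1 (homogeneous of degree p), e.g. Matrix.toLin' or Matrix.mulVecLin. The degrees: hm_mul. Injectivity on HM m: x ∈ HM m, so x j = Σ over μ ∈ Mon n m of ζ j μ • monomial μ 1 with ζ j μ = coeff μ (x j). The coefficient of (α x) i at ν ∈ Mon n (m + p) is Σ_j Σ_{λ, μ, λ + μ = ν} Φ i j λ * ζ j μ = Σ_j bl (tm n p m) k (Φ i j) (ζ j) ν.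
If α x = 0 then ζ = 0 by h, so x = 0 (a homogeneous polynomial of degree m has support in An n m; mem_finsuppAntidiag, Finsupp.degree).
-/

open MvPolynomial

namespace H92B

theorem f1a_repr {k : Type} [Field k] {n m : ℕ} {x : P k n} (hx : x ∈ hm k n m) :
    x = ∑ μ : Mon n m, monomial (μ : Fin n →₀ ℕ) (coeff (μ : Fin n →₀ ℕ) x) := by
  ext ν
  rw [coeff_sum]
  by_cases h : ν ∈ An n m
  · rw [Finset.sum_eq_single ⟨ν, h⟩]
    · rw [coeff_monomial, if_pos rfl]
    · intro μ _ hμ
      rw [coeff_monomial, if_neg fun h1 => hμ (Subtype.ext h1)]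
    · exact fun h1 => absurd (Finset.mem_univ _) h1
  · have h0 : ∀ μ ∈ (Finset.univ : Finset (Mon n m)), coeff ν (monomial (μ : Fin n →₀ ℕ) (coeff (μ : Fin n →₀ ℕ) x)) = 0 := by
      intro μ _
      rw [coeff_monomial, if_neg]
      intro h1
      exact h (h1 ▸ μ.2)
    rw [Finset.sum_eq_zero h0]
    by_contra h1
    have h2 := (hm_coeff.1 hx) ν h1
    exact h (mem_An.2 (by exact_mod_cast h2))

theorem f1a {k : Type} [Field k] (n p m a b : ℕ) (Φ : Fin b → Fin a → Mon n p → k) (h : NoKer (tm n p m) k Φ) :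
    ∃ A : Matrix (Fin b) (Fin a) (P k n), (∀ i j, A i j ∈ hm k n p) ∧ ∀ x ∈ HM k n a m, A.mulVec x = 0 → x = 0 := by
  refine ⟨fun i j => ∑ l : Mon n p, monomial (l : Fin n →₀ ℕ) (Φ i j l), fun i j => ?_, fun x hx hx0 => ?_⟩
  · exact Submodule.sum_mem _ fun l _ => mem_hm_nat.2 (isHomogeneous_monomial _ (mem_An.1 l.2))
  · have h1 := h (fun j μ => coeff (μ : Fin n →₀ ℕ) (x j)) (fun i => by
      funext ν
      have h2 := congrArg (coeff (ν : Fin n →₀ ℕ)) (congrFun hx0 i)
      rw [Pi.zero_apply, coeff_zero] at h2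
      rw [Finset.sum_apply, Pi.zero_apply, ← h2, Matrix.mulVec, dotProduct, coeff_sum]
      refine Finset.sum_congr rfl fun j _ => ?_
      conv_rhs => rw [f1a_repr (mem_HM.1 hx j)]
      rw [Finset.sum_mul_sum, coeff_sum]
      unfold bl
      refine Finset.sum_congr rfl fun l _ => ?_
      rw [coeff_sum]
      refine Finset.sum_congr rfl fun μ _ => ?_
      rw [monomial_mul, coeff_monomial]
      unfold tm
      split_ifs
      · push_cast
        ring
      · push_cast
        ring)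
    funext j
    rw [f1a_repr (mem_HM.1 hx j)]
    refine Finset.sum_eq_zero fun μ _ => ?_
    have h3 := congrFun (congrFun h1 j) μ
    change coeff (μ : Fin n →₀ ℕ) (x j) = 0 at h3
    rw [h3, monomial_zero]

end H92B
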