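import Pool.Agent.Lib.H92B.Basic

/-!
# H92B, chunk G1

The grading of a free module. mul: HM_X. Independence: iSupIndep: for each i show Disjoint (HM i) (⨆ j ≠ i, HM j). Let D be the k-linear map x ↦ (b ↦ homogeneousComponent i.toNat (x b)) for 0 ≤ i (for i < 0 HM i = ⊥ by HM_neg and there is nothing to show).
D is the identity on HM i (homogeneousComponent of a homogeneous polynomial, homogeneousComponent_of_mem or similar) and zero on HM j for j ≠ i, so the supremum is contained in the kernel of D (iSup_le), and an element of both is its own image under D, which is 0.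
-/

open MvPolynomial

namespace H92B

theorem g1 (k : Type) [Field k] (n β : ℕ) : GrM n (HM k n β) := by
  refine ⟨fun a j x hx => HM_X a hx, ?_⟩
  rw [iSupIndep_def]
  intro i
  rw [Submodule.disjoint_def]
  intro x hx1 hx2
  by_cases hi : 0 ≤ i
  · lift i to ℕ using hi
    let D : Submodule k (Fin β → P k n) :=
      { carrier := {x | ∀ b, homogeneousComponent i (x b) = 0}
        zero_mem' := fun b => by simp
        add_mem' := fun {x y} hx hy b => by
          rw [Pi.add_apply, map_add, hx b, hy b, add_zero]
        smul_mem' := fun c x hx b => by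
          rw [Pi.smul_apply, map_smul, hx b, smul_zero] }
    have h1 : (⨆ (j : ℤ) (_ : j ≠ (i : ℤ)), HM k n β j) ≤ D := by
      refine iSup_le fun j => iSup_le fun hj y hy b => ?_
      rw [mem_HM] at hy
      by_cases hj2 : 0 ≤ j
      · lift j to ℕ using hj2
        have h2 := mem_hm_nat.1 (hy b)
        rw [homogeneousComponent_of_mem ((mem_homogeneousSubmodule _ _).2 h2), if_neg]
        intro h3
        exact hj (by rw [h3])
      · have h2 := hy b
        rw [hm_neg (by omega), Submodule.mem_bot] at h2
        rw [h2, map_zero]
    have h2 : ∀ b, homogeneousComponent i (x b) = 0 := h1 hx2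
    funext b
    rw [mem_HM] at hx1
    have h3 := homogeneousComponent_eq_self (mem_hm_nat.1 (hx1 b))
    rw [h2 b] at h3
    exact h3.symm
  · rw [HM_neg (by omega)] at hx1
    exact (Submodule.mem_bot k).1 hx1

end H92B
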