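import Pool.Agent.Lib.H92B.Basic

/-!
# H92B, chunk G3

Dimensions. hm k n t for a natural t is homogeneousSubmodule (Fin n) k t, which is Finsupp.supported k k of the set of the exponents of degree t (homogeneousSubmodule_eq_finsupp_supported), so it has a basis indexed by Mon n t; the finrank is Fintype.card (Mon n t).
HM is the power (Submodule.pi of the constant family is isomorphic to the functions from Fin β to hm; Module.finrank_pi_fintype). The finite-dimensionality follows in the same way (for j < 0 use HM_neg).
-/

open MvPolynomial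

namespace H92B

/-- The coordinates. -/
noncomputable def g3_map (k : Type) [Field k] (n β t : ℕ) : HM k n β (t : ℤ) →ₗ[k] (Fin β → Mon n t → k) where
  toFun x b μ := coeff (μ : Fin n →₀ ℕ) (x.1 b)
  map_add' x y := by
    funext b μ
    simp
  map_smul' c x := by
    funext b μ
    simp

theorem g3_bij (k : Type) [Field k] (n β t : ℕ) : Function.Bijective (g3_map k n β t) := by
  constructor
  · rw [injective_iff_map_eq_zero]
    intro x hx
    apply Subtype.ext
    funext b
    show x.1 b = 0
    ext μ
    rw [coeff_zero]
    by_cases h : μ ∈ An n t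
    · exact congrFun (congrFun hx b) ⟨μ, h⟩
    · by_contra h1
      have h2 := (hm_coeff.1 (mem_HM.1 x.2 b)) μ h1
      exact h (mem_An.2 (by exact_mod_cast h2))
  · intro c
    refine ⟨⟨fun b => ∑ μ : Mon n t, monomial (μ : Fin n →₀ ℕ) (c b μ), mem_HM.2 fun b => ?_⟩, ?_⟩
    · exact Submodule.sum_mem _ fun μ _ => mem_hm_nat.2 (isHomogeneous_monomial _ (mem_An.1 μ.2))
    · funext b μ
      show coeff (μ : Fin n →₀ ℕ) (∑ ν : Mon n t, monomial (ν : Fin n →₀ ℕ) (c b ν)) = c b μ
      rw [coeff_sum, Finset.sum_eq_single μ]
      · rw [coeff_monomial, if_pos rfl]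
      · intro ν _ hν
        rw [coeff_monomial, if_neg fun h => hν (Subtype.ext h)]
      · exact fun h => absurd (Finset.mem_univ _) h

theorem g3_fin (k : Type) [Field k] (n β : ℕ) (j : ℤ) : FiniteDimensional k (HM k n β j) := by
  by_cases hj : 0 ≤ j
  · lift j to ℕ using hj
    exact (LinearEquiv.ofBijective _ (g3_bij k n β j)).symm.finiteDimensional
  · rw [HM_neg (by omega)]
    infer_instance

theorem g3_rank (k : Type) [Field k] (n β t : ℕ) : Module.finrank k (HM k n β (t : ℤ)) = β * Fintype.card (Mon n t) := by
  rw [(LinearEquiv.ofBijective _ (g3_bij k n β t)).finrank_eq, Module.finrank_pi_fintype]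
  simp

end H92B
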