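import Pool.Agent.Lib.H92B.Basic

/-!
# H92B, chunk H2A

Exactness in each degree. Suppose x ∈ HM (β 1') t, f x = 0 and range f' = ker f: x = f' y; let y' be the vector of the components of degree t - e' of y (y' = 0 if t - e' < 0). For a map f' with f' (Pi.single b 1) ∈ HM e' (0 ≤ e' as an integer), f' y = sum over b of y b • f' (Pi.single b 1), and the homogeneous component of degree t of f' y is
the sum over b of (component of degree t - e' of y b) • f' (Pi.single b 1). So f' y' = the component of degree t of x = x. (Write each y b as the sum of its homogeneous components, then the products component_j (y b) * (f' (Pi.single b 1)) a are homogeneous of degree j + e'.) The t, e' are natural numbers here.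
-/

open MvPolynomial

namespace H92B

theorem h2a_comp {k : Type} [Field k] {n : ℕ} (p q : P k n) (e t : ℕ) (hq : q.IsHomogeneous e) :
    homogeneousComponent t (p * q) = if e ≤ t then homogeneousComponent (t - e) p * q else 0 := by
  conv_lhs => rw [← sum_homogeneousComponent p]
  rw [Finset.sum_mul, map_sum]
  have h1 : ∀ i ∈ Finset.range (p.totalDegree + 1), homogeneousComponent t (homogeneousComponent i p * q) =
      if t = i + e then homogeneousComponent i p * q else 0 := fun i _ =>
    homogeneousComponent_of_mem ((mem_homogeneousSubmodule _ _).2 ((homogeneousComponent_isHomogeneous i p).mul hq))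
  rw [Finset.sum_congr rfl h1]
  split_ifs with h
  · rw [Finset.sum_eq_single (t - e)]
    · rw [if_pos (by omega)]
    · intro i _ hi
      rw [if_neg (by omega)]
    · intro hi
      rw [Finset.mem_range, not_lt] at hi
      rw [if_pos (by omega), homogeneousComponent_eq_zero _ _ (by omega), zero_mul]
  · exact Finset.sum_eq_zero fun i _ => if_neg (by omega)

theorem h2a_pi {k : Type} [Field k] {n a b : ℕ} (f : (Fin b → P k n) →ₗ[P k n] (Fin a → P k n)) (x : Fin b → P k n) (j : Fin a) :
    f x j = ∑ i, x i * f (Pi.single i 1) j := by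
  conv_lhs => rw [← Finset.univ_sum_single x]
  rw [map_sum, Finset.sum_apply]
  refine Finset.sum_congr rfl fun i _ => ?_
  have h1 : (Pi.single i (x i) : Fin b → P k n) = x i • Pi.single i 1 := by
    rw [← Pi.single_smul, smul_eq_mul, mul_one]
  rw [h1, map_smul]
  rfl

theorem h2a {k : Type} [Field k] {n a b : ℕ} (f : (Fin b → P k n) →ₗ[P k n] (Fin a → P k n)) (e : ℕ)
    (hf : ∀ (i : Fin b) (j : Fin a), (f (Pi.single i 1) j).IsHomogeneous e) :
    (∀ (t : ℤ), ∀ x ∈ HM k n b t, f x ∈ HM k n a (t + e)) ∧
    (∀ (t : ℤ), ∀ x ∈ HM k n a t, x ∈ LinearMap.range f → ∃ y ∈ HM k n b (t - e), f y = x) := by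
  constructor
  · intro t x hx
    rw [mem_HM] at hx ⊢
    intro j
    rw [h2a_pi]
    exact Submodule.sum_mem _ fun i _ => hm_mul (hx i) (mem_hm_nat.2 (hf i j))
  · rintro t x hx ⟨y, hy⟩
    by_cases ht : 0 ≤ t
    · lift t to ℕ using ht
      have hxj : ∀ j, x j = ∑ i, (if e ≤ t then homogeneousComponent (t - e) (y i) * f (Pi.single i 1) j else 0) := by
        intro j
        rw [← homogeneousComponent_eq_self (mem_hm_nat.1 (mem_HM.1 hx j)), ← hy, h2a_pi, map_sum]
        exact Finset.sum_congr rfl fun i _ => h2a_comp _ _ e t (hf i j)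
      by_cases h : e ≤ t
      · refine ⟨fun i => homogeneousComponent (t - e) (y i), mem_HM.2 fun i => ?_, ?_⟩
        · rw [← Nat.cast_sub h]
          exact mem_hm_nat.2 (homogeneousComponent_isHomogeneous _ _)
        · funext j
          rw [h2a_pi, hxj j]
          exact Finset.sum_congr rfl fun i _ => by rw [if_pos h]
      · refine ⟨0, Submodule.zero_mem _, ?_⟩
        funext j
        rw [map_zero, hxj j]
        exact (Finset.sum_eq_zero fun i _ => if_neg h).symm
    · rw [HM_neg (by omega)] at hx
      exact ⟨0, Submodule.zero_mem _, by rw [map_zero]; exact ((Submodule.mem_bot k).1 hx).symm⟩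

end H92B
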