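import Pool.Agent.Lib.H92B.Basic
import Pool.Agent.Lib.H92B.K0

/-!
# H92B, chunk K3A

The Koszul homology of the polynomial ring (one copy). For a multi-index μ and a set T let A(T, μ) = {a | a ∈ T or 1 ≤ μ a} (a Finset), and choose a function
ch from the finite sets of Fin n to Fin n with ch A ∈ A for A nonempty (for instance min'; the default element is ⟨0, hn⟩). Let a0 = ch (A(T, μ)). Define
ψ T by its coefficients: coeff μ (ψ T) = if a0 ∈ T then sg a0 (T.erase a0) * coeff (μ + single a0 1) (φ (T.erase a0)) else 0. This function of μ has finite support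
(it is contained in the union over a ∈ T of the μ with μ + single a 1 in the support of φ (T.erase a)), so Finsupp.ofSupportFinite gives a polynomial.
If the coefficient is not zero then φ (T.erase a0) ≠ 0, so the cardinality of T is q + 1, and (homogeneity of degree j of φ, j.toNat in ℕ) the degree of μ + single a0 1 is j, so the
degree of μ is j - 1 (in particular 1 ≤ j, and ψ T ∈ hm (j - 1); if j < 0 or j = 0 all φ T are 0 or constants and the same argument shows ψ T = 0).
The equation kd ψ T = φ T: if T.card ≠ q both sides are 0 (kd_card). If T.card = q compare the coefficients at ν. If A(T, ν) is empty then T = ∅ and ν = 0, so q = 0, so j ≠ 0 and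
the coefficient of φ T at 0 is 0; the left side is 0 since every term has the factor X a. Otherwise a0 = ch (A(T, ν)) ∈ A(T, ν). The coefficient of kd ψ T at ν is the sum over a ∉ T with
1 ≤ ν a of sg a T * coeff (ν - single a 1) (ψ (insert a T)) (coeff_X_mul' or coeff_X_mul), and A(insert a T, ν - single a 1) = A(T, ν), so the chosen element is the same a0.
Case a0 ∉ T: then 1 ≤ ν a0 and only a = a0 contributes, and the contribution is sg a0 T * sg a0 T * coeff ν (φ T) (k0_sq; (insert a0 T).erase a0 = T). Case a0 ∈ T: with T' = T.erase a0 the sum is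
the sum over a ∉ T, 1 ≤ ν a, of sg a T * sg a0 (insert a T') * coeff (ν - single a 1 + single a0 1) (φ (insert a T')) = - sg a0 T' * (sum of sg a T' * coeff (..) (φ (insert a T'))) by k0_swap, and
the coefficient of kd φ T' = 0 at ν + single a0 1 says: sg a0 T' * coeff ν (φ T) + (sum over a ∉ T, 1 ≤ ν a, of sg a T' * coeff (ν + single a0 1 - single a 1) (φ (insert a T'))) = 0. Multiply by sg a0 T' (k0_sq).
Note that the summand for a ≠ a0 with ν a = 0 is absent in both sums.
-/

open MvPolynomial

namespace H92B

/-- A choice of an element. -/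
noncomputable def k3a_ch {n : ℕ} (hn : 0 < n) (A : Finset (Fin n)) : Fin n := if h : A.Nonempty then A.min' h else ⟨0, hn⟩

theorem k3a_ch_mem {n : ℕ} (hn : 0 < n) (A : Finset (Fin n)) (h : A.Nonempty) : k3a_ch hn A ∈ A := by
  unfold k3a_ch
  rw [dif_pos h]
  exact Finset.min'_mem _ _

/-- The allowed indices. -/
def k3a_A {n : ℕ} (T : Finset (Fin n)) (μ : Fin n →₀ ℕ) : Finset (Fin n) := Finset.univ.filter (fun a => a ∈ T ∨ 1 ≤ μ a)

theorem k3a_A_insert {n : ℕ} (T : Finset (Fin n)) (μ : Fin n →₀ ℕ) (a : Fin n) (ha : 1 ≤ μ a) :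
    k3a_A (insert a T) (μ - Finsupp.single a 1) = k3a_A T μ := by
  ext b
  unfold k3a_A
  simp only [Finset.mem_filter, Finset.mem_univ, true_and, Finset.mem_insert]
  by_cases hb : b = a
  · subst hb
    simp [ha]
  · simp [hb, Ne.symm hb, Finsupp.single_apply]

theorem k3a_hm {k : Type} [Field k] {n : ℕ} {j : ℤ} {p : P k n} :
    p ∈ hm k n j ↔ ∀ μ : Fin n →₀ ℕ, coeff μ p ≠ 0 → ((μ.degree : ℕ) : ℤ) = j := by
  constructor
  · intro h μ hμ
    by_cases hj : 0 ≤ j
    · lift j to ℕ using hj
      rw [mem_hm_nat] at h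
      have h1 := h hμ
      rw [← h1, Finsupp.degree_eq_weight_one]
      rfl
    · rw [hm_neg (by omega), Submodule.mem_bot] at h
      rw [h, coeff_zero] at hμ
      exact absurd rfl hμ
  · intro h
    by_cases hj : 0 ≤ j
    · lift j to ℕ using hj
      rw [mem_hm_nat]
      intro μ hμ
      have h1 := h μ hμ
      rw [Finsupp.degree_eq_weight_one] at h1
      exact_mod_cast h1
    · have h1 : p = 0 := by
        ext μ
        rw [coeff_zero]
        by_contra h2
        have := h μ h2
        omega
      rw [h1]
      exact Submodule.zero_mem _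

theorem k3a_kd {k : Type} [Field k] {n : ℕ} (φ : Finset (Fin n) → P k n) (T : Finset (Fin n)) (μ : Fin n →₀ ℕ) :
    coeff μ (kd k φ T) =
      ∑ a ∈ Tᶜ, (sg a T : k) * (if 1 ≤ μ a then coeff (μ - Finsupp.single a 1) (φ (insert a T)) else 0) := by
  unfold kd
  rw [coeff_sum]
  refine Finset.sum_congr rfl fun a _ => ?_
  rw [← Int.cast_smul_eq_zsmul k, coeff_smul, smul_eq_mul, smul_eq_mul, coeff_X_mul']
  congr 1
  by_cases h : 1 ≤ μ a
  · rw [if_pos h, if_pos (Finsupp.mem_support_iff.2 (by omega))]
  · rw [if_neg h, if_neg fun h1 => (Finsupp.mem_support_iff.1 h1) (by omega)]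

theorem k3a {k : Type} [Field k] {n : ℕ} (hn : 0 < n) (q : ℕ) (j : ℤ) (hqj : ¬ (q = 0 ∧ j = 0)) :
    HV n (hm k n) q j := by
  intro φ h1 h2 h3
  let c : Finset (Fin n) → (Fin n →₀ ℕ) → Fin n := fun T μ => k3a_ch hn (k3a_A T μ)
  let v : Finset (Fin n) → (Fin n →₀ ℕ) → k := fun T μ =>
    if c T μ ∈ T then (sg (c T μ) (T.erase (c T μ)) : k) * coeff (μ + Finsupp.single (c T μ) 1) (φ (T.erase (c T μ))) else 0
  let S : Finset (Fin n) → Finset (Fin n →₀ ℕ) := fun T =>
    T.biUnion (fun a => (φ (T.erase a)).support.image (fun ν => ν - Finsupp.single a 1))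
  have hvS : ∀ T μ, v T μ ≠ 0 → c T μ ∈ T ∧ coeff (μ + Finsupp.single (c T μ) 1) (φ (T.erase (c T μ))) ≠ 0 := by
    intro T μ h4
    by_cases h5 : c T μ ∈ T
    · refine ⟨h5, fun h6 => h4 ?_⟩
      show (if c T μ ∈ T then _ else _) = _
      rw [if_pos h5, h6, mul_zero]
    · exact absurd (if_neg h5) h4
  obtain ⟨ψ, hψ⟩ : ∃ ψ : Finset (Fin n) → P k n, ∀ T μ, coeff μ (ψ T) = v T μ := by
    refine ⟨fun T => ∑ μ ∈ S T, monomial μ (v T μ), fun T μ => ?_⟩
    rw [coeff_sum]
    simp only [coeff_monomial, Finset.sum_ite_eq']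
    by_cases h4 : μ ∈ S T
    · rw [if_pos h4]
    · rw [if_neg h4]
      by_contra h5
      obtain ⟨h6, h7⟩ := hvS T μ (Ne.symm h5)
      apply h4
      refine Finset.mem_biUnion.2 ⟨c T μ, h6, Finset.mem_image.2 ⟨_, mem_support_iff.2 h7, ?_⟩⟩
      rw [add_tsub_cancel_right]
  have hψ0 : ∀ T, T.card ≠ q + 1 → ψ T = 0 := by
    intro T hT
    ext μ
    rw [hψ, coeff_zero]
    by_contra h4
    obtain ⟨h5, h6⟩ := hvS T μ h4
    apply h6
    rw [h2 (T.erase (c T μ)), coeff_zero]
    rw [Finset.card_erase_of_mem h5]
    have := Finset.card_pos.2 ⟨_, h5⟩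
    omega
  refine ⟨ψ, fun T => ?_, hψ0, fun T => ?_⟩
  · rw [k3a_hm]
    intro μ hμ
    rw [hψ] at hμ
    obtain ⟨h5, h6⟩ := hvS T μ hμ
    have h7 := (k3a_hm.1 (h1 (T.erase (c T μ)))) _ h6
    rw [map_add, Finsupp.degree_single] at h7
    push_cast at h7
    omega
  · by_cases hT : T.card = q
    · ext μ
      rw [k3a_kd]
      by_cases hne : (k3a_A T μ).Nonempty
      · have hc := k3a_ch_mem hn _ hne
        have hcc : ∀ a ∈ Tᶜ, 1 ≤ μ a → c (insert a T) (μ - Finsupp.single a 1) = c T μ := by
          intro a ha ha2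
          show k3a_ch hn _ = k3a_ch hn _
          rw [k3a_A_insert T μ a ha2]
        have hv : ∀ a ∈ Tᶜ, 1 ≤ μ a → v (insert a T) (μ - Finsupp.single a 1) =
            if c T μ ∈ insert a T then
              (sg (c T μ) ((insert a T).erase (c T μ)) : k) *
                coeff (μ - Finsupp.single a 1 + Finsupp.single (c T μ) 1) (φ ((insert a T).erase (c T μ))) else 0 := by
          intro a ha ha2
          show (if c (insert a T) (μ - Finsupp.single a 1) ∈ insert a T then _ else _) = _
          rw [hcc a ha ha2]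
        generalize hb : c T μ = b at hv hc
        change k3a_ch hn (k3a_A T μ) = b at hb
        rw [hb] at hc
        unfold k3a_A at hc
        rw [Finset.mem_filter] at hc
        by_cases hbT : b ∈ T
        · have h4 := k3a_kd φ (T.erase b) (μ + Finsupp.single b 1)
          have h5 : (T.erase b)ᶜ = insert b Tᶜ := by
            ext a
            simp only [Finset.mem_compl, Finset.mem_erase, Finset.mem_insert]
            tauto
          rw [h3, coeff_zero, h5, Finset.sum_insert (by simpa using hbT), Finset.insert_erase hbT,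
            add_tsub_cancel_right, if_pos (by simp)] at h4
          have h6 : ∑ a ∈ Tᶜ, (sg a T : k) * (if 1 ≤ μ a then coeff (μ - Finsupp.single a 1) (ψ (insert a T)) else 0) =
              - (sg b (T.erase b) : k) * ∑ a ∈ Tᶜ, (sg a (T.erase b) : k) *
                (if 1 ≤ (μ + Finsupp.single b 1 : Fin n →₀ ℕ) a then
                  coeff (μ + Finsupp.single b 1 - Finsupp.single a 1) (φ (insert a (T.erase b))) else 0) := by
            rw [Finset.mul_sum]
            refine Finset.sum_congr rfl fun a ha => ?_
            have ha' : a ∉ T := Finset.mem_compl.1 ha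
            have hab : a ≠ b := fun h => ha' (h ▸ hbT)
            have hab2 : (μ + Finsupp.single b 1 : Fin n →₀ ℕ) a = μ a := by
              rw [Finsupp.add_apply, Finsupp.single_apply, if_neg (Ne.symm hab), add_zero]
            rw [hab2]
            by_cases ha2 : 1 ≤ μ a
            · rw [if_pos ha2, if_pos ha2, hψ, hv a ha ha2, if_pos (Finset.mem_insert_of_mem hbT),
                Finset.erase_insert_of_ne hab, tsub_add_eq_add_tsub (Finsupp.single_le_iff.2 ha2)]
              have h7 := k0_swap a b T ha' hbT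
              have h8 : (sg a T : k) * (sg b (insert a (T.erase b)) : k) = - ((sg a (T.erase b) : k) * (sg b (T.erase b) : k)) := by
                exact_mod_cast congrArg (fun z : ℤ => (z : k)) h7
              rw [← mul_assoc, h8]
              ring
            · rw [if_neg ha2, if_neg ha2]
              ring
          rw [h6]
          have h9 : (sg b (T.erase b) : k) * (sg b (T.erase b) : k) = 1 := by
            exact_mod_cast congrArg (fun z : ℤ => (z : k)) (k0_sq b (T.erase b))
          linear_combination (sg b (T.erase b) : k) * h4 + coeff μ (φ T) * h9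
        · have hμb : 1 ≤ μ b := hc.2.resolve_left hbT
          rw [Finset.sum_eq_single_of_mem b (Finset.mem_compl.2 hbT)]
          · rw [if_pos hμb, hψ, hv b (Finset.mem_compl.2 hbT) hμb, if_pos (Finset.mem_insert_self _ _), Finset.erase_insert hbT,
              tsub_add_cancel_of_le (Finsupp.single_le_iff.2 hμb), ← mul_assoc]
            have h9 : (sg b T : k) * (sg b T : k) = 1 := by
              exact_mod_cast congrArg (fun z : ℤ => (z : k)) (k0_sq b T)
            rw [h9, one_mul]
          · intro a ha hab
            by_cases ha2 : 1 ≤ μ a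
            · rw [if_pos ha2, hψ, hv a ha ha2, if_neg, mul_zero]
              intro h4
              rcases Finset.mem_insert.1 h4 with h4 | h4
              · exact hab h4.symm
              · exact hbT h4
            · rw [if_neg ha2, mul_zero]
      · have h4 : ∀ a, a ∉ T ∧ μ a = 0 := by
          intro a
          have h5 : a ∉ k3a_A T μ := fun h => hne ⟨a, h⟩
          unfold k3a_A at h5
          rw [Finset.mem_filter] at h5
          refine ⟨fun h => h5 ⟨Finset.mem_univ _, Or.inl h⟩, ?_⟩
          by_contra h6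
          exact h5 ⟨Finset.mem_univ _, Or.inr (by omega)⟩
        have hT0 : T = ∅ := Finset.eq_empty_of_forall_notMem fun a => (h4 a).1
        have hμ0 : μ = 0 := Finsupp.ext fun a => (h4 a).2
        have hq : q = 0 := by rw [← hT, hT0, Finset.card_empty]
        rw [Finset.sum_eq_zero fun a _ => by rw [if_neg (by rw [(h4 a).2]; omega), mul_zero]]
        by_contra h5
        have h6 := (k3a_hm.1 (h1 T)) μ (Ne.symm h5)
        rw [hμ0, map_zero, Nat.cast_zero] at h6
        exact hqj ⟨hq, h6.symm⟩
    · rw [h2 T hT]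
      exact kd_card _ q hψ0 T hT

end H92B
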