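import Pool.Agent.Lib.H92B.Basic

/-!
# H92B, chunk KV

The Koszul homology of a power. Let φ with values in the power. For each index i the function T ↦ φ T i satisfies the three hypotheses (kd_map with the projection LinearMap.proj i), so there is ψ i;
put ψ T i = (ψ i) T. Then kd ψ T i = kd (T ↦ ψ T i) T = φ T i, again by kd_map.
-/

open MvPolynomial

namespace H92B

theorem kv {k : Type} [Field k] {n : ℕ} {M : Type} [AddCommGroup M] [Module (P k n) M] [Module k M] (c : ℕ)
    (g : ℤ → Submodule k M) (q : ℕ) (j : ℤ) (h : HV n g q j) :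
    HV n (M := Fin c → M) (fun j => Submodule.pi Set.univ (fun _ => g j)) q j := by
  intro φ h1 h2 h3
  have h4 : ∀ i : Fin c, ∃ ψ : Finset (Fin n) → M, (∀ T, ψ T ∈ g (j - 1)) ∧ (∀ T, T.card ≠ q + 1 → ψ T = 0) ∧
      ∀ T, kd k ψ T = φ T i := by
    intro i
    refine h (fun T => φ T i) (fun T => (Submodule.mem_pi.1 (h1 T)) i (Set.mem_univ i)) (fun T hT => by rw [h2 T hT]; rfl)
      fun T => ?_
    have := kd_map (LinearMap.proj i : (Fin c → M) →ₗ[P k n] M) φ T
    rw [h3 T, map_zero] at this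
    exact this
  choose ψ hψ1 hψ2 hψ3 using h4
  refine ⟨fun T i => ψ i T, fun T => Submodule.mem_pi.2 fun i _ => hψ1 i T, fun T hT => funext fun i => hψ2 i T hT, fun T => ?_⟩
  funext i
  rw [← hψ3 i T]
  exact (kd_map (LinearMap.proj i : (Fin c → M) →ₗ[P k n] M) (fun T i => ψ i T) T).symm

end H92B
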