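import Pool.Agent.Lib.H92B.Basic
import Pool.Agent.Lib.H92B.K3A
import Pool.Agent.Lib.H92B.KV

/-!
# H92B, chunk K3

kv applied to k3a: HM k n β j is by definition Submodule.pi Set.univ (fun _ => hm k n j).
-/

open MvPolynomial

namespace H92B

theorem k3 {k : Type} [Field k] {n : ℕ} (hn : 0 < n) (β : ℕ) (q : ℕ) (j : ℤ) (hqj : ¬ (q = 0 ∧ j = 0)) :
    HV n (HM k n β) q j := by
  exact kv β (hm k n) q j (k3a hn q j hqj)

end H92B
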