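import Pool.Agent.Lib.H92B.Basic

/-!
# H92B, chunk R3

The kernel of a graded map is homogeneous. Let π z = 0. Let z_j = (i ↦ homogeneousComponent j (z i)) ∈ HM j. For N large (larger than all the total degrees, e.g. N = the supremum of the totalDegree (z i) plus 1) z = sum over j < N of z_j (sum_homogeneousComponent), so the sum over j < N of π (z_j) is 0, with
π (z_j) ∈ g (j + e), and the submodules g (j + e), j ∈ ℕ, are independent (hind composed with the injective map j ↦ j + e: iSupIndep.comp). So each π (z_j) = 0 (iSupIndep.. for instance via iSupIndep_iff_forall_dfinsupp or: π z_j = - the sum of the others, which lies in the supremum of the others, Submodule.disjoint_def).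
For j ≥ N z_j = 0.
-/

open MvPolynomial

namespace H92B

theorem r3 {k : Type} [Field k] {n : ℕ} {M : Type} [AddCommGroup M] [Module (P k n) M] [Module k M]
    (g : ℤ → Submodule k M) (hind : iSupIndep g) (β : ℕ) (e : ℤ) (π : (Fin β → P k n) →ₗ[P k n] M)
    (hπ : ∀ (j : ℤ), ∀ x ∈ HM k n β j, π x ∈ g (e + j)) : IsHom (LinearMap.ker π) := by
  intro z hz j
  let zc : ℕ → Fin β → P k n := fun j i => homogeneousComponent j (z i)
  have hzc : ∀ j : ℕ, π (zc j) ∈ g (e + j) := fun j => hπ j _ (mem_HM.2 fun i => mem_hm_nat.2 (homogeneousComponent_isHomogeneous _ _))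
  let N : ℕ := (Finset.univ.sup fun i => (z i).totalDegree) + 1
  have hN : ∀ i, (z i).totalDegree < N := fun i =>
    Nat.lt_succ_of_le (Finset.le_sup (f := fun i => (z i).totalDegree) (Finset.mem_univ i))
  have hsum : ∑ j ∈ Finset.range N, zc j = z := by
    funext i
    rw [Finset.sum_apply]
    have h1 := sum_homogeneousComponent (z i)
    rw [← h1]
    conv_rhs => rw [h1]
    rw [← Finset.sum_subset (Finset.range_subset_range.2 (hN i))]
    · exact h1
    · intro j _ hj
      rw [Finset.mem_range, not_lt] at hj
      exact homogeneousComponent_eq_zero _ _ (by omega)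
  show π (zc j) = 0
  by_cases hj : j < N
  · have h2 : π (zc j) = - ∑ l ∈ (Finset.range N).erase j, π (zc l) := by
      have h3 : ∑ l ∈ Finset.range N, π (zc l) = 0 := by
        rw [← map_sum, hsum]
        exact hz
      rw [← Finset.add_sum_erase _ _ (Finset.mem_range.2 hj)] at h3
      exact eq_neg_of_add_eq_zero_left h3
    have h4 : π (zc j) ∈ ⨆ (l : ℤ) (_ : l ≠ e + j), g l := by
      rw [h2]
      refine Submodule.neg_mem _ (Submodule.sum_mem _ fun l hl => ?_)
      have h5 : e + (l : ℤ) ≠ e + j := by
        intro h6
        exact (Finset.ne_of_mem_erase hl) (by omega)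
      exact Submodule.mem_iSup_of_mem (e + l) (Submodule.mem_iSup_of_mem h5 (hzc l))
    exact (Submodule.disjoint_def.1 (hind (e + j))) _ (hzc j) h4
  · have h2 : zc j = 0 := by
      funext i
      exact homogeneousComponent_eq_zero _ _ (by have := hN i; omega)
    rw [h2, map_zero]

end H92B
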