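import Pool.Agent.Lib.H92B.Basic

/-!
# H92B, chunk TI

Transfer along an injective map. φ has values in gr' j; choose (by hs) φ' T ∈ g (j - e) with α (φ' T) = φ T, and φ' T = 0 where φ T = 0 (if T.card ≠ q). kd φ' T ∈ g (j - e + 1) (kd_mem with hg) and α (kd φ' T) = kd φ T = 0, so kd φ' T = 0 by hi.
By h there is ψ' with values in g (j - e - 1), support q + 1, kd ψ' = φ'. Put ψ T = α (ψ' T); it lies in g' (j - 1) by hα (j - e - 1 + e = j - 1), and kd ψ T = α (kd ψ' T) = φ T (kd_map).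
-/

open MvPolynomial

namespace H92B

theorem ti {k : Type} [Field k] {n : ℕ} {M : Type} [AddCommGroup M] [Module (P k n) M] [Module k M]
    {M' : Type} [AddCommGroup M'] [Module (P k n) M'] [Module k M']
    (g : ℤ → Submodule k M) (g' : ℤ → Submodule k M') (α : M →ₗ[P k n] M') (e : ℤ)
    (hg : ∀ (a : Fin n) (j : ℤ) (x : M), x ∈ g j → (X a : P k n) • x ∈ g (j + 1))
    (hα : ∀ j, ∀ x ∈ g j, α x ∈ g' (j + e))
    (hs : ∀ j, ∀ y ∈ g' j, ∃ x ∈ g (j - e), α x = y)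
    (q : ℕ) (j : ℤ) (h : HV n g q (j - e)) (hi : ∀ x ∈ g (j - e + 1), α x = 0 → x = 0) :
    HV n g' q j := by
  intro φ hφ1 hφ2 hφ3
  have h4 : ∀ T : Finset (Fin n), ∃ x : M, x ∈ g (j - e) ∧ (T.card ≠ q → x = 0) ∧ α x = φ T := by
    intro T
    by_cases hT : T.card = q
    · obtain ⟨x, hx1, hx2⟩ := hs j (φ T) (hφ1 T)
      exact ⟨x, hx1, fun h => absurd hT h, hx2⟩
    · exact ⟨0, Submodule.zero_mem _, fun _ => rfl, by rw [map_zero, hφ2 T hT]⟩
  choose φ' h5 using h4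
  have h6 : φ = fun T => α (φ' T) := funext fun T => (h5 T).2.2.symm
  obtain ⟨ψ, hψ1, hψ2, hψ3⟩ := h φ' (fun T => (h5 T).1) (fun T => (h5 T).2.1) (fun T => by
    refine hi _ (kd_mem g hg φ' (j - e) (fun T => (h5 T).1) T) ?_
    rw [← kd_map α φ' T, ← h6]
    exact hφ3 T)
  refine ⟨fun T => α (ψ T), fun T => ?_, fun T hT => by show α (ψ T) = 0; rw [hψ2 T hT, map_zero], fun T => ?_⟩
  · have := hα _ _ (hψ1 T)
    rwa [show j - e - 1 + e = j - 1 by ring] at this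
  · rw [kd_map, hψ3 T]
    exact (h5 T).2.2

end H92B
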