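import Pool.Agent.Lib.H92B.Basic
import Pool.Agent.Lib.H92B.K3
import Pool.Agent.Lib.H92B.TI
import Pool.Agent.Lib.H92B.E1
import Pool.Agent.Lib.H92B.E2
import Pool.Agent.Lib.H92B.G3
import Pool.Agent.Lib.H92B.G1
import Pool.Agent.Lib.H92B.R3
import Pool.Agent.Lib.H92B.H2A

/-!
# H92B, chunk F1B

The type condition for the first family, n = N + 2. Let α = A.mulVecLin, Z = range α. (0) α maps HM a j to HM b (j + p) (hm_mul, sums). (1) α is injective on HM a j for all j ≤ m (e1_down with hsoc from HM_socle). (2) α : HM a m → HM b (m + p) is surjective (e2 with g3_rank: a * |Mon m| = b * |Mon (m + p)|), and so α : HM a j → HM b (j + p) is surjective for j ≥ m (e1_up, k3 for q = 0 and degree ≠ 0).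
(3) gr Z j = α (HM a (j - p)): if α x ∈ HM b j replace x by its component of degree j - p (h: the homogeneous components; write x = sum of its components x_l and α x_l ∈ HM b (l + p), compare the components of degree j; for j < p get α x = 0). (4) IsHom Z: the same: the component of degree j of α x is α of the component of degree j - p of x (or 0 if j < p). (5) HM b t ≤ Z for t ≥ m + p: (2).
(6) TC: let q, j with not (1 + q ≤ N + 2 and j + q = d (1 + q) - d 0). If q > N + 2 use HV_gt. If q = N + 2: HV_top and HM_socle. Let q ≤ N + 1, so 1 + q ≤ N + 2 and j + q ≠ d (1 + q) - d 0. If q = 0: j ≠ p; by (3) and k3 (0, j - p ≠ 0): HV_of_gen: y = α x, x ∈ HM a (j - p), x = Σ X a • z a (gen_of_HV), y = Σ X a • α (z a). If 1 ≤ q: d (1 + q) - d 0 = m + p + q, so j ≠ m + p. If j < m + p: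
ti with g = HM a, g' = gr Z, e = p: HV (HM a) q (j - p) by k3 (q ≠ 0), injectivity in degree j - p + 1 ≤ m by (1), hs by (3). If j > m + p: let φ be given; k3 for HM b gives ψ with values in HM b (j - 1) = gr Z (j - 1), as j - 1 ≥ m + p, by (5).
-/

open MvPolynomial

namespace H92B

theorem f1b {k : Type} [Field k] (N p m a b : ℕ) (A : Matrix (Fin b) (Fin a) (P k (N + 2))) (hA : ∀ i j, A i j ∈ hm k (N + 2) p)
    (hinj : ∀ x ∈ HM k (N + 2) a m, A.mulVec x = 0 → x = 0)
    (hab : a * Fintype.card (Mon (N + 2) m) = b * Fintype.card (Mon (N + 2) (m + p)))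
    (d : ℕ → ℤ) (h1 : d 1 = d 0 + p) (h2 : ∀ q, 2 ≤ q → q ≤ N + 2 → d q = d 0 + (m + p + q) - 1) :
    IsHom (LinearMap.range A.mulVecLin) ∧ TC (N + 2) (gr (LinearMap.range A.mulVecLin)) d (N + 2) 1 (d 0) ∧
      ∀ t : ℤ, m + p ≤ t → ∀ x ∈ HM k (N + 2) b t, x ∈ LinearMap.range A.mulVecLin := by
  have hn : 0 < N + 2 := by omega
  set α := A.mulVecLin with hαdef
  have hαs : ∀ (i : Fin a) (j : Fin b), α (Pi.single i 1) j = A j i := by
    intro i j
    rw [hαdef, Matrix.mulVecLin_apply, Matrix.mulVec_single_one]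
    rfl
  have hhom : ∀ (i : Fin a) (j : Fin b), (α (Pi.single i 1) j).IsHomogeneous p := by
    intro i j
    rw [hαs]
    exact mem_hm_nat.1 (hA j i)
  obtain ⟨hα, hαr⟩ := h2a α p hhom
  have hinj' : ∀ j ≤ (m : ℤ), ∀ x ∈ HM k (N + 2) a j, α x = 0 → x = 0 :=
    e1_down (HM k (N + 2) a) α m (fun a j x hx => HM_X a hx) (fun j _ y _ hy => HM_socle hn hy) hinj
  have hfd1 := g3_fin k (N + 2) a m
  have hfd2 := g3_fin k (N + 2) b ((m : ℤ) + p)
  have hsurj0 := e2 (HM k (N + 2) a m) (HM k (N + 2) b ((m : ℤ) + p)) α (hα m) (by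
    have h1 := g3_rank k (N + 2) b (m + p)
    push_cast at h1
    rw [g3_rank, h1, hab]) (fun x hx hx0 => hinj x hx hx0)
  have hsurj : ∀ j, (m : ℤ) ≤ j → ∀ y ∈ HM k (N + 2) b (j + p), ∃ x ∈ HM k (N + 2) a j, α x = y :=
    e1_up (HM k (N + 2) a) (HM k (N + 2) b) α p m (fun a j x hx => HM_X a hx)
      (fun j hj => k3 hn b 0 (j + p) (by omega)) hsurj0
  have hfl : ∀ t : ℤ, m + p ≤ t → ∀ x ∈ HM k (N + 2) b t, x ∈ LinearMap.range α := by
    intro t ht x hx
    obtain ⟨y, _, hy⟩ := hsurj (t - p) (by omega) x (by rwa [sub_add_cancel])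
    exact ⟨y, hy⟩
  refine ⟨?_, ?_, hfl⟩
  · rintro _ ⟨x, rfl⟩ t
    have h3 : (fun i => homogeneousComponent t (α x i)) =
        if p ≤ t then α (fun i => homogeneousComponent (t - p) (x i)) else 0 := by
      funext i
      rw [h2a_pi, map_sum, Finset.sum_congr rfl fun r _ => h2a_comp _ _ p t (hhom r i)]
      split_ifs with h4
      · rw [h2a_pi]
      · rw [Finset.sum_const_zero]
        rfl
    rw [h3]
    split_ifs
    · exact ⟨_, rfl⟩
    · exact Submodule.zero_mem _
  · have hα' : ∀ j, ∀ x ∈ HM k (N + 2) a j, α x ∈ gr (LinearMap.range α) (j + p) :=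
      fun j x hx => mem_gr.2 ⟨⟨x, rfl⟩, hα j x hx⟩
    have hs : ∀ j, ∀ y ∈ gr (LinearMap.range α) j, ∃ x ∈ HM k (N + 2) a (j - p), α x = y :=
      fun j y hy => hαr j y (mem_gr.1 hy).2 (mem_gr.1 hy).1
    intro q j hqj
    by_cases hq : N + 2 < q
    · exact HV_gt _ q j hq
    by_cases hq2 : q = N + 2
    · subst hq2
      exact HV_top _ j fun y _ hy => HM_socle hn hy
    have hjq : j + q ≠ d (1 + q) - d 0 := fun h => hqj ⟨by omega, h⟩
    by_cases hq0 : q = 0
    · subst hq0
      have hjp : j ≠ p := by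
        intro h
        apply hjq
        rw [add_zero, h1, h]
        push_cast
        ring
      refine HV_of_gen _ j fun y hy => ?_
      obtain ⟨x, hx, rfl⟩ := hs j y hy
      obtain ⟨z, hz1, hz2⟩ := gen_of_HV (HM k (N + 2) a) (j - p) (k3 hn a 0 (j - p) (by omega)) x hx
      refine ⟨fun i => α (z i), fun i => ?_, ?_⟩
      · have h3 := hα' _ _ (hz1 i)
        rwa [show j - (p : ℤ) - 1 + p = j - 1 by ring] at h3
      · rw [hz2, map_sum]
        exact Finset.sum_congr rfl fun i _ => by rw [map_smul]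
    · rw [h2 (1 + q) (by omega) (by omega)] at hjq
      push_cast at hjq
      rcases lt_trichotomy j ((m : ℤ) + p) with h3 | h3 | h3
      · exact ti (HM k (N + 2) a) (gr (LinearMap.range α)) α p (fun a j x hx => HM_X a hx) hα' hs q j
          (k3 hn a q (j - p) (fun h => hq0 h.1)) (fun x hx hx0 => hinj' _ (by omega) x hx hx0)
      · omega
      · intro φ hφ1 hφ2 hφ3
        obtain ⟨ψ, hψ1, hψ2, hψ3⟩ := k3 hn b q j (fun h => hq0 h.1) φ (fun T => (mem_gr.1 (hφ1 T)).2) hφ2 hφ3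
        exact ⟨ψ, fun T => mem_gr.2 ⟨hfl _ (by omega) _ (hψ1 T), hψ1 T⟩, hψ2, hψ3⟩

end H92B
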