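import Pool.Agent.Lib.H92B.Basic

/-!
# H92B, chunk H1

Counting monomials. Fintype.card (Mon n m) = (n + m - 1).choose m (Finset.card_finsuppAntidiag_nat_eq_choose, Fintype.card_coe). (a) for n = N + 1: choose (N + m) m * N! = (m + 1)(m + 2)...(m + N) (Nat.choose and ascFactorial / by induction on N). (b) (m + 1) * card (m + 1) = (m + n) * card m for 1 ≤ n: from Nat.succ_mul_choose_eq or the product formula.
(c) positivity for 1 ≤ n.
-/

open MvPolynomial

namespace H92B

theorem h1_card (n m : ℕ) : Fintype.card (Mon n m) = (n + m - 1).choose m := by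
  rw [Fintype.card_coe, Finset.card_finsuppAntidiag_nat_eq_choose, Finset.card_univ, Fintype.card_fin]

theorem h1_prod (N m : ℕ) : Fintype.card (Mon (N + 1) m) * N.factorial = ∏ r ∈ Finset.range N, (m + r + 1) := by
  rw [h1_card, show N + 1 + m - 1 = m + N by omega]
  have h : ∀ N : ℕ, m.factorial * ∏ r ∈ Finset.range N, (m + r + 1) = (m + N).factorial := by
    intro N
    induction N with
    | zero => simp
    | succ N ih =>
      rw [Finset.prod_range_succ, ← mul_assoc, ih, ← add_assoc, Nat.factorial_succ, mul_comm]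
  have h2 := Nat.add_choose_mul_factorial_mul_factorial m N
  have h3 := h N
  rw [← h2] at h3
  have h4 : 0 < m.factorial := Nat.factorial_pos m
  have h5 : m.factorial * ∏ r ∈ Finset.range N, (m + r + 1) = m.factorial * ((m + N).choose m * N.factorial) := by
    rw [h3, Nat.choose_symm_add]
    ring
  exact (Nat.eq_of_mul_eq_mul_left h4 h5).symm

theorem h1_rec (n m : ℕ) (hn : 1 ≤ n) : (m + 1) * Fintype.card (Mon n (m + 1)) = (m + n) * Fintype.card (Mon n m) := by
  obtain ⟨N, rfl⟩ := Nat.exists_eq_add_of_le' hn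
  have h1 := h1_prod N m
  have h2 := h1_prod N (m + 1)
  have h3 : (m + 1) * ∏ r ∈ Finset.range N, (m + 1 + r + 1) = (m + (N + 1)) * ∏ r ∈ Finset.range N, (m + r + 1) := by
    induction N with
    | zero => simp
    | succ N ih =>
      rw [Finset.prod_range_succ, Finset.prod_range_succ, ← mul_assoc, ih (by omega) (h1_prod N m) (h1_prod N (m + 1))]
      ring
  rw [← h1, ← h2] at h3
  have h4 : 0 < N.factorial := Nat.factorial_pos N
  refine Nat.eq_of_mul_eq_mul_right h4 ?_
  rw [mul_assoc, h3, mul_assoc]

theorem h1_pos (n m : ℕ) (hn : 1 ≤ n) : 0 < Fintype.card (Mon n m) := by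
  rw [h1_card]
  exact Nat.choose_pos (by omega)

end H92B
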