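import Pool.Agent.Lib.H92B.Basic

/-!
# H92B, chunk L7A

The number of subspaces. Every subspace U of (A → K) is spanned by at most card A vectors, so the map (A → A → K) → Submodule, ζ ↦ span (range ζ), is surjective (take a basis of U, of size finrank U ≤ card A = the finrank of A → K, and extend by zero vectors; Fintype equivalences), so the number of subspaces is at most the cardinality card K ^ (card A * card A) of (A → A → K).
(Nat.card_le_card_of_surjective or Finite.card_le_of_surjective.)
-/

open MvPolynomial

namespace H92B

theorem l7a_surj {A K : Type} [Fintype A] [Field K] (U : Submodule K (A → K)) : ∃ ζ : A → A → K, Submodule.span K (Set.range ζ) = U := by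
  classical
  have h1 : Module.finrank K U ≤ Fintype.card A := by
    have := Submodule.finrank_le U
    rwa [Module.finrank_fintype_fun_eq_card] at this
  let bas := Module.finBasis K U
  obtain ⟨emb⟩ : Nonempty (Fin (Module.finrank K U) ↪ A) :=
    Function.Embedding.nonempty_of_card_le (by rwa [Fintype.card_fin])
  refine ⟨fun a => if h : ∃ i, emb i = a then (bas h.choose : A → K) else 0, le_antisymm (Submodule.span_le.2 ?_) ?_⟩
  · rintro _ ⟨a, rfl⟩
    show (if h : ∃ i, emb i = a then (bas h.choose : A → K) else 0) ∈ U
    split_ifs with h
    · exact (bas h.choose).2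
    · exact U.zero_mem
  · intro u hu
    have h2 := congrArg (Submodule.subtype U) (bas.sum_repr ⟨u, hu⟩)
    rw [map_sum] at h2
    have h3 : u = ∑ i, (Submodule.subtype U) ((bas.repr ⟨u, hu⟩) i • bas i) := h2.symm
    rw [h3]
    refine Submodule.sum_mem _ fun i _ => ?_
    rw [map_smul]
    refine Submodule.smul_mem _ _ (Submodule.subset_span ⟨emb i, ?_⟩)
    have h4 : ∃ j, emb j = emb i := ⟨i, rfl⟩
    show (if h : ∃ j, emb j = emb i then (bas h.choose : A → K) else 0) = _
    rw [dif_pos h4, emb.injective h4.choose_spec]
    rfl

theorem l7a {A K : Type} [Fintype A] [Field K] [Fintype K] :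
    Finite (Submodule K (A → K)) ∧ Nat.card (Submodule K (A → K)) ≤ Fintype.card K ^ (Fintype.card A ^ 2) := by
  classical
  have hs : Function.Surjective (fun ζ : A → A → K => Submodule.span K (Set.range ζ)) := l7a_surj
  refine ⟨Finite.of_surjective _ hs, (Nat.card_le_card_of_surjective _ hs).trans ?_⟩
  rw [Nat.card_eq_fintype_card, Fintype.card_fun, Fintype.card_fun, ← pow_mul, sq]

end H92B
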