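import Pool.Agent.Lib.H92B.Basic

/-!
# H92B, chunk L7B

The number of rows. The map R : (Fin a → V → K) → (B → K), φ ↦ sum over j of bl t K (φ j) (ζ j), is K-linear; its range is TU t K (span (range ζ)): contained: each bl (φ j) (ζ j) is in the spanning set of TU; conversely for u in the span of the ζ j, u = sum of c j • ζ j, bl v u = sum of bl (c j • v) (ζ j) = R (j ↦ c j • v) (bl is bilinear). Rank-nullity: the cardinality of the kernel times the cardinality of the range is
the cardinality of the domain card K ^ (a * card V), and the cardinality of the range is card K ^ finrank (TU) (Module.card_eq_pow_finrank or card_eq_pow_finrank).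
-/

open MvPolynomial

namespace H92B

theorem l7b_add {V A B K : Type} [Fintype V] [Fintype A] (t : V → A → B → ℤ) [Field K] (v v' : V → K) (u : A → K) :
    bl t K (v + v') u = bl t K v u + bl t K v' u := by
  funext b
  unfold bl
  rw [Pi.add_apply, ← Finset.sum_add_distrib]
  refine Finset.sum_congr rfl fun l _ => ?_
  rw [← Finset.sum_add_distrib]
  refine Finset.sum_congr rfl fun a _ => ?_
  rw [Pi.add_apply]
  ring

theorem l7b_smul {V A B K : Type} [Fintype V] [Fintype A] (t : V → A → B → ℤ) [Field K] (c : K) (v : V → K) (u : A → K) :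
    bl t K (c • v) u = c • bl t K v u := by
  funext b
  unfold bl
  rw [Pi.smul_apply, Finset.smul_sum]
  refine Finset.sum_congr rfl fun l _ => ?_
  rw [Finset.smul_sum]
  refine Finset.sum_congr rfl fun a _ => ?_
  rw [Pi.smul_apply, smul_eq_mul, smul_eq_mul]
  ring

theorem l7b_add' {V A B K : Type} [Fintype V] [Fintype A] (t : V → A → B → ℤ) [Field K] (v : V → K) (u u' : A → K) :
    bl t K v (u + u') = bl t K v u + bl t K v u' := by
  funext b
  unfold bl
  rw [Pi.add_apply, ← Finset.sum_add_distrib]
  refine Finset.sum_congr rfl fun l _ => ?_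
  rw [← Finset.sum_add_distrib]
  refine Finset.sum_congr rfl fun a _ => ?_
  rw [Pi.add_apply]
  ring

theorem l7b_smul' {V A B K : Type} [Fintype V] [Fintype A] (t : V → A → B → ℤ) [Field K] (c : K) (v : V → K) (u : A → K) :
    bl t K v (c • u) = c • bl t K v u := by
  funext b
  unfold bl
  rw [Pi.smul_apply, Finset.smul_sum]
  refine Finset.sum_congr rfl fun l _ => ?_
  rw [Finset.smul_sum]
  refine Finset.sum_congr rfl fun a _ => ?_
  rw [Pi.smul_apply, smul_eq_mul, smul_eq_mul]
  ring

/-- The row map. -/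
def l7b_R {V A B K : Type} [Fintype V] [Fintype A] (t : V → A → B → ℤ) [Field K] {a : ℕ} (ζ : Fin a → A → K) :
    (Fin a → V → K) →ₗ[K] (B → K) where
  toFun φ := ∑ j, bl t K (φ j) (ζ j)
  map_add' x y := by
    rw [← Finset.sum_add_distrib]
    exact Finset.sum_congr rfl fun j _ => l7b_add t _ _ _
  map_smul' c x := by
    rw [RingHom.id_apply, Finset.smul_sum]
    exact Finset.sum_congr rfl fun j _ => l7b_smul t _ _ _

theorem l7b_range {V A B K : Type} [Fintype V] [Fintype A] [Fintype B] (t : V → A → B → ℤ) [Field K] {a : ℕ} (ζ : Fin a → A → K) :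
    LinearMap.range (l7b_R t ζ) = TU t K (Submodule.span K (Set.range ζ)) := by
  classical
  refine le_antisymm ?_ (Submodule.span_le.2 ?_)
  · rintro _ ⟨φ, rfl⟩
    change (∑ j, bl t K (φ j) (ζ j)) ∈ TU t K (Submodule.span K (Set.range ζ))
    refine Submodule.sum_mem _ fun j _ => ?_
    refine Submodule.subset_span ?_
    exact ⟨φ j, ζ j, Submodule.subset_span ⟨j, rfl⟩, rfl⟩
  · rintro _ ⟨v, u, hu, rfl⟩
    obtain ⟨c, rfl⟩ := (Submodule.mem_span_range_iff_exists_fun K).1 hu
    refine ⟨fun j => c j • v, ?_⟩
    show ∑ j, bl t K (c j • v) (ζ j) = bl t K v (∑ j, c j • ζ j)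
    have h1 : ∀ s : Finset (Fin a), bl t K v (∑ j ∈ s, c j • ζ j) = ∑ j ∈ s, c j • bl t K v (ζ j) := by
      intro s
      induction s using Finset.induction_on with
      | empty =>
        rw [Finset.sum_empty, Finset.sum_empty]
        have := l7b_smul' t (0 : K) v (0 : A → K)
        rwa [zero_smul, zero_smul] at this
      | insert i s hi ih => rw [Finset.sum_insert hi, Finset.sum_insert hi, l7b_add', l7b_smul', ih]
    rw [h1]
    exact Finset.sum_congr rfl fun j _ => l7b_smul t _ _ _

theorem l7b {V A B K : Type} [Fintype V] [Fintype A] [Fintype B] (t : V → A → B → ℤ) [Field K] [Fintype K] (a : ℕ) (ζ : Fin a → A → K) :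
    Nat.card {φ : Fin a → V → K // ∑ j, bl t K (φ j) (ζ j) = 0} *
      Fintype.card K ^ Module.finrank K (TU t K (Submodule.span K (Set.range ζ))) = Fintype.card K ^ (a * Fintype.card V) := by
  classical
  rw [← l7b_range]
  have h1 : Nat.card {φ : Fin a → V → K // ∑ j, bl t K (φ j) (ζ j) = 0} = Nat.card (LinearMap.ker (l7b_R t ζ)) := rfl
  have h2 : Nat.card (LinearMap.ker (l7b_R t ζ)) = Fintype.card K ^ Module.finrank K (LinearMap.ker (l7b_R t ζ)) := by
    rw [Module.natCard_eq_pow_finrank (K := K), Nat.card_eq_fintype_card]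
  rw [h1, h2, ← pow_add, add_comm, LinearMap.finrank_range_add_finrank_ker, Module.finrank_pi_fintype]
  congr 1
  simp

end H92B
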