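import Pool.Agent.Lib.H92B.Basic
import Pool.Agent.Lib.H92B.L7B

/-!
# H92B, chunk L7C

The number of matrices. The set of all Φ with Σ_j bl (Φ i j) (ζ j) = 0 for all i is the b-th power of the set of l7b (Equiv.subtypePiEquivPi; Nat.card_pi or Nat.card_fun), so the identity is the b-th power of l7b.
-/

open MvPolynomial

namespace H92B

theorem l7c {V A B K : Type} [Fintype V] [Fintype A] [Fintype B] (t : V → A → B → ℤ) [Field K] [Fintype K] (a b : ℕ) (ζ : Fin a → A → K) :
    Nat.card {Φ : Fin b → Fin a → V → K // ∀ i, ∑ j, bl t K (Φ i j) (ζ j) = 0} *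
      Fintype.card K ^ (b * Module.finrank K (TU t K (Submodule.span K (Set.range ζ)))) = Fintype.card K ^ (a * b * Fintype.card V) := by
  classical
  have h1 : Nat.card {Φ : Fin b → Fin a → V → K // ∀ i, ∑ j, bl t K (Φ i j) (ζ j) = 0} =
      Nat.card {φ : Fin a → V → K // ∑ j, bl t K (φ j) (ζ j) = 0} ^ b := by
    rw [Nat.card_congr (Equiv.subtypePiEquivPi (p := fun (_ : Fin b) (φ : Fin a → V → K) => ∑ j, bl t K (φ j) (ζ j) = 0)), Nat.card_pi]
    simp
  rw [h1, mul_comm b (Module.finrank K _), pow_mul, ← mul_pow, l7b, ← pow_mul]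
  congr 1
  ring

end H92B
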