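import Pool.Agent.Lib.H92B.Basic
import Pool.Agent.Lib.H92B.L7A
import Pool.Agent.Lib.H92B.L7C

/-!
# H92B, chunk L7D

The number of the pairs. Let x = card K, D = a * b * card V. For a subspace U ≠ ⊥ let N_U be the number of pairs (ζ, Φ) with span (range ζ) = U and Φ ζ = 0 (all rows). For each such ζ the number of Φ is x^D / x^(b * finrank TU) (l7c), and the number of such ζ is at most x^(a * finrank U) (ζ is a function Fin a → U, card U = x^finrank U). For U = ⊤ (TU = ⊤ by Stab, finrank (A → K) = card A, a * card A = b * card B) we get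
N_⊤ ≤ x^D. For U ≠ ⊥, ⊤ Stab gives finrank U * card B < finrank TU * card A, so b0 * finrank TU * card A > b0 * finrank U * card B = a0 * card A * finrank U, so a0 * finrank U + 1 ≤ b0 * finrank TU, and multiplied by r: a * finrank U + r ≤ b * finrank TU; hence N_U * x^r ≤ x^D. The number of subspaces is at most x^(card A ^ 2) ≤ x^r (l7a, hr), so the sum of N_U over
U ≠ ⊥, ⊤ is at most x^D. Altogether the number of the pairs (ζ, Φ), ζ ≠ 0, Φ ζ = 0 is at most 2 * x^D (ζ ≠ 0 iff the span is not ⊥).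
-/

open MvPolynomial

namespace H92B

/-- The number of the matrices with a given kernel vector. -/
noncomputable def l7d_c {V A B K : Type} [Fintype V] [Fintype A] [Fintype B] (t : V → A → B → ℤ) [Field K] {a : ℕ} (b : ℕ) (ζ : Fin a → A → K) : ℕ :=
  Nat.card {Φ : Fin b → Fin a → V → K // ∀ i, ∑ j, bl t K (Φ i j) (ζ j) = 0}

theorem l7d_card {α β : Type} [Fintype α] [Fintype β] [DecidableEq α] (p : α → Prop) [DecidablePred p] (q : α → β → Prop) :
    Nat.card {x : α × β // p x.1 ∧ q x.1 x.2} = ∑ a ∈ Finset.univ.filter p, Nat.card {b : β // q a b} := by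
  classical
  rw [Nat.card_eq_fintype_card, Fintype.card_subtype]
  have h1 : ∀ a ∈ Finset.univ.filter p, Nat.card {b : β // q a b} = (Finset.univ.filter fun b => q a b).card := by
    intro a _
    rw [Nat.card_eq_fintype_card, Fintype.card_subtype]
  rw [Finset.sum_congr rfl h1, ← Finset.card_sigma]
  refine Finset.card_bij (fun x _ => ⟨x.1, x.2⟩) ?_ ?_ ?_
  · intro x hx
    rw [Finset.mem_filter] at hx
    rw [Finset.mem_sigma, Finset.mem_filter, Finset.mem_filter]
    exact ⟨⟨Finset.mem_univ _, hx.2.1⟩, Finset.mem_univ _, hx.2.2⟩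
  · rintro ⟨a, b⟩ _ ⟨a', b'⟩ _ h
    cases h
    rfl
  · rintro ⟨a, b⟩ h
    rw [Finset.mem_sigma, Finset.mem_filter, Finset.mem_filter] at h
    exact ⟨(a, b), Finset.mem_filter.2 ⟨Finset.mem_univ _, h.1.2, h.2.2⟩, rfl⟩

theorem l7d_count {V A B K : Type} [Fintype V] [Fintype A] [Fintype B] (t : V → A → B → ℤ) [Field K] [Fintype K] (a b : ℕ)
    (U : Submodule K (A → K)) (s : Finset (Fin a → A → K)) (hs : ∀ ζ ∈ s, Submodule.span K (Set.range ζ) = U) :
    (∑ ζ ∈ s, l7d_c t b ζ) * Fintype.card K ^ (b * Module.finrank K (TU t K U)) ≤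
      Fintype.card K ^ (a * Module.finrank K U) * Fintype.card K ^ (a * b * Fintype.card V) := by
  classical
  rw [Finset.sum_mul]
  have h1 : ∀ ζ ∈ s, l7d_c t b ζ * Fintype.card K ^ (b * Module.finrank K (TU t K U)) = Fintype.card K ^ (a * b * Fintype.card V) := by
    intro ζ hζ
    have := l7c t a b ζ
    rwa [hs ζ hζ] at this
  rw [Finset.sum_congr rfl h1, Finset.sum_const, smul_eq_mul]
  refine Nat.mul_le_mul_right _ ?_
  have h2 : s.card ≤ Nat.card (Fin a → U) := by
    have h3 : Nat.card s ≤ Nat.card (Fin a → U) := by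
      refine Nat.card_le_card_of_injective (fun ζ : s => fun j => (⟨ζ.1 j, by
        rw [← hs ζ.1 ζ.2]
        exact Submodule.subset_span ⟨j, rfl⟩⟩ : U)) fun ζ ζ' h => ?_
      apply Subtype.ext
      funext j
      exact congrArg Subtype.val (congrFun h j)
    rwa [Nat.card_eq_fintype_card, Fintype.card_coe] at h3
  refine h2.trans ?_
  rw [Nat.card_fun, Module.natCard_eq_pow_finrank (K := K), Nat.card_eq_fintype_card, Nat.card_eq_fintype_card, Fintype.card_fin,
    ← pow_mul, mul_comm]

theorem l7d {V A B K : Type} [Fintype V] [Fintype A] [Fintype B] (t : V → A → B → ℤ) [Field K] [Fintype K] (hS : Stab t K)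
    (a0 b0 r : ℕ) (hab : a0 * Fintype.card A = b0 * Fintype.card B) (hb0 : 0 < b0) (hA : 0 < Fintype.card A) (hr : Fintype.card A ^ 2 ≤ r) :
    Nat.card {x : (Fin (r * a0) → A → K) × (Fin (r * b0) → Fin (r * a0) → V → K) //
      x.1 ≠ 0 ∧ ∀ i, ∑ j, bl t K (x.2 i j) (x.1 j) = 0} ≤ 2 * Fintype.card K ^ (r * a0 * (r * b0) * Fintype.card V) := by
  classical
  obtain ⟨hfin, hnum⟩ := l7a (A := A) (K := K)
  have : Fintype (Submodule K (A → K)) := Fintype.ofFinite _
  have hx1 : 1 ≤ Fintype.card K := Fintype.card_pos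
  have h0 := l7d_card (fun ζ : Fin (r * a0) → A → K => ζ ≠ 0)
    (fun ζ (Φ : Fin (r * b0) → Fin (r * a0) → V → K) => ∀ i, ∑ j, bl t K (Φ i j) (ζ j) = 0)
  rw [h0]
  change ∑ ζ ∈ Finset.univ.filter (fun ζ : Fin (r * a0) → A → K => ζ ≠ 0), l7d_c t (r * b0) ζ ≤ _
  -- fibre over the span
  let S : Finset (Submodule K (A → K)) := Finset.univ.filter fun U => U ≠ ⊥
  rw [← Finset.sum_fiberwise_of_maps_to (t := S) (g := fun ζ : Fin (r * a0) → A → K => Submodule.span K (Set.range ζ)) (by
    intro ζ hζ
    rw [Finset.mem_filter] at hζ ⊢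
    refine ⟨Finset.mem_univ _, fun h => hζ.2 (funext fun j => ?_)⟩
    have h1 : ζ j ∈ Submodule.span K (Set.range ζ) := Submodule.subset_span ⟨j, rfl⟩
    rw [h] at h1
    exact (Submodule.mem_bot K).1 h1)]
  set D : ℕ := r * a0 * (r * b0) * Fintype.card V with hD
  let NU : Submodule K (A → K) → ℕ := fun U =>
    ∑ ζ ∈ (Finset.univ.filter (fun ζ : Fin (r * a0) → A → K => ζ ≠ 0)).filter (fun ζ => Submodule.span K (Set.range ζ) = U), l7d_c t (r * b0) ζ
  change ∑ U ∈ S, NU U ≤ _
  have hcount : ∀ U, NU U * Fintype.card K ^ (r * b0 * Module.finrank K (TU t K U)) ≤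
      Fintype.card K ^ (r * a0 * Module.finrank K U) * Fintype.card K ^ D :=
    fun U => l7d_count t (r * a0) (r * b0) U _ fun ζ hζ => (Finset.mem_filter.1 hζ).2
  have htop : NU ⊤ ≤ Fintype.card K ^ D := by
    have h1 := hcount ⊤
    rw [hS.1, finrank_top, finrank_top, Module.finrank_fintype_fun_eq_card, Module.finrank_fintype_fun_eq_card, mul_assoc r a0, hab,
      ← mul_assoc, mul_comm (NU ⊤)] at h1
    exact Nat.le_of_mul_le_mul_left h1 (Nat.pow_pos (by omega))
  have hother : ∀ U, U ≠ ⊥ → U ≠ ⊤ → NU U * Fintype.card K ^ r ≤ Fintype.card K ^ D := by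
    intro U hU0 hU1
    have h1 := hcount U
    have h2 := hS.2 U hU0 hU1
    have h3 : a0 * Module.finrank K U + 1 ≤ b0 * Module.finrank K (TU t K U) := by
      by_contra h4
      have h5 : b0 * Module.finrank K (TU t K U) ≤ a0 * Module.finrank K U := by omega
      have h6 : b0 * (Module.finrank K (TU t K U) * Fintype.card A) ≤ b0 * (Module.finrank K U * Fintype.card B) := by
        calc b0 * (Module.finrank K (TU t K U) * Fintype.card A) = (b0 * Module.finrank K (TU t K U)) * Fintype.card A := by ring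
          _ ≤ (a0 * Module.finrank K U) * Fintype.card A := Nat.mul_le_mul_right _ h5
          _ = (a0 * Fintype.card A) * Module.finrank K U := by ring
          _ = b0 * (Module.finrank K U * Fintype.card B) := by rw [hab]; ring
      have h7 := Nat.le_of_mul_le_mul_left h6 hb0
      omega
    have h4 : r * a0 * Module.finrank K U + r ≤ r * b0 * Module.finrank K (TU t K U) := by
      calc r * a0 * Module.finrank K U + r = r * (a0 * Module.finrank K U + 1) := by ring
        _ ≤ r * (b0 * Module.finrank K (TU t K U)) := Nat.mul_le_mul_left _ h3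
        _ = r * b0 * Module.finrank K (TU t K U) := by ring
    have h5 : Fintype.card K ^ (r * a0 * Module.finrank K U + r) ≤ Fintype.card K ^ (r * b0 * Module.finrank K (TU t K U)) :=
      Nat.pow_le_pow_right hx1 h4
    have h6 : Fintype.card K ^ (r * a0 * Module.finrank K U) * (NU U * Fintype.card K ^ r) ≤
        Fintype.card K ^ (r * a0 * Module.finrank K U) * Fintype.card K ^ D := by
      calc Fintype.card K ^ (r * a0 * Module.finrank K U) * (NU U * Fintype.card K ^ r)
          = NU U * Fintype.card K ^ (r * a0 * Module.finrank K U + r) := by rw [pow_add]; ring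
        _ ≤ NU U * Fintype.card K ^ (r * b0 * Module.finrank K (TU t K U)) := Nat.mul_le_mul_left _ h5
        _ ≤ _ := h1
    exact Nat.le_of_mul_le_mul_left h6 (Nat.pow_pos (by omega))
  have hsplit : ∑ U ∈ S, NU U ≤ NU ⊤ + ∑ U ∈ S.erase ⊤, NU U := by
    by_cases h1 : ⊤ ∈ S
    · rw [Finset.add_sum_erase _ _ h1]
    · rw [Finset.erase_eq_of_notMem h1]
      exact Nat.le_add_left _ _
  have hrest : ∑ U ∈ S.erase ⊤, NU U ≤ Fintype.card K ^ D := by
    have h1 : (∑ U ∈ S.erase ⊤, NU U) * Fintype.card K ^ r ≤ Fintype.card K ^ D * Fintype.card K ^ r := by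
      rw [Finset.sum_mul]
      have h2 : ∀ U ∈ S.erase ⊤, NU U * Fintype.card K ^ r ≤ Fintype.card K ^ D := by
        intro U hU
        rw [Finset.mem_erase, Finset.mem_filter] at hU
        exact hother U hU.2.2 hU.1
      refine (Finset.sum_le_card_nsmul _ _ _ h2).trans ?_
      rw [smul_eq_mul, mul_comm]
      refine Nat.mul_le_mul_left _ ?_
      have h3 : (S.erase ⊤).card ≤ Nat.card (Submodule K (A → K)) := by
        rw [Nat.card_eq_fintype_card]
        exact Finset.card_le_univ _
      exact h3.trans (hnum.trans (Nat.pow_le_pow_right hx1 hr))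
    exact Nat.le_of_mul_le_mul_right h1 (Nat.pow_pos (by omega))
  omega

end H92B
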