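import Pool.Agent.Lib.H92B.Basic
import Pool.Agent.Lib.H92B.L7D

/-!
# H92B, chunk L7

Existence over a finite field with at least four elements. Let x = card K. If every Φ had a kernel vector ζ ≠ 0 then each Φ has at least x - 1 of them (the multiples c • ζ, c ≠ 0; bl is linear in the second argument), so the number of the pairs of l7d is at least (x - 1) * x^(a * b * card V), the number of the Φ (a = r * a0, b = r * b0; Fin b → Fin a → V → K has x^(a * b * card V) elements) times x - 1 ≥ 3 > 2,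
a contradiction with l7d.
-/

open MvPolynomial

namespace H92B

theorem l7 {V A B K : Type} [Fintype V] [Fintype A] [Fintype B] (t : V → A → B → ℤ) [Field K] [Fintype K] (hK : 4 ≤ Fintype.card K) (hS : Stab t K)
    (a0 b0 r : ℕ) (hab : a0 * Fintype.card A = b0 * Fintype.card B) (hb0 : 0 < b0) (hA : 0 < Fintype.card A) (hr : Fintype.card A ^ 2 ≤ r) :
    ∃ Φ : Fin (r * b0) → Fin (r * a0) → V → K, NoKer t K Φ := by
  classical
  by_contra hcon
  push Not at hcon
  have h1 : ∀ Φ : Fin (r * b0) → Fin (r * a0) → V → K, ∃ ζ : Fin (r * a0) → A → K, ζ ≠ 0 ∧ ∀ i, ∑ j, bl t K (Φ i j) (ζ j) = 0 := by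
    intro Φ
    have h2 := hcon Φ
    unfold NoKer at h2
    push Not at h2
    obtain ⟨ζ, h3, h4⟩ := h2
    exact ⟨ζ, h4, h3⟩
  choose ζ hζ0 hζ using h1
  have h2 := l7d t hS a0 b0 r hab hb0 hA hr
  have h3 : Nat.card ((Fin (r * b0) → Fin (r * a0) → V → K) × Kˣ) ≤
      Nat.card {x : (Fin (r * a0) → A → K) × (Fin (r * b0) → Fin (r * a0) → V → K) //
        x.1 ≠ 0 ∧ ∀ i, ∑ j, bl t K (x.2 i j) (x.1 j) = 0} := by
    refine Nat.card_le_card_of_injective (fun y => ⟨((y.2 : K) • ζ y.1, y.1), ?_, fun i => ?_⟩) ?_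
    · exact smul_ne_zero y.2.ne_zero (hζ0 y.1)
    · have h4 : ∀ j, bl t K (y.1 i j) (((y.2 : K) • ζ y.1) j) = (y.2 : K) • bl t K (y.1 i j) (ζ y.1 j) := fun j => l7b_smul' t _ _ _
      dsimp only
      rw [Finset.sum_congr rfl fun j _ => h4 j, ← Finset.smul_sum, hζ y.1 i, smul_zero]
    · rintro ⟨Φ, c⟩ ⟨Φ', c'⟩ h
      have h4 := congrArg Subtype.val h
      rw [Prod.ext_iff] at h4
      obtain ⟨h5, h6⟩ := h4
      dsimp only at h5 h6
      subst h6
      have h7 : (c : K) = (c' : K) := by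
        have h8 : ((c : K) - (c' : K)) • ζ Φ = 0 := by
          rw [sub_smul, h5, sub_self]
        exact sub_eq_zero.1 ((smul_eq_zero.1 h8).resolve_right (hζ0 Φ))
      rw [Units.ext h7]
  have h4 := h3.trans h2
  rw [Nat.card_prod, Nat.card_eq_fintype_card, Nat.card_eq_fintype_card, Fintype.card_units] at h4
  have h5 : Fintype.card (Fin (r * b0) → Fin (r * a0) → V → K) = Fintype.card K ^ (r * a0 * (r * b0) * Fintype.card V) := by
    rw [Fintype.card_fun, Fintype.card_fun, Fintype.card_fun, Fintype.card_fin, Fintype.card_fin, ← pow_mul, ← pow_mul]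
    congr 1
    ring
  rw [h5, mul_comm] at h4
  have h6 : 0 < Fintype.card K ^ (r * a0 * (r * b0) * Fintype.card V) := Nat.pow_pos (by omega)
  have h7 := Nat.le_of_mul_le_mul_right h4 h6
  omega

end H92B
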