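import Pool.Agent.Lib.H92B.Basic

/-!
# H92B, chunk L8A

The determinant. Let σ : Fin a × A ≃ Fin b × B (the cardinalities a * card A = b * card B agree; Fintype.equivOfCardEq). Let Mat be the matrix indexed by (Fin b × B) × (Fin b × B) over R = MvPolynomial (Fin b × Fin a × V) ℤ with the entry at ((i, y), z), (j, x) = σ.symm z, equal to the sum over l ∈ V of C (t l x y) * X (i, j, l), and D = det Mat.
For a field K and Φ let M' be the image of Mat under the ring homomorphism eval₂Hom (Int.castRingHom K) (fun x => Φ x.1 x.2.1 x.2.2); eval₂ .. D = det M' (RingHom.map_det). M' *ᵥ w at (i, y) is Σ_j bl t K (Φ i j) (ζ j) y with ζ j x = w (σ (j, x)). So NoKer says that M' *ᵥ w = 0 implies w = 0, which is equivalent to det M' ≠ 0 (Matrix.exists_mulVec_eq_zero_iff).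
-/

open MvPolynomial

namespace H92B

theorem l8a {V A B : Type} [Fintype V] [Fintype A] [Fintype B] (t : V → A → B → ℤ) (a b : ℕ) (hab : a * Fintype.card A = b * Fintype.card B) :
    ∃ D : MvPolynomial (Fin b × Fin a × V) ℤ, ∀ (K : Type) [Field K] (Φ : Fin b → Fin a → V → K),
      NoKer t K Φ ↔ eval₂ (Int.castRingHom K) (fun x => Φ x.1 x.2.1 x.2.2) D ≠ 0 := by
  classical
  let σ : Fin a × A ≃ Fin b × B := Fintype.equivOfCardEq (by
    rw [Fintype.card_prod, Fintype.card_prod, Fintype.card_fin, Fintype.card_fin, hab])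
  let Mat : Matrix (Fin b × B) (Fin b × B) (MvPolynomial (Fin b × Fin a × V) ℤ) := fun iy z =>
    ∑ l, C (t l (σ.symm z).2 iy.2) * X (iy.1, (σ.symm z).1, l)
  refine ⟨Mat.det, fun K _ Φ => ?_⟩
  let g : MvPolynomial (Fin b × Fin a × V) ℤ →+* K := eval₂Hom (Int.castRingHom K) (fun x => Φ x.1 x.2.1 x.2.2)
  have h1 : eval₂ (Int.castRingHom K) (fun x : Fin b × Fin a × V => Φ x.1 x.2.1 x.2.2) Mat.det = (g.mapMatrix Mat).det := by
    rw [← RingHom.map_det]
    rfl
  rw [h1]
  have h2 : ∀ iy z, g.mapMatrix Mat iy z = ∑ l, (t l (σ.symm z).2 iy.2 : K) * Φ iy.1 (σ.symm z).1 l := by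
    intro iy z
    rw [RingHom.mapMatrix_apply, Matrix.map_apply]
    show g (∑ l, C (t l (σ.symm z).2 iy.2) * X (iy.1, (σ.symm z).1, l)) = _
    rw [map_sum]
    refine Finset.sum_congr rfl fun l _ => ?_
    show eval₂Hom (Int.castRingHom K) (fun x : Fin b × Fin a × V => Φ x.1 x.2.1 x.2.2) _ = _
    rw [map_mul, eval₂Hom_C, eval₂Hom_X']
    rfl
  have h3 : ∀ (ζ : Fin a → A → K) (i : Fin b) (y : B), (∑ j, bl t K (Φ i j) (ζ j)) y =
      (g.mapMatrix Mat).mulVec (fun z => ζ (σ.symm z).1 (σ.symm z).2) (i, y) := by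
    intro ζ i y
    rw [Matrix.mulVec, dotProduct, ← σ.sum_comp, Fintype.sum_prod_type, Finset.sum_apply]
    refine Finset.sum_congr rfl fun j _ => ?_
    unfold bl
    rw [Finset.sum_comm]
    refine Finset.sum_congr rfl fun x _ => ?_
    rw [h2, Equiv.symm_apply_apply, Finset.sum_mul]
  constructor
  · intro h hdet
    obtain ⟨v, hv0, hv⟩ := Matrix.exists_mulVec_eq_zero_iff.2 hdet
    apply hv0
    have h4 := h (fun j x => v (σ (j, x))) (fun i => by
      funext y
      rw [h3]
      have h5 : (fun z => v (σ ((σ.symm z).1, (σ.symm z).2))) = v := by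
        funext z
        show v (σ (σ.symm z)) = v z
        rw [Equiv.apply_symm_apply]
      show (g.mapMatrix Mat).mulVec (fun z => v (σ ((σ.symm z).1, (σ.symm z).2))) (i, y) = 0
      rw [h5, hv]
      rfl)
    funext z
    have h5 := congrFun (congrFun h4 (σ.symm z).1) (σ.symm z).2
    change v (σ ((σ.symm z).1, (σ.symm z).2)) = 0 at h5
    rw [Prod.mk.eta, Equiv.apply_symm_apply] at h5
    exact h5
  · intro hdet ζ hζ
    by_contra hne
    apply hdet
    refine Matrix.exists_mulVec_eq_zero_iff.1 ⟨fun z => ζ (σ.symm z).1 (σ.symm z).2, fun h => hne ?_, ?_⟩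
    · funext j x
      have h4 := congrFun h (σ (j, x))
      simpa using h4
    · funext iy
      rw [show iy = (iy.1, iy.2) from rfl, ← h3, hζ]
      rfl

end H92B
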