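import Pool.Agent.Lib.H92B.Basic
import Pool.Agent.Lib.H92B.L8A

/-!
# H92B, chunk L8

Change of the field. (hom) With D of l8a: eval₂ (castRingHom K) (σ ∘ Φ) D = σ (eval₂ (castRingHom F) Φ D) (eval₂_comp_left / hom_eval₂, σ ∘ Int.castRingHom F = Int.castRingHom K by ext), and σ is injective. (inf) Let D' = map (Int.castRingHom K) D. If D' = 0 then all the coefficients of D are 0 in K, so 0 in F (hypothesis hz), so eval₂ (castRingHom F) Φ D = 0, contradicting NoKer over F.
So D' ≠ 0, and as K is infinite there is a point where D' does not vanish (MvPolynomial.funext or MvPolynomial.exists_eval_ne_zero..; the index type is finite but the lemma holds in general), eval x D' = eval₂ (castRingHom K) x D; put Φ' i j l = x (i, j, l).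
-/

open MvPolynomial

namespace H92B

theorem l8_hom {V A B : Type} [Fintype V] [Fintype A] [Fintype B] (t : V → A → B → ℤ) (a b : ℕ) (hab : a * Fintype.card A = b * Fintype.card B)
    (F K : Type) [Field F] [Field K] (σ : F →+* K) (Φ : Fin b → Fin a → V → F) (h : NoKer t F Φ) :
    NoKer t K (fun i j l => σ (Φ i j l)) := by
  obtain ⟨D, hD⟩ := l8a t a b hab
  rw [hD] at h ⊢
  have h1 := hom_eval₂ D (Int.castRingHom F) σ (fun x : Fin b × Fin a × V => Φ x.1 x.2.1 x.2.2)
  have h2 : σ.comp (Int.castRingHom F) = Int.castRingHom K := RingHom.ext_int _ _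
  rw [h2] at h1
  intro h3
  apply h
  apply σ.injective
  rw [h1, map_zero]
  exact h3

theorem l8_inf {V A B : Type} [Fintype V] [Fintype A] [Fintype B] (t : V → A → B → ℤ) (a b : ℕ) (hab : a * Fintype.card A = b * Fintype.card B)
    (F K : Type) [Field F] [Field K] [Infinite K] (hz : ∀ z : ℤ, (z : K) = 0 → (z : F) = 0) (Φ : Fin b → Fin a → V → F) (h : NoKer t F Φ) :
    ∃ Φ' : Fin b → Fin a → V → K, NoKer t K Φ' := by
  obtain ⟨D, hD⟩ := l8a t a b hab
  rw [hD] at h
  have h1 : map (Int.castRingHom K) D ≠ 0 := by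
    intro h2
    apply h
    have h3 : map (Int.castRingHom F) D = 0 := by
      ext μ
      have h4 := congrArg (coeff μ) h2
      rw [coeff_map, coeff_zero] at h4 ⊢
      exact hz _ h4
    rw [eval₂_eq_eval_map, h3, map_zero]
  obtain ⟨x, hx⟩ : ∃ x, eval x (map (Int.castRingHom K) D) ≠ 0 := by
    by_contra h2
    push Not at h2
    exact h1 (MvPolynomial.funext fun x => by rw [h2 x, map_zero])
  refine ⟨fun i j l => x (i, j, l), (hD K _).2 ?_⟩
  rw [eval₂_eq_eval_map]
  exact hx

end H92B
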