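import Pool.Agent.Lib.H92B.Basic

/-!
# H92B, chunk L9A

Block sums. Use Fin (a1 + a2) ≃ Fin a1 ⊕ Fin a2 (finSumFinEquiv, Fin.addCases): Φ i j = Φ1 i j for i, j in the first blocks, Φ2 in the second blocks, 0 in the mixed ones (bl t K 0 u = 0). Σ over j ∈ Fin (a1 + a2) splits (Fin.sum_univ_add). If Φ ζ = 0 then Φ1 (ζ restricted to the first block) = 0 and Φ2 (ζ restricted to the second block) = 0, so ζ = 0.
-/

open MvPolynomial

namespace H92B

theorem l9a {V A B : Type} [Fintype V] [Fintype A] [Fintype B] (t : V → A → B → ℤ) (K : Type) [Field K] (a1 b1 a2 b2 : ℕ)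
    (Φ1 : Fin b1 → Fin a1 → V → K) (h1 : NoKer t K Φ1) (Φ2 : Fin b2 → Fin a2 → V → K) (h2 : NoKer t K Φ2) :
    ∃ Φ : Fin (b1 + b2) → Fin (a1 + a2) → V → K, NoKer t K Φ := by
  refine ⟨Fin.addCases (fun i => Fin.addCases (fun j => Φ1 i j) (fun _ => 0)) (fun i => Fin.addCases (fun _ => 0) (fun j => Φ2 i j)),
    fun ζ hζ => ?_⟩
  have hzero : ∀ u : A → K, bl t K 0 u = 0 := by
    intro u
    funext b
    unfold bl
    refine Finset.sum_eq_zero fun l _ => Finset.sum_eq_zero fun a _ => ?_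
    rw [Pi.zero_apply, mul_zero, zero_mul]
  have e1 := h1 (fun j => ζ (Fin.castAdd a2 j)) (fun i => by
    have h3 := hζ (Fin.castAdd b2 i)
    rw [Fin.sum_univ_add] at h3
    simp only [Fin.addCases_left, Fin.addCases_right, hzero, Finset.sum_const_zero, add_zero] at h3
    exact h3)
  have e2 := h2 (fun j => ζ (Fin.natAdd a1 j)) (fun i => by
    have h3 := hζ (Fin.natAdd b1 i)
    rw [Fin.sum_univ_add] at h3
    simp only [Fin.addCases_left, Fin.addCases_right, hzero, Finset.sum_const_zero, zero_add] at h3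
    exact h3)
  funext j
  refine Fin.addCases (fun j => ?_) (fun j => ?_) j
  · exact congrFun e1 j
  · exact congrFun e2 j

end H92B
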