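import Pool.Agent.Lib.H92B.Basic

/-!
# H92B, chunk L9B

Restriction of scalars. Let ω : Fin e → K' be a basis of K' over F (Module.finBasis; e = finrank). For c ∈ K' let m(c) be the matrix of the multiplication by c: c * ω y = Σ_x m(c) x y • ω x (m(c) x y = repr (c * ω y) x, F-linear in c). Identify Fin (e * a) with Fin e × Fin a (finProdFinEquiv) and put Φ (x, i) (y, j) l = m(Φ' i j l) x y. For ζ : Fin (e * a) → A → F put ζ' j α = Σ_y ζ (y, j) α • ω y ∈ K'.
Then Σ_j bl t K' (Φ' i j) (ζ' j) β = Σ_x (Σ_{(y, j)} bl t F (Φ (x, i) (y, j)) (ζ (y, j)) β) • ω x (expand both sides; the integers t l α β act the same way). So if Φ ζ = 0 then Φ' ζ' = 0, ζ' = 0, and by the linear independence of ω ζ = 0.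
-/

open MvPolynomial

namespace H92B

theorem l9b {V A B : Type} [Fintype V] [Fintype A] [Fintype B] (t : V → A → B → ℤ) (F K : Type) [Field F] [Field K] [Algebra F K]
    [FiniteDimensional F K] (a b : ℕ) (Φ : Fin b → Fin a → V → K) (h : NoKer t K Φ) :
    ∃ Φ' : Fin (Module.finrank F K * b) → Fin (Module.finrank F K * a) → V → F, NoKer t F Φ' := by
  classical
  let ω := Module.finBasis F K
  let pe : {c : ℕ} → Fin (Module.finrank F K * c) → Fin (Module.finrank F K) × Fin c := fun x => finProdFinEquiv.symm x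
  refine ⟨fun I J l => ω.repr (Φ (pe I).2 (pe J).2 l * ω (pe J).1) (pe I).1, fun ζ hζ => ?_⟩
  let ζ' : Fin a → A → K := fun j x => ∑ y, ζ (finProdFinEquiv (y, j)) x • ω y
  have h1 : ζ' = 0 := by
    refine h ζ' fun i => ?_
    funext β
    apply ω.repr.injective
    ext x0
    rw [Finset.sum_apply, Pi.zero_apply, map_zero, Finsupp.zero_apply]
    have h2 := congrFun (hζ (finProdFinEquiv (x0, i))) β
    rw [Pi.zero_apply] at h2
    rw [← h2, Finset.sum_apply, ← finProdFinEquiv.sum_comp, Fintype.sum_prod_type, Finset.sum_comm, map_sum, Finsupp.finsetSum_apply]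
    refine Finset.sum_congr rfl fun j _ => ?_
    unfold bl
    have h3 : ∀ l x, (t l x β : K) * Φ i j l * ζ' j x = ∑ y, ((t l x β : F) * ζ (finProdFinEquiv (y, j)) x) • (Φ i j l * ω y) := by
      intro l x
      show (t l x β : K) * Φ i j l * (∑ y, ζ (finProdFinEquiv (y, j)) x • ω y) = _
      rw [Finset.mul_sum]
      refine Finset.sum_congr rfl fun y _ => ?_
      rw [Algebra.smul_def, Algebra.smul_def, map_mul, map_intCast]
      ring
    have h4 : ∀ y : Fin (Module.finrank F K), ∀ l x,
        (t l x β : F) * (ω.repr (Φ (pe (finProdFinEquiv (x0, i))).2 (pe (finProdFinEquiv (y, j))).2 l * ω (pe (finProdFinEquiv (y, j))).1)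
          (pe (finProdFinEquiv (x0, i))).1) * ζ (finProdFinEquiv (y, j)) x =
        ω.repr (((t l x β : F) * ζ (finProdFinEquiv (y, j)) x) • (Φ i j l * ω y)) x0 := by
      intro y l x
      have e1 : pe (finProdFinEquiv (x0, i)) = (x0, i) := finProdFinEquiv.symm_apply_apply _
      have e2 : pe (finProdFinEquiv (y, j)) = (y, j) := finProdFinEquiv.symm_apply_apply _
      rw [e1, e2, map_smul, Finsupp.smul_apply, smul_eq_mul]
      ring
    simp only [h3, h4]
    rw [map_sum, Finsupp.finsetSum_apply]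
    rw [Finset.sum_comm]
    refine Finset.sum_congr rfl fun l _ => ?_
    rw [map_sum, Finsupp.finsetSum_apply, Finset.sum_comm]
    refine Finset.sum_congr rfl fun x _ => ?_
    rw [map_sum, Finsupp.finsetSum_apply]
  funext J x
  have h2 := congrFun (congrFun h1 (pe J).2) x
  change ∑ y, ζ (finProdFinEquiv (y, (pe J).2)) x • ω y = 0 at h2
  have h3 := Fintype.linearIndependent_iff.1 ω.linearIndependent _ h2 (pe J).1
  have e1 : finProdFinEquiv ((pe J).1, (pe J).2) = J := finProdFinEquiv.apply_symm_apply J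
  rw [e1] at h3
  exact h3

end H92B
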