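import Pool.Agent.Lib.H92B.Basic
import Pool.Agent.Lib.H92B.L7
import Pool.Agent.Lib.H92B.L8
import Pool.Agent.Lib.H92B.L9A
import Pool.Agent.Lib.H92B.L9B

/-!
# H92B, chunk L10

Existence over every field. Let R0 = card A ^ 2. Case k infinite: let p be a prime with (for all integers z: z = 0 in k → z = 0 in ZMod p): p = the characteristic of k if it is positive, p = 2 if it is zero. F = GaloisField p 2 has p^2 ≥ 4 elements (GaloisField.card; Fintype.ofFinite) and characteristic p; l7 over F and l8_inf, R = R0. Case k finite with at least 4 elements: l7, R = R0 (Fintype.ofFinite).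
Case k finite with 2 or 3 elements, p = card k, a prime: for e = 2, 3 the field K_e = GaloisField p e has p^e ≥ 4 elements and finrank e over ZMod p (GaloisField.finrank), so for r' ≥ R0 l7 and l9b give a NoKer family over ZMod p of size (e * (r' * a0), e * (r' * b0)) = ((e * r') * a0, (e * r') * b0) (mul_assoc, cast of the index types). For r ≥ 5 * R0 + 3 write r = 2 * r1 + 3 * r2 with r1, r2 ≥ R0 (r - 5 * R0 ≥ 2 is 2x + 3y),
and l9a gives a family of size (r * a0, r * b0) over ZMod p (casts along 2 * r1 * a0 + 3 * r2 * a0 = r * a0). Transport to k by a ring homomorphism ZMod p →+* k (k has characteristic p; ZMod.castHom) and l8_hom ((r * a0) * card A = (r * b0) * card B). The proof that k with prime p elements has characteristic p: CharP.exists and FiniteField.card, or the characteristic is a prime dividing card k.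
-/

open MvPolynomial

namespace H92B

theorem l10 {V A B : Type} [Fintype V] [Fintype A] [Fintype B] (t : V → A → B → ℤ) (hS : ∀ (K : Type) [Field K], Stab t K)
    (a0 b0 : ℕ) (hab : a0 * Fintype.card A = b0 * Fintype.card B) (hb0 : 0 < b0) (hA : 0 < Fintype.card A) (k : Type) [Field k] :
    ∃ R : ℕ, ∀ r, R ≤ r → ∃ Φ : Fin (r * b0) → Fin (r * a0) → V → k, NoKer t k Φ := by
  classical
  have hrab : ∀ r, r * a0 * Fintype.card A = r * b0 * Fintype.card B := fun r => by rw [mul_assoc, hab, mul_assoc]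
  rcases finite_or_infinite k with hfin | hinf
  · have : Fintype k := Fintype.ofFinite k
    by_cases h4 : 4 ≤ Fintype.card k
    · exact ⟨Fintype.card A ^ 2, fun r hr => l7 t h4 (hS k) a0 b0 r hab hb0 hA hr⟩
    · have h2 : 2 ≤ Fintype.card k := Fintype.one_lt_card
      have hprime : (Fintype.card k).Prime := by
        have h5 : Fintype.card k = 2 ∨ Fintype.card k = 3 := by omega
        rcases h5 with h5 | h5
        · rw [h5]
          exact Nat.prime_two
        · rw [h5]
          exact Nat.prime_three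
      obtain ⟨p, hp⟩ : ∃ p, p = Fintype.card k := ⟨_, rfl⟩
      rw [← hp] at hprime h2 h4
      have : Fact p.Prime := ⟨hprime⟩
      have hchar : CharP k p := charP_of_card_eq_prime hp.symm
      have hkey : ∀ e : ℕ, e ≠ 0 → 4 ≤ p ^ e → ∀ r, Fintype.card A ^ 2 ≤ r →
          ∃ Φ : Fin (e * (r * b0)) → Fin (e * (r * a0)) → V → ZMod p, NoKer t (ZMod p) Φ := by
        intro e he hpe r hr
        have : Fintype (GaloisField p e) := Fintype.ofFinite _
        have hc : 4 ≤ Fintype.card (GaloisField p e) := by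
          rw [← Nat.card_eq_fintype_card, GaloisField.card p e he]
          exact hpe
        obtain ⟨Φ, hΦ⟩ := l7 t hc (hS (GaloisField p e)) a0 b0 r hab hb0 hA hr
        have h5 := l9b t (ZMod p) (GaloisField p e) (r * a0) (r * b0) Φ hΦ
        rwa [GaloisField.finrank p he] at h5
      have hp2 : 4 ≤ p ^ 2 := by nlinarith
      have hp3 : 4 ≤ p ^ 3 := by
        have : p ^ 3 = p ^ 2 * p := by ring
        nlinarith
      refine ⟨5 * Fintype.card A ^ 2 + 3, fun r hr => ?_⟩
      obtain ⟨r1, r2, hr1, hr2, hr12⟩ : ∃ r1 r2, Fintype.card A ^ 2 ≤ r1 ∧ Fintype.card A ^ 2 ≤ r2 ∧ 2 * r1 + 3 * r2 = r := by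
        generalize Fintype.card A ^ 2 = R0 at hr
        rcases Nat.even_or_odd (r - 5 * R0) with h5 | h5
        · obtain ⟨x, hx⟩ := h5
          exact ⟨R0 + x, R0, by omega, le_rfl, by omega⟩
        · obtain ⟨x, hx⟩ := h5
          exact ⟨R0 + (x - 1), R0 + 1, by omega, by omega, by omega⟩
      obtain ⟨Φ1, hΦ1⟩ := hkey 2 (by omega) hp2 r1 hr1
      obtain ⟨Φ2, hΦ2⟩ := hkey 3 (by omega) hp3 r2 hr2
      have h6 := l9a t (ZMod p) _ _ _ _ Φ1 hΦ1 Φ2 hΦ2
      have ea : 2 * (r1 * a0) + 3 * (r2 * a0) = r * a0 := by rw [← hr12]; ring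
      have eb : 2 * (r1 * b0) + 3 * (r2 * b0) = r * b0 := by rw [← hr12]; ring
      rw [ea, eb] at h6
      obtain ⟨Φ, hΦ⟩ := h6
      exact ⟨_, l8_hom t (r * a0) (r * b0) (hrab r) (ZMod p) k (ZMod.castHom (dvd_refl p) k) Φ hΦ⟩
  · obtain ⟨p, hp, hz⟩ : ∃ p : ℕ, p.Prime ∧ ∀ z : ℤ, (z : k) = 0 → (p : ℤ) ∣ z := by
      rcases CharP.exists k with ⟨c, hc⟩
      rcases CharP.char_is_prime_or_zero k c with h5 | h5
      · exact ⟨c, h5, fun z hz => (CharP.intCast_eq_zero_iff k c z).1 hz⟩
      · subst h5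
        refine ⟨2, Nat.prime_two, fun z hz => ?_⟩
        have h6 := (CharP.intCast_eq_zero_iff k 0 z).1 hz
        rw [Nat.cast_zero, zero_dvd_iff] at h6
        rw [h6]
        exact dvd_zero _
    have : Fact p.Prime := ⟨hp⟩
    have : Fintype (GaloisField p 2) := Fintype.ofFinite _
    have hc : 4 ≤ Fintype.card (GaloisField p 2) := by
      rw [← Nat.card_eq_fintype_card, GaloisField.card p 2 (by omega)]
      have := hp.two_le
      nlinarith
    refine ⟨Fintype.card A ^ 2, fun r hr => ?_⟩
    obtain ⟨Φ, hΦ⟩ := l7 t hc (hS (GaloisField p 2)) a0 b0 r hab hb0 hA hr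
    refine l8_inf t (r * a0) (r * b0) (hrab r) (GaloisField p 2) k (fun z hz2 => ?_) Φ hΦ
    exact (CharP.intCast_eq_zero_iff (GaloisField p 2) p z).2 (hz z hz2)

end H92B
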