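import Pool.Agent.Lib.H92B.Basic
import Pool.Agent.Lib.H92B.H1

/-!
# H92B, chunk L2

One-step expansion. Let S = An n m, S' = An n (m + 1), L' = shf n 1 L ⊆ S' (An n 1 consists of the single a 1). Count the pairs (μ, a), μ ∈ L, with the weight μ a + 1: for fixed μ the sum over a is m + n. Map (μ, a) ↦ (ν, a) with ν = μ + single a 1: it is injective, has weight ν a, and the total weight over the fibre of ν ∈ L' is at most the sum over a of ν a = m + 1.
So (m + n) * |L| ≤ (m + 1) * |L'|. Strictness: if equality holds then for every ν ∈ L' and every a with 1 ≤ ν a we have ν - single a 1 ∈ L (else the fibre of ν has total weight < m + 1). Then for μ ∈ L, and a, b with 1 ≤ μ a, also μ - single a 1 + single b 1 ∈ L (as ν = μ + single b 1 ∈ L' and 1 ≤ ν a). These moves connect any two elements of S, so L = S, which is excluded: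
given μ ∈ L and λ ∈ S, induct on the number of sum over a of (μ a - λ a) (truncated): if it is 0 then μ ≤ λ, and as the degrees are the same μ = λ; otherwise pick a with λ a < μ a and b with μ b < λ b and move. So (m + n) * |L| < (m + 1) * |L'|. Now (m + 1) * |S'| = (m + n) * |S| (h1_rec, 1 ≤ n as L is a nonempty proper subset; Fintype.card_coe),
so |L| * |S'| * (m + 1) = |L| * (m + n) * |S| < (m + 1) * |L'| * |S|, divide by m + 1 (|S| > 0).
-/

open MvPolynomial

namespace H92B

theorem l2 (n m : ℕ) (hn : 1 ≤ n) (L : Finset (Fin n →₀ ℕ)) (hL : L ⊆ An n m) (h0 : L.Nonempty) (h1 : L ≠ An n m) :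
    L.card * (An n (m + 1)).card < (shf n 1 L).card * (An n m).card := by
  classical
  have hdegL : ∀ μ ∈ L, μ.degree = m := fun μ hμ => mem_An.1 (hL hμ)
  have hsh : ∀ ν, ν ∈ shf n 1 L ↔ ∃ μ ∈ L, ∃ a, ν = μ + Finsupp.single a 1 := by
    intro ν
    unfold shf
    rw [Finset.mem_image]
    constructor
    · rintro ⟨⟨μ, e⟩, hx, rfl⟩
      rw [Finset.mem_product] at hx
      have he : e.degree = 1 := mem_An.1 hx.2
      obtain ⟨a, ha⟩ : ∃ a, e a ≠ 0 := by
        by_contra h2
        push Not at h2
        rw [Finsupp.ext h2 (g := 0), map_zero] at he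
        omega
      have h3 : e - Finsupp.single a 1 + Finsupp.single a 1 = e := tsub_add_cancel_of_le (Finsupp.single_le_iff.2 (by omega))
      have h4 : (e - Finsupp.single a 1).degree = 0 := by
        rw [← h3, map_add, Finsupp.degree_single] at he
        omega
      rw [(Finsupp.degree_eq_zero_iff _).1 h4, zero_add] at h3
      exact ⟨μ, hx.1, a, by rw [h3]⟩
    · rintro ⟨μ, hμ, a, rfl⟩
      exact ⟨(μ, Finsupp.single a 1), Finset.mem_product.2 ⟨hμ, mem_An.2 (by rw [Finsupp.degree_single])⟩, rfl⟩
  have hdegs : ∀ ν ∈ shf n 1 L, ν.degree = m + 1 := by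
    intro ν hν
    obtain ⟨μ, hμ, a, rfl⟩ := (hsh ν).1 hν
    rw [map_add, Finsupp.degree_single, hdegL μ hμ]
  -- the weighted count
  have hcount : ∀ a : Fin n, ∑ μ ∈ L, (μ a + 1) = ∑ ν ∈ shf n 1 L, (if 1 ≤ ν a ∧ ν - Finsupp.single a 1 ∈ L then ν a else 0) := by
    intro a
    rw [← Finset.sum_filter]
    refine Finset.sum_bij (fun μ _ => μ + Finsupp.single a 1) ?_ ?_ ?_ ?_
    · intro μ hμ
      rw [Finset.mem_filter]
      refine ⟨(hsh _).2 ⟨μ, hμ, a, rfl⟩, ?_, ?_⟩
      · simp
      · rwa [add_tsub_cancel_right]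
    · intro μ _ μ' _ h
      exact add_right_cancel h
    · intro ν hν
      rw [Finset.mem_filter] at hν
      exact ⟨ν - Finsupp.single a 1, hν.2.2, tsub_add_cancel_of_le (Finsupp.single_le_iff.2 hν.2.1)⟩
    · intro μ _
      simp
  have hsum1 : ∑ a : Fin n, ∑ μ ∈ L, (μ a + 1) = L.card * (m + n) := by
    rw [Finset.sum_comm, Finset.card_eq_sum_ones, Finset.sum_mul]
    refine Finset.sum_congr rfl fun μ hμ => ?_
    rw [Finset.sum_add_distrib, ← Finsupp.degree_eq_sum, hdegL μ hμ]
    simp
  have hsum2 : ∑ ν ∈ shf n 1 L, ∑ a : Fin n, ν a = (shf n 1 L).card * (m + 1) := by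
    rw [Finset.card_eq_sum_ones, Finset.sum_mul]
    refine Finset.sum_congr rfl fun ν hν => ?_
    rw [← Finsupp.degree_eq_sum, hdegs ν hν, one_mul]
  have hle : ∀ ν ∈ shf n 1 L, ∀ a ∈ (Finset.univ : Finset (Fin n)),
      (if 1 ≤ ν a ∧ ν - Finsupp.single a 1 ∈ L then ν a else 0) ≤ ν a := by
    intro ν _ a _
    split_ifs
    · exact le_rfl
    · exact Nat.zero_le _
  have hstrict : L.card * (m + n) < (shf n 1 L).card * (m + 1) := by
    rw [← hsum1, ← hsum2, Finset.sum_congr rfl fun a _ => hcount a, Finset.sum_comm]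
    by_contra hcon
    have heq : ∀ ν ∈ shf n 1 L, ∑ a : Fin n, (if 1 ≤ ν a ∧ ν - Finsupp.single a 1 ∈ L then ν a else 0) = ∑ a : Fin n, ν a := by
      intro ν hν
      by_contra h2
      apply hcon
      refine Finset.sum_lt_sum (fun ν hν => Finset.sum_le_sum (hle ν hν)) ⟨ν, hν, ?_⟩
      exact lt_of_le_of_ne (Finset.sum_le_sum (hle ν hν)) h2
    have hclosed : ∀ ν ∈ shf n 1 L, ∀ a, 1 ≤ ν a → ν - Finsupp.single a 1 ∈ L := by
      intro ν hν a ha
      have h2 := (Finset.sum_eq_sum_iff_of_le (hle ν hν)).1 (heq ν hν) a (Finset.mem_univ a)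
      by_contra h3
      rw [if_neg fun h4 => h3 h4.2] at h2
      omega
    have hmove : ∀ μ ∈ L, ∀ a b, 1 ≤ (μ + Finsupp.single b 1 : Fin n →₀ ℕ) a → μ + Finsupp.single b 1 - Finsupp.single a 1 ∈ L :=
      fun μ hμ a b ha => hclosed _ ((hsh _).2 ⟨μ, hμ, b, rfl⟩) a ha
    apply h1
    refine Finset.Subset.antisymm hL fun lam hlam => ?_
    have hlamd : lam.degree = m := mem_An.1 hlam
    have hconn : ∀ D : ℕ, ∀ μ ∈ L, ∑ a, (μ a - lam a) = D → lam ∈ L := by
      intro D
      induction D with
      | zero =>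
        intro μ hμ h2
        have h3 : ∀ a, μ a ≤ lam a := by
          intro a
          have := (Finset.sum_eq_zero_iff.1 h2) a (Finset.mem_univ a)
          omega
        have h4 : μ = lam := by
          have h5 : ∑ a, μ a = ∑ a, lam a := by
            rw [← Finsupp.degree_eq_sum, ← Finsupp.degree_eq_sum, hdegL μ hμ, hlamd]
          have h6 := (Finset.sum_eq_sum_iff_of_le fun a _ => h3 a).1 h5
          exact Finsupp.ext fun a => h6 a (Finset.mem_univ a)
        rwa [← h4]
      | succ D ih =>
        intro μ hμ h2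
        obtain ⟨a, ha⟩ : ∃ a, lam a < μ a := by
          by_contra h3
          push Not at h3
          rw [Finset.sum_eq_zero fun a _ => Nat.sub_eq_zero_of_le (h3 a)] at h2
          omega
        obtain ⟨b, hb⟩ : ∃ b, μ b < lam b := by
          by_contra h3
          push Not at h3
          have h5 : ∑ a, lam a = ∑ a, μ a := by
            rw [← Finsupp.degree_eq_sum, ← Finsupp.degree_eq_sum, hdegL μ hμ, hlamd]
          have h6 := (Finset.sum_eq_sum_iff_of_le fun a _ => h3 a).1 h5 a (Finset.mem_univ a)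
          omega
        have hab : a ≠ b := by
          rintro rfl
          omega
        have hμ'a : (μ + Finsupp.single b 1 : Fin n →₀ ℕ) a = μ a := by
          rw [Finsupp.add_apply, Finsupp.single_apply, if_neg (Ne.symm hab), add_zero]
        refine ih _ (hmove μ hμ a b (by rw [hμ'a]; omega)) ?_
        have h3 : ∀ c, (μ + Finsupp.single b 1 - Finsupp.single a 1 : Fin n →₀ ℕ) c - lam c + (if c = a then 1 else 0) = μ c - lam c := by
          intro c
          rw [Finsupp.tsub_apply, Finsupp.add_apply, Finsupp.single_apply, Finsupp.single_apply]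
          by_cases hca : c = a
          · subst hca
            rw [if_neg (Ne.symm hab), if_pos rfl]
            omega
          · by_cases hcb : c = b
            · subst hcb
              rw [if_pos rfl, if_neg hab, if_neg hca]
              omega
            · rw [if_neg (Ne.symm hcb), if_neg (Ne.symm hca), if_neg hca]
              omega
        have h4 : ∑ c, ((μ + Finsupp.single b 1 - Finsupp.single a 1 : Fin n →₀ ℕ) c - lam c) + 1 = D + 1 := by
          rw [← h2, ← Finset.sum_congr rfl fun c _ => h3 c, Finset.sum_add_distrib]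
          congr 1
          simp
        omega
    obtain ⟨μ, hμ⟩ := h0
    exact hconn _ μ hμ rfl
  have hrec := h1_rec n m hn
  rw [Fintype.card_coe, Fintype.card_coe] at hrec
  have hpos : 0 < (An n m).card := by
    have := h1_pos n m hn
    rwa [Fintype.card_coe] at this
  have h5 : (m + 1) * (L.card * (An n (m + 1)).card) < (m + 1) * ((shf n 1 L).card * (An n m).card) := by
    calc (m + 1) * (L.card * (An n (m + 1)).card) = L.card * ((m + 1) * (An n (m + 1)).card) := by ring
      _ = L.card * (m + n) * (An n m).card := by rw [hrec]; ring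
      _ < (shf n 1 L).card * (m + 1) * (An n m).card := Nat.mul_lt_mul_of_pos_right hstrict hpos
      _ = (m + 1) * ((shf n 1 L).card * (An n m).card) := by ring
  exact lt_of_mul_lt_mul_left h5 (Nat.zero_le _)

end H92B
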