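import Pool.Agent.Lib.H92B.Basic
import Pool.Agent.Lib.H92B.H1
import Pool.Agent.Lib.H92B.L2

/-!
# H92B, chunk L3

p steps. Induction on p ≥ 1; p = 1 is l2. shf n (p + 1) L = shf n 1 (shf n p L) (every exponent of degree p + 1 is the sum of one of degree p and one of degree 1, and conversely), and shf n p L ⊆ An n (m + p), nonempty (An n p is nonempty as 1 ≤ n). If shf n p L = An n (m + p) then shf n (p + 1) L = An n (m + p + 1) and the claim is |L| < |An n m| (times the positive number |An n (m + p + 1)|), true as L is
a proper subset. Otherwise multiply the induction hypothesis |L| * |A_(m+p)| < |shf p L| * |A_m| and l2 for shf n p L: |shf p L| * |A_(m+p+1)| < |shf (p+1) L| * |A_(m+p)|: |L| * |A_(m+p)| * |A_(m+p+1)| < |shf p L| * |A_m| * |A_(m+p+1)| < |A_m| * |shf (p+1) L| * |A_(m+p)|, cancel |A_(m+p)| > 0.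
-/

open MvPolynomial

namespace H92B

theorem l3 (n m p : ℕ) (hn : 1 ≤ n) (hp : 1 ≤ p) (L : Finset (Fin n →₀ ℕ)) (hL : L ⊆ An n m) (h0 : L.Nonempty) (h1 : L ≠ An n m) :
    L.card * (An n (m + p)).card < (shf n p L).card * (An n m).card := by
  classical
  have hpos : ∀ m, 0 < (An n m).card := by
    intro m
    have := h1_pos n m hn
    rwa [Fintype.card_coe] at this
  obtain ⟨p, rfl⟩ := Nat.exists_eq_add_of_le' hp
  clear hp
  induction p with
  | zero => exact l2 n m hn L hL h0 h1
  | succ p ih =>
    have hsub : shf n (p + 1) L ⊆ An n (m + (p + 1)) := by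
      intro ν hν
      unfold shf at hν
      rw [Finset.mem_image] at hν
      obtain ⟨⟨μ, e⟩, hx, rfl⟩ := hν
      rw [Finset.mem_product] at hx
      rw [mem_An, map_add, mem_An.1 (hL hx.1), mem_An.1 hx.2]
    have hne : (shf n (p + 1) L).Nonempty := by
      obtain ⟨μ, hμ⟩ := h0
      obtain ⟨e, he⟩ := Finset.card_pos.1 (hpos (p + 1))
      exact ⟨μ + e, Finset.mem_image.2 ⟨(μ, e), Finset.mem_product.2 ⟨hμ, he⟩, rfl⟩⟩
    have hstep : shf n (p + 1 + 1) L = shf n 1 (shf n (p + 1) L) := by
      ext ν
      unfold shf
      rw [Finset.mem_image, Finset.mem_image]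
      constructor
      · rintro ⟨⟨μ, e⟩, hx, rfl⟩
        rw [Finset.mem_product] at hx
        have he : e.degree = p + 1 + 1 := mem_An.1 hx.2
        obtain ⟨a, ha⟩ : ∃ a, e a ≠ 0 := by
          by_contra h2
          push Not at h2
          rw [Finsupp.ext h2 (g := 0), map_zero] at he
          omega
        have h3 : e - Finsupp.single a 1 + Finsupp.single a 1 = e := tsub_add_cancel_of_le (Finsupp.single_le_iff.2 (by omega))
        have h4 : (e - Finsupp.single a 1).degree = p + 1 := by
          rw [← h3, map_add, Finsupp.degree_single] at he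
          omega
        refine ⟨(μ + (e - Finsupp.single a 1), Finsupp.single a 1), Finset.mem_product.2 ⟨?_, mem_An.2 (by rw [Finsupp.degree_single])⟩, ?_⟩
        · exact Finset.mem_image.2 ⟨(μ, e - Finsupp.single a 1), Finset.mem_product.2 ⟨hx.1, mem_An.2 h4⟩, rfl⟩
        · show μ + (e - Finsupp.single a 1) + Finsupp.single a 1 = μ + e
          rw [add_assoc, h3]
      · rintro ⟨⟨μ, e⟩, hx, rfl⟩
        rw [Finset.mem_product, Finset.mem_image] at hx
        obtain ⟨⟨⟨μ', e'⟩, hx', hx''⟩, he⟩ := hx
        rw [Finset.mem_product] at hx'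
        dsimp only at hx'' hx' he
        refine ⟨(μ', e' + e), Finset.mem_product.2 ⟨hx'.1, mem_An.2 ?_⟩, ?_⟩
        · rw [map_add, mem_An.1 hx'.2, mem_An.1 he]
        · show μ' + (e' + e) = μ + e
          rw [← add_assoc, hx'']
    by_cases hfull : shf n (p + 1) L = An n (m + (p + 1))
    · have h4 : shf n (p + 1 + 1) L = An n (m + (p + 1 + 1)) := by
        rw [hstep, hfull]
        ext ν
        unfold shf
        rw [Finset.mem_image]
        constructor
        · rintro ⟨⟨μ, e⟩, hx, rfl⟩
          rw [Finset.mem_product] at hx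
          rw [mem_An, map_add, mem_An.1 hx.1, mem_An.1 hx.2]
          ring
        · intro hν
          have he : ν.degree = m + (p + 1 + 1) := mem_An.1 hν
          obtain ⟨a, ha⟩ : ∃ a, ν a ≠ 0 := by
            by_contra h2
            push Not at h2
            rw [Finsupp.ext h2 (g := 0), map_zero] at he
            omega
          have h3 : ν - Finsupp.single a 1 + Finsupp.single a 1 = ν := tsub_add_cancel_of_le (Finsupp.single_le_iff.2 (by omega))
          have h4 : (ν - Finsupp.single a 1).degree = m + (p + 1) := by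
            rw [← h3, map_add, Finsupp.degree_single] at he
            omega
          exact ⟨(ν - Finsupp.single a 1, Finsupp.single a 1), Finset.mem_product.2 ⟨mem_An.2 h4, mem_An.2 (by rw [Finsupp.degree_single])⟩, h3⟩
      rw [h4, mul_comm (An n (m + (p + 1 + 1))).card]
      refine Nat.mul_lt_mul_of_pos_right (Finset.card_lt_card ⟨hL, fun h5 => h1 (Finset.Subset.antisymm hL h5)⟩) (hpos _)
    · have h4 := l2 n (m + (p + 1)) hn (shf n (p + 1) L) hsub hne hfull
      rw [hstep]
      have h5 := hpos (m + (p + 1))
      have h6 := hpos (m + (p + 1 + 1))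
      have h7 := hpos m
      rw [show m + (p + 1) + 1 = m + (p + 1 + 1) by ring] at h4
      have h8 : (L.card * (An n (m + (p + 1 + 1))).card) * (An n (m + (p + 1))).card <
          ((shf n 1 (shf n (p + 1) L)).card * (An n m).card) * (An n (m + (p + 1))).card := by
        calc (L.card * (An n (m + (p + 1 + 1))).card) * (An n (m + (p + 1))).card
            = (L.card * (An n (m + (p + 1))).card) * (An n (m + (p + 1 + 1))).card := by ring
          _ < ((shf n (p + 1) L).card * (An n m).card) * (An n (m + (p + 1 + 1))).card := Nat.mul_lt_mul_of_pos_right ih h6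
          _ = ((shf n (p + 1) L).card * (An n (m + (p + 1 + 1))).card) * (An n m).card := by ring
          _ < ((shf n 1 (shf n (p + 1) L)).card * (An n (m + (p + 1))).card) * (An n m).card := Nat.mul_lt_mul_of_pos_right h4 h7
          _ = ((shf n 1 (shf n (p + 1) L)).card * (An n m).card) * (An n (m + (p + 1))).card := by ring
      exact lt_of_mul_lt_mul_right h8 (Nat.zero_le _)

end H92B
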