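import Pool.Agent.Lib.H92B.Basic

/-!
# H92B, chunk L4

Leading indices. Let lead U = {a | ∃ u ∈ U, u a ≠ 0 and u a' = 0 for all a' with e a < e a'}. Choose for each a ∈ lead U such a u_a. They are linearly independent (in a nontrivial combination look at the index a with nonzero coefficient and e a maximal: the value of the combination at a is c_a * u_a a ≠ 0 since the others u_a', e a' < e a, vanish at a) and span U: let u ∈ U be
outside the span with the maximal index a of its support (e a maximal among the indices with u a ≠ 0) minimal; then a ∈ lead U, and u - (u a / u_a a) • u_a ∈ U is also outside of the span with smaller maximal index (or it is zero), a contradiction. So the finrank of U is the number of elements of lead U. (Alternatively by induction on the number of elements of A, cutting off the largest index.)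
-/

open MvPolynomial

namespace H92B

theorem l4 {A Γ K : Type} [Fintype A] [LinearOrder Γ] [Field K] (e : A → Γ) (he : Function.Injective e) (U : Submodule K (A → K)) :
    Nat.card {a : A // ∃ u ∈ U, u a ≠ 0 ∧ ∀ a', e a < e a' → u a' = 0} = Module.finrank K U := by
  classical
  let I : Type := {a : A // ∃ u ∈ U, u a ≠ 0 ∧ ∀ a', e a < e a' → u a' = 0}
  haveI : Fintype I := Fintype.ofFinite I
  have hI : ∀ a : I, ∃ u ∈ U, u a.1 ≠ 0 ∧ ∀ a', e a.1 < e a' → u a' = 0 := fun a => a.2
  choose u hu1 hu2 hu3 using hI
  have hli : LinearIndependent K u := by
    rw [Fintype.linearIndependent_iff]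
    intro c hc
    by_contra hne
    push Not at hne
    obtain ⟨a, ha, hmax⟩ := Finset.exists_max_image (Finset.univ.filter fun a : I => c a ≠ 0) (fun a => e a.1) (by
      obtain ⟨a, ha⟩ := hne
      exact ⟨a, by simpa using ha⟩)
    rw [Finset.mem_filter] at ha
    have h1 := congrFun hc a.1
    rw [Finset.sum_apply, Finset.sum_eq_single a] at h1
    · rw [Pi.smul_apply, smul_eq_mul, Pi.zero_apply] at h1
      rcases mul_eq_zero.1 h1 with h2 | h2
      · exact ha.2 h2
      · exact hu2 a h2
    · intro b _ hb
      rw [Pi.smul_apply, smul_eq_mul]
      by_cases hcb : c b = 0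
      · rw [hcb, zero_mul]
      · have h2 := hmax b (by simpa using hcb)
        have h3 : e b.1 < e a.1 := lt_of_le_of_ne h2 fun h4 => hb (Subtype.ext (he h4))
        rw [hu3 b a.1 h3, mul_zero]
    · exact fun h2 => absurd (Finset.mem_univ _) h2
  have hspan : ∀ N : ℕ, ∀ v ∈ U, (Finset.univ.filter fun a => ∃ a', e a ≤ e a' ∧ v a' ≠ 0).card ≤ N → v ∈ Submodule.span K (Set.range u) := by
    intro N
    induction N with
    | zero =>
      intro v _ hN
      have h1 : v = 0 := by
        funext a
        by_contra h2
        have h3 : a ∈ Finset.univ.filter fun a => ∃ a', e a ≤ e a' ∧ v a' ≠ 0 := by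
          rw [Finset.mem_filter]
          exact ⟨Finset.mem_univ _, a, le_rfl, h2⟩
        have := Finset.card_pos.2 ⟨a, h3⟩
        omega
      rw [h1]
      exact Submodule.zero_mem _
    | succ N ih =>
      intro v hv hN
      by_cases hv0 : v = 0
      · rw [hv0]
        exact Submodule.zero_mem _
      · obtain ⟨a, ha, hmax⟩ := Finset.exists_max_image (Finset.univ.filter fun a => v a ≠ 0) e (by
          by_contra h2
          apply hv0
          funext a
          by_contra h3
          exact h2 ⟨a, by simpa using h3⟩)
        rw [Finset.mem_filter] at ha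
        have hlead : ∀ a', e a < e a' → v a' = 0 := by
          intro a' h2
          by_contra h3
          have := hmax a' (by simpa using h3)
          exact absurd this (not_le.2 h2)
        let i : I := ⟨a, v, hv, ha.2, hlead⟩
        have hia : u i a ≠ 0 := hu2 i
        have hz : (v - (v a / u i a) • u i) a = 0 := by
          rw [Pi.sub_apply, Pi.smul_apply, smul_eq_mul, div_mul_cancel₀ _ hia, sub_self]
        have hz2 : ∀ a', e a < e a' → (v - (v a / u i a) • u i) a' = 0 := by
          intro a' h2
          rw [Pi.sub_apply, Pi.smul_apply, smul_eq_mul, hlead a' h2, hu3 i a' h2, mul_zero, sub_self]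
        have h4 : v - (v a / u i a) • u i ∈ Submodule.span K (Set.range u) := by
          refine ih _ (U.sub_mem hv (U.smul_mem _ (hu1 i))) ?_
          have h5 : (Finset.univ.filter fun b => ∃ a', e b ≤ e a' ∧ (v - (v a / u i a) • u i) a' ≠ 0) ⊆
              (Finset.univ.filter fun b => ∃ a', e b ≤ e a' ∧ v a' ≠ 0).erase a := by
            intro b hb
            rw [Finset.mem_filter] at hb
            obtain ⟨_, a', h6, h7⟩ := hb
            have h8 : e a' < e a := by
              rcases lt_trichotomy (e a') (e a) with h9 | h9 | h9
              · exact h9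
              · exact absurd (by rw [he h9]; exact hz) h7
              · exact absurd (hz2 a' h9) h7
            rw [Finset.mem_erase, Finset.mem_filter]
            refine ⟨fun h9 => ?_, Finset.mem_univ _, a, (h6.trans h8.le), ha.2⟩
            rw [h9] at h6
            exact absurd h6 (not_le.2 h8)
          have h6 := Finset.card_le_card h5
          rw [Finset.card_erase_of_mem (by
            rw [Finset.mem_filter]
            exact ⟨Finset.mem_univ _, a, le_rfl, ha.2⟩)] at h6
          omega
        have h5 : v = (v - (v a / u i a) • u i) + (v a / u i a) • u i := by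
          rw [sub_add_cancel]
        rw [h5]
        exact Submodule.add_mem _ h4 (Submodule.smul_mem _ _ (Submodule.subset_span ⟨i, rfl⟩))
  have hU : U = Submodule.span K (Set.range u) := by
    refine le_antisymm (fun v hv => hspan _ v hv le_rfl) (Submodule.span_le.2 ?_)
    rintro _ ⟨a, rfl⟩
    exact hu1 a
  have h9 := finrank_span_eq_card hli
  rw [← hU] at h9
  rw [h9]
  exact Nat.card_eq_fintype_card (α := I)

end H92B
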