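import Pool.Agent.Lib.H92B.Basic
import Pool.Agent.Lib.H92B.L3
import Pool.Agent.Lib.H92B.L4

/-!
# H92B, chunk L5

Stability of the multiplication of monomials. Order: e : Mon n m → Lex (Fin n →₀ ℕ), e μ = toLex μ (injective), a linear order with μ < μ' → μ + λ < μ' + λ (Finsupp.Lex instances; add_lt_add_left / right). For v = Pi.single λ 1 the value bl (tm n p m) K v u at b ∈ Mon n (m + p) is u (b - λ) if λ ≤ b and 0 otherwise (the a with λ + a = b).
TU ⊤ = ⊤: every b ∈ Mon n (m + p) is λ + a with λ ∈ Mon n p, a ∈ Mon n m, and bl (single λ) (single a) = Pi.single b 1; these span. Let U ≠ ⊥, ⊤, and L = the set of (the exponents of) the leading indices of U (l4): |L| = finrank U, so L is nonempty, and it is proper as finrank U < |Mon n m|. For μ ∈ L with witness u and λ ∈ Mon n p the vector bl (single λ) u ∈ TU has the value u μ ≠ 0 at λ + μ, and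
the value 0 at b with toLex (λ + μ) < toLex b (there u (b - λ) = 0 since toLex μ < toLex (b - λ)). So λ + μ is a leading index of TU, and finrank (TU) = number of leading indices ≥ |shf n p L|. By l3 finrank U * |Mon n (m + p)| = |L| * |A_(m+p)| < |shf n p L| * |A_m| ≤ finrank TU * |Mon n m|. (Fintype.card_coe.)
-/

open MvPolynomial

namespace H92B

theorem l5_val {n p m : ℕ} {K : Type} [Field K] (lam : Mon n p) (u : Mon n m → K) (b : Mon n (m + p)) :
    bl (tm n p m) K (Pi.single lam 1) u b = ∑ a : Mon n m, if (lam : Fin n →₀ ℕ) + (a : Fin n →₀ ℕ) = (b : Fin n →₀ ℕ) then u a else 0 := by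
  unfold bl
  rw [Finset.sum_eq_single lam]
  · refine Finset.sum_congr rfl fun a _ => ?_
    rw [Pi.single_eq_same, mul_one]
    unfold tm
    split_ifs
    · rw [Int.cast_one, one_mul]
    · rw [Int.cast_zero, zero_mul]
  · intro l _ hl
    refine Finset.sum_eq_zero fun a _ => ?_
    rw [Pi.single_eq_of_ne hl, mul_zero, zero_mul]
  · exact fun h => absurd (Finset.mem_univ _) h

theorem l5_at {n p m : ℕ} {K : Type} [Field K] (lam : Mon n p) (u : Mon n m → K) (a : Mon n m) (b : Mon n (m + p))
    (hb : (lam : Fin n →₀ ℕ) + (a : Fin n →₀ ℕ) = (b : Fin n →₀ ℕ)) : bl (tm n p m) K (Pi.single lam 1) u b = u a := by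
  rw [l5_val, Finset.sum_eq_single a]
  · rw [if_pos hb]
  · intro a' _ ha'
    rw [if_neg]
    intro h
    apply ha'
    exact Subtype.ext (add_left_cancel (h.trans hb.symm))
  · exact fun h => absurd (Finset.mem_univ _) h

theorem l5_ne {n p m : ℕ} {K : Type} [Field K] (lam : Mon n p) (u : Mon n m → K) (b : Mon n (m + p))
    (hb : bl (tm n p m) K (Pi.single lam 1) u b ≠ 0) : ∃ a : Mon n m, (lam : Fin n →₀ ℕ) + (a : Fin n →₀ ℕ) = (b : Fin n →₀ ℕ) ∧ u a ≠ 0 := by
  rw [l5_val] at hb
  obtain ⟨a, _, ha⟩ := Finset.exists_ne_zero_of_sum_ne_zero hb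
  by_cases h : (lam : Fin n →₀ ℕ) + (a : Fin n →₀ ℕ) = (b : Fin n →₀ ℕ)
  · rw [if_pos h] at ha
    exact ⟨a, h, ha⟩
  · rw [if_neg h] at ha
    exact absurd rfl ha

theorem l5 (n p m : ℕ) (hn : 1 ≤ n) (hp : 1 ≤ p) (K : Type) [Field K] : Stab (tm n p m) K := by
  classical
  constructor
  · rw [eq_top_iff]
    intro w _
    have hsingle : ∀ b : Mon n (m + p), (Pi.single b (1 : K) : Mon n (m + p) → K) ∈ TU (tm n p m) K ⊤ := by
      intro b
      have hb : ((b : Fin n →₀ ℕ)).degree = m + p := mem_An.1 b.2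
      -- split off a divisor of degree p
      have hsplit : ∀ q : ℕ, q ≤ m + p → ∃ e : Fin n →₀ ℕ, e ≤ (b : Fin n →₀ ℕ) ∧ e.degree = q := by
        intro q
        induction q with
        | zero => exact fun _ => ⟨0, fun a => Nat.zero_le _, map_zero _⟩
        | succ q ih =>
          intro hq
          obtain ⟨e, he1, he2⟩ := ih (by omega)
          obtain ⟨a, ha⟩ : ∃ a, e a < (b : Fin n →₀ ℕ) a := by
            by_contra h3
            push Not at h3
            have h4 : (b : Fin n →₀ ℕ) = e := le_antisymm (fun a => h3 a) he1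
            rw [h4, he2] at hb
            omega
          refine ⟨e + Finsupp.single a 1, fun c => ?_, by rw [map_add, he2, Finsupp.degree_single]⟩
          rw [Finsupp.add_apply, Finsupp.single_apply]
          split_ifs with h
          · subst h
            omega
          · rw [add_zero]
            exact he1 c
      obtain ⟨e, he1, he2⟩ := hsplit p (by omega)
      have hc : ((b : Fin n →₀ ℕ) - e).degree = m := by
        have h1 : e + ((b : Fin n →₀ ℕ) - e) = b := add_tsub_cancel_of_le he1
        rw [← h1, map_add, he2] at hb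
        omega
      refine Submodule.subset_span ⟨Pi.single ⟨e, mem_An.2 he2⟩ 1, Pi.single ⟨(b : Fin n →₀ ℕ) - e, mem_An.2 hc⟩ 1, Submodule.mem_top, ?_⟩
      funext b'
      by_cases hbb : b' = b
      · subst hbb
        rw [Pi.single_eq_same, l5_at _ _ ⟨(b' : Fin n →₀ ℕ) - e, mem_An.2 hc⟩ _ (add_tsub_cancel_of_le he1), Pi.single_eq_same]
      · rw [Pi.single_eq_of_ne hbb]
        by_contra h1
        obtain ⟨a, ha1, ha2⟩ := l5_ne _ _ _ (Ne.symm h1)
        have h2 : a = ⟨(b : Fin n →₀ ℕ) - e, mem_An.2 hc⟩ := by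
          by_contra h3
          exact ha2 (Pi.single_eq_of_ne h3 _)
        rw [h2] at ha1
        apply hbb
        apply Subtype.ext
        rw [← ha1]
        exact add_tsub_cancel_of_le he1
    have hw : w = ∑ b, w b • (Pi.single b (1 : K) : Mon n (m + p) → K) := by
      funext b'
      rw [Finset.sum_apply, Finset.sum_eq_single b']
      · rw [Pi.smul_apply, Pi.single_eq_same, smul_eq_mul, mul_one]
      · intro b _ hb
        rw [Pi.smul_apply, Pi.single_eq_of_ne (Ne.symm hb), smul_zero]
      · exact fun h => absurd (Finset.mem_univ _) h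
    rw [hw]
    exact Submodule.sum_mem _ fun b _ => Submodule.smul_mem _ _ (hsingle b)
  · intro U hU0 hU1
    let e : Mon n m → Lex (Fin n →₀ ℕ) := fun μ => toLex (μ : Fin n →₀ ℕ)
    let e' : Mon n (m + p) → Lex (Fin n →₀ ℕ) := fun μ => toLex (μ : Fin n →₀ ℕ)
    have he : Function.Injective e := fun a b h => Subtype.ext (toLex.injective h)
    have he' : Function.Injective e' := fun a b h => Subtype.ext (toLex.injective h)
    have c1 := l4 e he U
    have c2 := l4 e' he' (TU (tm n p m) K U)
    let S1 : Finset (Mon n m) := Finset.univ.filter fun a => ∃ u ∈ U, u a ≠ 0 ∧ ∀ a', e a < e a' → u a' = 0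
    let S2 : Finset (Mon n (m + p)) := Finset.univ.filter fun a => ∃ u ∈ TU (tm n p m) K U, u a ≠ 0 ∧ ∀ a', e' a < e' a' → u a' = 0
    have hS1 : S1.card = Module.finrank K U := by
      rw [← c1, Nat.card_eq_fintype_card, Fintype.card_subtype]
    have hS2 : S2.card = Module.finrank K (TU (tm n p m) K U) := by
      rw [← c2, Nat.card_eq_fintype_card, Fintype.card_subtype]
    let L : Finset (Fin n →₀ ℕ) := S1.map (Function.Embedding.subtype _)
    let L2 : Finset (Fin n →₀ ℕ) := S2.map (Function.Embedding.subtype _)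
    have hLc : L.card = Module.finrank K U := by
      rw [← hS1]
      exact Finset.card_map _
    have hL2c : L2.card = Module.finrank K (TU (tm n p m) K U) := by
      rw [← hS2]
      exact Finset.card_map _
    have hLsub : L ⊆ An n m := by
      intro x hx
      obtain ⟨a, _, rfl⟩ := Finset.mem_map.1 hx
      exact a.2
    have hLne : L.Nonempty := by
      rw [← Finset.card_pos, hLc]
      exact Nat.pos_of_ne_zero fun h => hU0 (Submodule.finrank_eq_zero.1 h)
    have hLprop : L ≠ An n m := by
      intro h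
      apply hU1
      refine Submodule.eq_top_of_finrank_eq ?_
      rw [← hLc, h, Module.finrank_fintype_fun_eq_card, Fintype.card_coe]
    have h3 := l3 n m p hn hp L hLsub hLne hLprop
    have hsub : shf n p L ⊆ L2 := by
      intro x hx
      unfold shf at hx
      obtain ⟨⟨μ, lam⟩, hx1, rfl⟩ := Finset.mem_image.1 hx
      rw [Finset.mem_product] at hx1
      obtain ⟨a, ha, ha2⟩ := Finset.mem_map.1 hx1.1
      change (a : Fin n →₀ ℕ) = μ at ha2
      obtain ⟨_, u, hu, hua, hlead⟩ := Finset.mem_filter.1 ha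
      have hb : μ + lam ∈ An n (m + p) := by
        rw [mem_An, map_add, mem_An.1 (hLsub hx1.1), mem_An.1 hx1.2]
      refine Finset.mem_map.2 ⟨⟨μ + lam, hb⟩, Finset.mem_filter.2 ⟨Finset.mem_univ _, bl (tm n p m) K (Pi.single ⟨lam, hx1.2⟩ 1) u,
        Submodule.subset_span ⟨_, u, hu, rfl⟩, ?_, fun b' hb' => ?_⟩, rfl⟩
      · rw [l5_at ⟨lam, hx1.2⟩ u a ⟨μ + lam, hb⟩ (by
          show lam + (a : Fin n →₀ ℕ) = μ + lam
          rw [ha2, add_comm])]
        exact hua
      · by_contra h4
        obtain ⟨a', ha'1, ha'2⟩ := l5_ne _ _ _ h4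
        apply ha'2
        apply hlead
        change toLex (a : Fin n →₀ ℕ) < toLex (a' : Fin n →₀ ℕ)
        change toLex (μ + lam) < toLex (b' : Fin n →₀ ℕ) at hb'
        change lam + (a' : Fin n →₀ ℕ) = (b' : Fin n →₀ ℕ) at ha'1
        rw [← ha'1, add_comm μ lam, toLex_add, toLex_add, ← ha2] at hb'
        exact lt_of_add_lt_add_left hb'
    have h5 := Finset.card_le_card hsub
    rw [hLc] at h3
    rw [hL2c] at h5
    rw [Fintype.card_coe, Fintype.card_coe]
    exact h3.trans_le (Nat.mul_le_mul_right _ h5)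

end H92B
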