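import Pool.Agent.Lib.H92B.Basic
import Pool.Agent.Lib.H92B.H1

/-!
# H92B, chunk N1

The proportions in the first family, n = N + 2. HK for i = 1, i' = 0: β 1 * ∏_{j ≠ 1} |d j - d 1| = β 0 * ∏_{j ≠ 0} |d j - d 0|, j in range (N + 3). ∏_{j ≠ 1} = |d 0 - d 1| * ∏_{2 ≤ q ≤ N + 2} |d q - d 1| = p * ∏_{2 ≤ q ≤ N + 2} (m + q - 1) = p * ∏_{r < N + 1} (m + r + 1) = p * |Mon (N + 2) m| * (N + 1)! (h1_prod), ∏_{j ≠ 0} = p * ∏_{2 ≤ q ≤ N + 2} (m + p + q - 1) = p * |Mon (N + 2) (m + p)| * (N + 1)!. Cancel p * (N + 1)! > 0.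
-/

open MvPolynomial

namespace H92B

theorem n1 (N p m : ℕ) (hp : 1 ≤ p) (d : ℕ → ℤ) (h1 : d 1 = d 0 + p) (h2 : ∀ q, 2 ≤ q → q ≤ N + 2 → d q = d 0 + (m + p + q) - 1)
    (β : ℕ → ℕ) (h : HK d (N + 2) β) :
    β 1 * Fintype.card (Mon (N + 2) m) = β 0 * Fintype.card (Mon (N + 2) (m + p)) := by
  have h3 := h 1 (by omega) 0 (by omega)
  have e1 : (Finset.range (N + 2 + 1)).erase 1 = insert 0 (Finset.Ico 2 (N + 3)) := by
    ext j
    simp only [Finset.mem_erase, Finset.mem_range, Finset.mem_insert, Finset.mem_Ico]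
    omega
  have e0 : (Finset.range (N + 2 + 1)).erase 0 = insert 1 (Finset.Ico 2 (N + 3)) := by
    ext j
    simp only [Finset.mem_erase, Finset.mem_range, Finset.mem_insert, Finset.mem_Ico]
    omega
  have n0 : (0 : ℕ) ∉ Finset.Ico 2 (N + 3) := by simp
  have n1 : (1 : ℕ) ∉ Finset.Ico 2 (N + 3) := by simp
  rw [e1, e0, Finset.prod_insert n0, Finset.prod_insert n1, Finset.prod_Ico_eq_prod_range, Finset.prod_Ico_eq_prod_range] at h3
  have p1 : ∏ r ∈ Finset.range (N + 3 - 2), |d (2 + r) - d 1| = ((Fintype.card (Mon (N + 2) m) * (N + 1).factorial : ℕ) : ℤ) := by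
    rw [h1_prod (N + 1) m, show N + 3 - 2 = N + 1 by omega]
    push_cast
    refine Finset.prod_congr rfl fun r hr => ?_
    rw [Finset.mem_range] at hr
    rw [h2 (2 + r) (by omega) (by omega), h1, abs_of_pos (by push_cast; omega)]
    push_cast
    ring
  have p0 : ∏ r ∈ Finset.range (N + 3 - 2), |d (2 + r) - d 0| = ((Fintype.card (Mon (N + 2) (m + p)) * (N + 1).factorial : ℕ) : ℤ) := by
    rw [h1_prod (N + 1) (m + p), show N + 3 - 2 = N + 1 by omega]
    push_cast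
    refine Finset.prod_congr rfl fun r hr => ?_
    rw [Finset.mem_range] at hr
    rw [h2 (2 + r) (by omega) (by omega), abs_of_pos (by push_cast; omega)]
    push_cast
    ring
  rw [p1, p0, h1, show d 0 - (d 0 + (p : ℤ)) = -(p : ℤ) by ring, abs_neg, show d 0 + (p : ℤ) - d 0 = (p : ℤ) by ring] at h3
  have hp' : |(p : ℤ)| = p := abs_of_nonneg (by positivity)
  rw [hp'] at h3
  have hF : ((p : ℤ) * (N + 1).factorial) ≠ 0 := by
    have := Nat.factorial_pos (N + 1)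
    positivity
  have h4 : ((β 1 * Fintype.card (Mon (N + 2) m) : ℕ) : ℤ) * ((p : ℤ) * (N + 1).factorial) =
      ((β 0 * Fintype.card (Mon (N + 2) (m + p)) : ℕ) : ℤ) * ((p : ℤ) * (N + 1).factorial) := by
    push_cast at h3 ⊢
    linear_combination h3
  exact_mod_cast mul_right_cancel₀ hF h4

end H92B
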