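import Pool.Agent.Lib.H92B.Basic

/-!
# H92B, chunk NR

Splitting a proportion. Let g = gcd(x', y') > 0, x' = g * u, y' = g * v with u, v coprime (Nat.exists_coprime). From X * x' = Y * y': X * u = Y * v, so v divides X (coprimality), X = r * v, and then Y = r * u. a0 = v, b0 = u: a0 * x' = v * g * u = u * (g * v) = b0 * y'.
-/

open MvPolynomial

namespace H92B

theorem nr (x y : ℕ) (hx : 0 < x) (hy : 0 < y) : ∃ a0 b0 : ℕ, 0 < a0 ∧ 0 < b0 ∧ a0 * x = b0 * y ∧
    ∀ X Y : ℕ, X * x = Y * y → ∃ r, X = r * a0 ∧ Y = r * b0 := by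
  obtain ⟨u, v, huv, hx', hy'⟩ := Nat.exists_coprime x y
  have hg : 0 < x.gcd y := Nat.gcd_pos_of_pos_left _ hx
  generalize x.gcd y = g at *
  subst hx' hy'
  have hu : 0 < u := Nat.pos_of_mul_pos_right hx
  have hv : 0 < v := Nat.pos_of_mul_pos_right hy
  refine ⟨v, u, hv, hu, by ring, fun X Y h => ?_⟩
  have h1 : X * u = Y * v := by
    have h2 : X * u * g = Y * v * g := by rw [mul_assoc, mul_assoc]; exact h
    exact Nat.eq_of_mul_eq_mul_right hg h2
  have h3 : v ∣ X * u := ⟨Y, by rw [h1, mul_comm]⟩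
  obtain ⟨r, rfl⟩ := huv.symm.dvd_of_dvd_mul_right h3
  refine ⟨r, mul_comm _ _, ?_⟩
  have h4 : r * u * v = Y * v := by rw [← h1]; ring
  exact (Nat.eq_of_mul_eq_mul_right hv h4).symm

end H92B
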