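import Pool.Agent.Lib.H92B.Basic
import Pool.Agent.Lib.H92B.H2A
import Pool.Agent.Lib.H92B.G3

/-!
# H92B, chunk H2

The alternating sum. Let D i = d i - d 0 (an integer), F i t = HM k n (β i) (t - D i), a finite-dimensional space (g3_fin). For i < s put e i = (d (i + 1) - d i).toNat, so (e i : ℤ) = d (i + 1) - d i; by h2a f i maps F (i + 1) t into F i t (t - D (i + 1) + e i = t - D i). Let r i t be the finrank of the image of F (i + 1) t under f i (as a k-subspace of Fin (β i) → P k n).
Rank-nullity for f i restricted to F (i + 1) t: finrank (F (i + 1) t) = r i t + finrank (ker of the restriction), and the kernel of the restriction is the image of F (i + 2) t under f (i + 1) (exactness hex and h2a; for i + 1 = s the space Fin (β (s + 1)) → P k n is zero as β (s + 1) = 0, and r s t = 0), so finrank (F (i + 1) t) = r i t + r (i + 1) t for i < s.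
For t ≥ t0 the image of F 1 t under f 0 is F 0 t (hypothesis hsurj and h2a), so finrank (F 0 t) = r 0 t (for s = 0: β 1 = 0, r 0 t = 0). Hence the alternating sum over i ≤ s of (-1)^i finrank (F i t) telescopes to (-1)^s r s t = 0 (prove by induction on m ≤ s that the sum over i ≤ m is (-1)^m r m t). For t ≥ t1 := max of t0 and all the D i (i ≤ s),
t - D i is a natural number and finrank (F i t) = β i * Fintype.card (Mon n (t - D i).toNat) (g3_rank).
-/

open MvPolynomial

namespace H92B

theorem h2_rn {k : Type} [Field k] {M M' : Type} [AddCommGroup M] [Module k M] [AddCommGroup M'] [Module k M'] (V : Submodule k M)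
    [FiniteDimensional k V] (F : M →ₗ[k] M') :
    Module.finrank k V = Module.finrank k (V.map F) + Module.finrank k (V ⊓ LinearMap.ker F : Submodule k M) := by
  have h1 := LinearMap.finrank_range_add_finrank_ker (F.domRestrict V)
  rw [LinearMap.range_domRestrict, LinearMap.ker_domRestrict] at h1
  rw [← h1]
  congr 1
  rw [← Submodule.map_comap_subtype, Submodule.finrank_map_subtype_eq]

theorem h2 {k : Type} [Field k] {n s : ℕ} (d : ℕ → ℤ) (hd : ∀ i < s, d i < d (i + 1)) (β : ℕ → ℕ) (hβ : ∀ i, s < i → β i = 0)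
    (f : (i : ℕ) → (Fin (β (i + 1)) → P k n) →ₗ[P k n] (Fin (β i) → P k n))
    (hhom : ∀ (i : ℕ) (a : Fin (β i)) (b : Fin (β (i + 1))), (f i (Pi.single b 1) a).IsHomogeneous (d (i + 1) - d i).toNat)
    (hex : ∀ i : ℕ, LinearMap.range (f (i + 1)) = LinearMap.ker (f i))
    (t0 : ℤ) (hsurj : ∀ t, t0 ≤ t → ∀ x ∈ HM k n (β 0) t, x ∈ LinearMap.range (f 0)) :
    ∃ t1 : ℤ, ∀ t : ℤ, t1 ≤ t →
      ∑ i ∈ Finset.range (s + 1), (-1 : ℤ) ^ i * (β i : ℤ) * (Fintype.card (Mon n (t - (d i - d 0)).toNat) : ℤ) = 0 := by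
  let t1 : ℤ := |t0| + ∑ i ∈ Finset.range (s + 1), |d i - d 0|
  refine ⟨t1, fun t ht => ?_⟩
  let V : (i : ℕ) → Submodule k (Fin (β i) → P k n) := fun i => HM k n (β i) (t - (d i - d 0))
  let F : (i : ℕ) → (Fin (β (i + 1)) → P k n) →ₗ[k] (Fin (β i) → P k n) := fun i => (f i).restrictScalars k
  have hfd : ∀ i, FiniteDimensional k (V i) := fun i => g3_fin k n (β i) _
  have htriv : ∀ x : Fin (β (s + 1)) → P k n, x = 0 := by
    intro x
    funext i
    have h1 := hβ (s + 1) (by omega)
    exact (Fin.cast h1 i).elim0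
  have hA : ∀ i ≤ s, ∀ x ∈ V i, x ∈ LinearMap.range (f i) → ∃ y ∈ V (i + 1), f i y = x := by
    intro i hi x hx hx2
    by_cases his : i = s
    · subst his
      obtain ⟨y, rfl⟩ := hx2
      refine ⟨y, ?_, rfl⟩
      rw [htriv y]
      exact Submodule.zero_mem _
    · obtain ⟨y, hy1, hy2⟩ := (h2a (f i) (d (i + 1) - d i).toNat (fun b a => hhom i a b)).2 _ x hx hx2
      refine ⟨y, ?_, hy2⟩
      have h1 := hd i (by omega)
      have h2 : t - (d i - d 0) - ((d (i + 1) - d i).toNat : ℤ) = t - (d (i + 1) - d 0) := by omega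
      rw [h2] at hy1
      exact hy1
  have hB : ∀ i ≤ s, ∀ y ∈ V (i + 1), f i y ∈ V i := by
    intro i hi y hy
    by_cases his : i = s
    · subst his
      rw [htriv y, map_zero]
      exact Submodule.zero_mem _
    · have h1 := (h2a (f i) (d (i + 1) - d i).toNat (fun b a => hhom i a b)).1 _ y hy
      have h3 := hd i (by omega)
      have h2 : t - (d (i + 1) - d 0) + ((d (i + 1) - d i).toNat : ℤ) = t - (d i - d 0) := by omega
      rw [h2] at h1
      exact h1
  have hC : ∀ i < s, (V (i + 1) ⊓ LinearMap.ker (F i) : Submodule k _) = (V (i + 2)).map (F (i + 1)) := by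
    intro i hi
    ext x
    constructor
    · rintro ⟨hx1, hx2⟩
      have h1 : x ∈ LinearMap.range (f (i + 1)) := by
        rw [hex i]
        exact hx2
      obtain ⟨y, hy1, hy2⟩ := hA (i + 1) (by omega) x hx1 h1
      exact ⟨y, hy1, hy2⟩
    · rintro ⟨y, hy1, rfl⟩
      refine ⟨hB (i + 1) (by omega) y hy1, ?_⟩
      have h1 : f (i + 1) y ∈ LinearMap.ker (f i) := by
        rw [← hex i]
        exact ⟨y, rfl⟩
      exact h1
  let r : ℕ → ℕ := fun i => Module.finrank k ((V (i + 1)).map (F i))
  have hr : ∀ i < s, Module.finrank k (V (i + 1)) = r i + r (i + 1) := by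
    intro i hi
    have := hfd (i + 1)
    rw [h2_rn (V (i + 1)) (F i), hC i hi]
  have hr0 : Module.finrank k (V 0) = r 0 := by
    have h1 : (V 1).map (F 0) = V 0 := by
      ext x
      constructor
      · rintro ⟨y, hy1, rfl⟩
        exact hB 0 (Nat.zero_le _) y hy1
      · intro hx
        have h2 : x ∈ LinearMap.range (f 0) := by
          have hx' : x ∈ HM k n (β 0) (t - (d 0 - d 0)) := hx
          rw [sub_self, sub_zero] at hx'
          refine hsurj t ?_ x hx'
          have h3 : 0 ≤ ∑ i ∈ Finset.range (s + 1), |d i - d 0| := Finset.sum_nonneg fun _ _ => abs_nonneg _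
          have h4 := le_abs_self t0
          have h5 : t1 = |t0| + ∑ i ∈ Finset.range (s + 1), |d i - d 0| := rfl
          omega
        obtain ⟨y, hy1, hy2⟩ := hA 0 (Nat.zero_le _) x hx h2
        exact ⟨y, hy1, hy2⟩
    show _ = Module.finrank k ((V 1).map (F 0))
    rw [h1]
  have hrs : r s = 0 := by
    have h1 : (V (s + 1)).map (F s) = ⊥ := by
      rw [eq_bot_iff]
      rintro _ ⟨y, _, rfl⟩
      rw [htriv y, map_zero]
      exact Submodule.zero_mem _
    show Module.finrank k ((V (s + 1)).map (F s)) = 0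
    rw [h1]
    exact finrank_bot _ _
  have hsum : ∀ m ≤ s, ∑ i ∈ Finset.range (m + 1), (-1 : ℤ) ^ i * (Module.finrank k (V i) : ℤ) = (-1) ^ m * (r m : ℤ) := by
    intro m
    induction m with
    | zero =>
      intro _
      rw [Finset.sum_range_one, hr0]
    | succ m ih =>
      intro hm
      rw [Finset.sum_range_succ, ih (by omega), hr m (by omega)]
      push_cast
      ring
  have h1 := hsum s le_rfl
  rw [hrs, Nat.cast_zero, mul_zero] at h1
  rw [← h1]
  refine Finset.sum_congr rfl fun i hi => ?_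
  have h2 : 0 ≤ t - (d i - d 0) := by
    have h3 : |d i - d 0| ≤ ∑ i ∈ Finset.range (s + 1), |d i - d 0| :=
      Finset.single_le_sum (f := fun i => |d i - d 0|) (fun _ _ => abs_nonneg _) hi
    have h4 := le_abs_self (d i - d 0)
    have h5 := abs_nonneg t0
    have h6 : t1 = |t0| + ∑ i ∈ Finset.range (s + 1), |d i - d 0| := rfl
    omega
  have h3 : Module.finrank k (V i) = β i * Fintype.card (Mon n (t - (d i - d 0)).toNat) := by
    have h4 := g3_rank k n (β i) (t - (d i - d 0)).toNat
    rw [Int.toNat_of_nonneg h2] at h4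
    exact h4
  rw [h3]
  push_cast
  ring

end H92B
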