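import Pool.Agent.Lib.H92B.Basic

/-!
# H92B, chunk H3A

Let p be a polynomial over ℚ of degree N (exactly), c and D finite families with sum over i of c i * p(t - D i) = 0 for all large integers t. Then sum over i of c i * (D i)^r = 0 for r ≤ N. Proof: the polynomial F(t) = sum of c i * p(t - D i) (Polynomial.comp with X - C (D i)) has infinitely many zeros, so F = 0.
Show by induction on r ≤ N that m_l := sum of c i * (D i)^l vanishes for l ≤ r: by Taylor, p(t - x) = sum over l ≤ N of q_l(t) * x^l with q_l of degree N - l exactly (q_l = (-1)^l * hasseDeriv l p, with leading coefficient (-1)^l * choose N l * leadingCoeff p ≠ 0). So F = sum over l ≤ N of m_l * q_l = 0. If not all m_l vanish take the least l with m_l ≠ 0: the coefficient of t^(N-l) of F is m_l * leading coefficient of q_l ≠ 0 (the q_l' with l' > l have smaller degree), a contradiction.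
Alternative: coefficient extraction one at a time. Any proof is fine. The last statement: for a polynomial Q of degree at most N, Q = sum of Q.coeff r * X^r.
-/

open MvPolynomial

namespace H92B

theorem h3a_poly {ι : Type} [Fintype ι] (c D : ι → ℚ) (N : ℕ) : ∀ (p : Polynomial ℚ), p.natDegree = N → p ≠ 0 →
    (∑ i, Polynomial.C (c i) * p.comp (Polynomial.X - Polynomial.C (D i)) = 0) → ∀ Q : Polynomial ℚ, Q.natDegree ≤ N →
    ∑ i, c i * Q.eval (D i) = 0 := by
  induction N with
  | zero =>
    intro p hp hp0 h Q hQ
    obtain ⟨a, rfl⟩ := Polynomial.natDegree_eq_zero.1 hp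
    obtain ⟨b, rfl⟩ := Polynomial.natDegree_eq_zero.1 (Nat.le_zero.1 hQ)
    have ha : a ≠ 0 := fun h1 => hp0 (by rw [h1, Polynomial.C_0])
    have h1 := congrArg (Polynomial.eval 0) h
    simp only [Polynomial.C_comp, Polynomial.eval_finsetSum, Polynomial.eval_mul, Polynomial.eval_C, Polynomial.eval_zero,
      ← Finset.sum_mul] at h1
    have h2 : ∑ i, c i = 0 := (mul_eq_zero.1 h1).resolve_right ha
    simp only [Polynomial.eval_C, ← Finset.sum_mul, h2, zero_mul]
  | succ N ih =>
    intro p hp hp0 h Q hQ
    have hd : (Polynomial.derivative p).natDegree = N := by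
      have := Polynomial.degree_derivative_eq p (by omega)
      rw [hp] at this
      simpa using Polynomial.natDegree_eq_of_degree_eq_some this
    have hd0 : Polynomial.derivative p ≠ 0 := by
      intro h1
      have h2 := Polynomial.derivative_eq_zero.1 h1
      omega
    have hder : ∑ i, Polynomial.C (c i) * (Polynomial.derivative p).comp (Polynomial.X - Polynomial.C (D i)) = 0 := by
      have h1 := congrArg Polynomial.derivative h
      rw [Polynomial.derivative_sum, Polynomial.derivative_zero] at h1
      rw [← h1]
      refine Finset.sum_congr rfl fun i _ => ?_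
      rw [Polynomial.derivative_C_mul, Polynomial.derivative_comp]
      simp
    have hih := ih _ hd hd0 hder
    let q : Polynomial ℚ := p.comp (-Polynomial.X)
    have hq : q.natDegree = N + 1 := by
      show (p.comp (-Polynomial.X)).natDegree = _
      rw [Polynomial.natDegree_comp, Polynomial.natDegree_neg, Polynomial.natDegree_X, mul_one, hp]
    have hq0 : q.coeff (N + 1) ≠ 0 := by
      rw [← hq]
      intro h1
      have h2 := Polynomial.leadingCoeff_eq_zero.1 h1
      rw [h2, Polynomial.natDegree_zero] at hq
      omega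
    have hLq : ∑ i, c i * q.eval (D i) = 0 := by
      have h1 := congrArg (Polynomial.eval 0) h
      simp only [Polynomial.eval_finsetSum, Polynomial.eval_mul, Polynomial.eval_C, Polynomial.eval_zero, Polynomial.eval_comp,
        Polynomial.eval_sub, Polynomial.eval_X, zero_sub] at h1
      rw [← h1]
      refine Finset.sum_congr rfl fun i _ => ?_
      show c i * (p.comp (-Polynomial.X)).eval (D i) = _
      rw [Polynomial.eval_comp, Polynomial.eval_neg, Polynomial.eval_X]
    let a : ℚ := Q.coeff (N + 1) / q.coeff (N + 1)
    have h3 := hih (Q - Polynomial.C a * q) (by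
      have h4 : (Q - Polynomial.C a * q).natDegree ≤ N + 1 := by
        refine (Polynomial.natDegree_sub_le _ _).trans (max_le hQ ?_)
        exact (Polynomial.natDegree_C_mul_le _ _).trans hq.le
      have h5 : (Q - Polynomial.C a * q).coeff (N + 1) = 0 := by
        rw [Polynomial.coeff_sub, Polynomial.coeff_C_mul]
        show _ - Q.coeff (N + 1) / q.coeff (N + 1) * _ = 0
        rw [div_mul_cancel₀ _ hq0, sub_self]
      by_contra h6
      have h7 : (Q - Polynomial.C a * q).natDegree = N + 1 := by omega
      rw [← h7] at h5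
      have h8 := Polynomial.leadingCoeff_eq_zero.1 h5
      rw [h8, Polynomial.natDegree_zero] at h7
      omega)
    have h4 : ∑ i, c i * Q.eval (D i) = ∑ i, c i * (Q - Polynomial.C a * q).eval (D i) + a * ∑ i, c i * q.eval (D i) := by
      rw [Finset.mul_sum, ← Finset.sum_add_distrib]
      refine Finset.sum_congr rfl fun i _ => ?_
      rw [Polynomial.eval_sub, Polynomial.eval_mul, Polynomial.eval_C]
      ring
    rw [h4, h3, hLq, mul_zero, add_zero]

theorem h3a {ι : Type} [Fintype ι] (N : ℕ) (p : Polynomial ℚ) (hp : p.natDegree = N) (hp0 : p ≠ 0) (c D : ι → ℚ) (t1 : ℤ)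
    (h : ∀ t : ℤ, t1 ≤ t → ∑ i, c i * p.eval ((t : ℚ) - D i) = 0) (Q : Polynomial ℚ) (hQ : Q.natDegree ≤ N) :
    ∑ i, c i * Q.eval (D i) = 0 := by
  refine h3a_poly c D N p hp hp0 ?_ Q hQ
  refine Polynomial.eq_zero_of_infinite_isRoot _ ?_
  have h1 : (Set.range fun m : ℕ => ((t1 + m : ℤ) : ℚ)).Infinite := by
    refine Set.infinite_range_of_injective fun a b hab => ?_
    have h2 : (t1 + a : ℤ) = t1 + b := by exact_mod_cast hab
    omega
  refine h1.mono ?_
  rintro _ ⟨m, rfl⟩
  show Polynomial.eval _ _ = 0
  rw [Polynomial.eval_finsetSum, ← h (t1 + m) (by omega)]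
  refine Finset.sum_congr rfl fun i _ => ?_
  rw [Polynomial.eval_mul, Polynomial.eval_C, Polynomial.eval_comp, Polynomial.eval_sub, Polynomial.eval_X, Polynomial.eval_C]

end H92B
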