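import Pool.Agent.Lib.H92B.Basic
import Pool.Agent.Lib.H92B.H3A
import Pool.Agent.Lib.H92B.H1

/-!
# H92B, chunk H3

The alternating sum gives the Herzog-Kuehl proportions, n = s = N + 1. By h1_prod the numbers Fintype.card (Mon (N + 1) m) equal p(m) for the polynomial p(x) = (1 / N!) * product over r < N of (x + r + 1), of degree N. Replace t1 by a number which is also at least all d i - d 0 (i ≤ s); then for t ≥ t1 and i ≤ s, (t - (d i - d 0)).toNat is t - (d i - d 0).
h3a (ι = Fin (N + 2), c i = (-1)^i β i, D i = d i - d 0) gives: sum over i ≤ N + 1 of (-1)^i β i Q(d i - d 0) = 0 for all Q of degree ≤ N. For i ≠ i' take Q = the product over j ≠ i, i' of (x - (d j - d 0)), of degree N (there are N + 2 indices); all the terms but i, i' vanish: (-1)^i β i ∏_{j ≠ i, i'} (d i - d j) = - (-1)^i' β i' ∏_{j ≠ i, i'} (d i' - d j).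
Multiply by (d i - d i'): (-1)^i β i ∏_{j ≠ i} (d i - d j) = (-1)^i' β i' ∏_{j ≠ i'} (d i' - d j). As d is strictly increasing on 0, .., s, ∏_{j ≠ i} (d i - d j) = (-1)^(s - i) ∏_{j ≠ i} |d j - d i| (the factors with j > i are negative and there are s - i of them), so both sides are (-1)^s times the two sides of HK. For i = i' trivial.
-/

open MvPolynomial

namespace H92B

theorem h3_lt (s : ℕ) (d : ℕ → ℤ) (hd : ∀ i < s, d i < d (i + 1)) (i j : ℕ) (hij : i < j) (hj : j ≤ s) : d i < d j := by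
  obtain ⟨e, rfl⟩ : ∃ e, j = i + (e + 1) := ⟨j - i - 1, by omega⟩
  clear hij
  induction e with
  | zero => exact hd i (by omega)
  | succ e ih => exact (ih (by omega)).trans (hd (i + (e + 1)) (by omega))

theorem h3_sign (s : ℕ) (d : ℕ → ℤ) (hd : ∀ i < s, d i < d (i + 1)) (i : ℕ) (hi : i ≤ s) :
    (-1 : ℤ) ^ i * ∏ j ∈ (Finset.range (s + 1)).erase i, (d i - d j) =
      (-1 : ℤ) ^ s * ∏ j ∈ (Finset.range (s + 1)).erase i, |d j - d i| := by
  have h1 : ∀ j ∈ (Finset.range (s + 1)).erase i, d i - d j = (if i < j then -1 else 1) * |d j - d i| := by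
    intro j hj
    rw [Finset.mem_erase, Finset.mem_range] at hj
    rcases lt_or_gt_of_ne hj.1 with h2 | h2
    · have h3 := h3_lt s d hd j i h2 hi
      rw [if_neg (by omega), abs_of_neg (by omega)]
      ring
    · have h3 := h3_lt s d hd i j h2 (by omega)
      rw [if_pos h2, abs_of_pos (by omega)]
      ring
  rw [Finset.prod_congr rfl h1, Finset.prod_mul_distrib, Finset.prod_ite, Finset.prod_const, Finset.prod_const_one, mul_one]
  have h2 : ((Finset.range (s + 1)).erase i).filter (fun j => i < j) = Finset.Ioc i s := by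
    ext j
    simp only [Finset.mem_filter, Finset.mem_erase, Finset.mem_range, Finset.mem_Ioc]
    omega
  rw [h2, Nat.card_Ioc, ← mul_assoc, ← pow_add, show i + (s - i) = s by omega]

theorem h3 (N : ℕ) (d : ℕ → ℤ) (hd : ∀ i < N + 1, d i < d (i + 1)) (β : ℕ → ℕ) (t1 : ℤ)
    (h : ∀ t : ℤ, t1 ≤ t → ∑ i ∈ Finset.range (N + 2), (-1 : ℤ) ^ i * (β i : ℤ) *
      (Fintype.card (Mon (N + 1) (t - (d i - d 0)).toNat) : ℤ) = 0) :
    HK d (N + 1) β := by
  -- the polynomial p
  let p : Polynomial ℚ := Polynomial.C ((N.factorial : ℚ)⁻¹) * ∏ r ∈ Finset.range N, (Polynomial.X + Polynomial.C ((r : ℚ) + 1))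
  have hfac : (N.factorial : ℚ) ≠ 0 := by exact_mod_cast (Nat.factorial_pos N).ne'
  have hprodne : ∏ r ∈ Finset.range N, (Polynomial.X + Polynomial.C ((r : ℚ) + 1)) ≠ 0 :=
    Finset.prod_ne_zero_iff.2 fun r _ => Polynomial.X_add_C_ne_zero _
  have hp : p.natDegree = N := by
    show (Polynomial.C ((N.factorial : ℚ)⁻¹) * ∏ r ∈ Finset.range N, (Polynomial.X + Polynomial.C ((r : ℚ) + 1))).natDegree = N
    rw [Polynomial.natDegree_C_mul (inv_ne_zero hfac), Polynomial.natDegree_prod _ _ fun r _ => Polynomial.X_add_C_ne_zero _]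
    rw [Finset.sum_congr rfl fun r _ => Polynomial.natDegree_X_add_C _]
    simp
  have hp0 : p ≠ 0 := mul_ne_zero (Polynomial.C_ne_zero.2 (inv_ne_zero hfac)) hprodne
  have hpe : ∀ m : ℕ, p.eval (m : ℚ) = (Fintype.card (Mon (N + 1) m) : ℚ) := by
    intro m
    have h1 := h1_prod N m
    have h2 : (Fintype.card (Mon (N + 1) m) : ℚ) * N.factorial = ∏ r ∈ Finset.range N, ((m : ℚ) + r + 1) := by
      exact_mod_cast h1
    show (Polynomial.C ((N.factorial : ℚ)⁻¹) * ∏ r ∈ Finset.range N, (Polynomial.X + Polynomial.C ((r : ℚ) + 1))).eval (m : ℚ) = _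
    rw [Polynomial.eval_mul, Polynomial.eval_C, Polynomial.eval_prod]
    have h3 : ∏ r ∈ Finset.range N, (Polynomial.X + Polynomial.C ((r : ℚ) + 1)).eval (m : ℚ) = ∏ r ∈ Finset.range N, ((m : ℚ) + r + 1) :=
      Finset.prod_congr rfl fun r _ => by
        rw [Polynomial.eval_add, Polynomial.eval_X, Polynomial.eval_C]
        ring
    rw [h3, ← h2]
    field_simp
  let t2 : ℤ := |t1| + ∑ i ∈ Finset.range (N + 2), |d i - d 0|
  have hL : ∀ Q : Polynomial ℚ, Q.natDegree ≤ N →
      ∑ i : Fin (N + 2), ((-1 : ℚ) ^ (i : ℕ) * (β i : ℚ)) * Q.eval (((d i - d 0 : ℤ) : ℚ)) = 0 := by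
    intro Q hQ
    refine h3a N p hp hp0 (fun i : Fin (N + 2) => (-1 : ℚ) ^ (i : ℕ) * (β i : ℚ)) (fun i : Fin (N + 2) => ((d i - d 0 : ℤ) : ℚ)) t2
      (fun t ht => ?_) Q hQ
    have hsn : 0 ≤ ∑ i ∈ Finset.range (N + 2), |d i - d 0| := Finset.sum_nonneg fun _ _ => abs_nonneg _
    have ht2 : t2 = |t1| + ∑ i ∈ Finset.range (N + 2), |d i - d 0| := rfl
    have h1 := h t (by
      have := le_abs_self t1
      omega)
    rw [Finset.sum_range] at h1
    have h2 : (((∑ i : Fin (N + 2), (-1 : ℤ) ^ (i : ℕ) * (β i : ℤ) * (Fintype.card (Mon (N + 1) (t - (d i - d 0)).toNat) : ℤ)) : ℤ) : ℚ) = 0 := by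
      rw [h1]
      rfl
    rw [← h2]
    push_cast
    refine Finset.sum_congr rfl fun i _ => ?_
    have h3 : 0 ≤ t - (d i - d 0) := by
      have h4 : |d i - d 0| ≤ ∑ i ∈ Finset.range (N + 2), |d i - d 0| :=
        Finset.single_le_sum (f := fun i => |d i - d 0|) (fun _ _ => abs_nonneg _) (Finset.mem_range.2 i.2)
      have h5 := le_abs_self (d i - d 0)
      have h6 := abs_nonneg t1
      omega
    rw [← hpe]
    congr 2
    have h4 : (((t - (d i - d 0)).toNat : ℤ) : ℚ) = ((t - (d i - d 0) : ℤ) : ℚ) := by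
      rw [Int.toNat_of_nonneg h3]
    rw [Int.cast_natCast] at h4
    rw [h4]
    push_cast
    ring
  -- the proportions
  intro i hi i' hi'
  by_cases hii : i = i'
  · rw [hii]
  · let S : Finset ℕ := ((Finset.range (N + 2)).erase i).erase i'
    let Q : Polynomial ℚ := ∏ j ∈ S, (Polynomial.X - Polynomial.C ((d j - d 0 : ℤ) : ℚ))
    have hi'S : i' ∈ (Finset.range (N + 2)).erase i := Finset.mem_erase.2 ⟨Ne.symm hii, Finset.mem_range.2 (by omega)⟩
    have hcard : S.card = N := by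
      show (((Finset.range (N + 2)).erase i).erase i').card = N
      rw [Finset.card_erase_of_mem hi'S, Finset.card_erase_of_mem (Finset.mem_range.2 (by omega)), Finset.card_range]
      omega
    have hQ : Q.natDegree ≤ N := by
      show (∏ j ∈ S, (Polynomial.X - Polynomial.C ((d j - d 0 : ℤ) : ℚ))).natDegree ≤ N
      rw [Polynomial.natDegree_prod _ _ fun j _ => Polynomial.X_sub_C_ne_zero _]
      rw [Finset.sum_congr rfl fun r _ => Polynomial.natDegree_X_sub_C _]
      simp [hcard]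
    have hQe : ∀ l, Q.eval ((d l - d 0 : ℤ) : ℚ) = ((∏ j ∈ S, (d l - d j) : ℤ) : ℚ) := by
      intro l
      show (∏ j ∈ S, (Polynomial.X - Polynomial.C ((d j - d 0 : ℤ) : ℚ))).eval _ = _
      rw [Polynomial.eval_prod]
      push_cast
      refine Finset.prod_congr rfl fun j _ => ?_
      rw [Polynomial.eval_sub, Polynomial.eval_X, Polynomial.eval_C]
      ring
    have h1 := hL Q hQ
    have h2 : ∑ l ∈ Finset.range (N + 2), (-1 : ℤ) ^ l * (β l : ℤ) * ∏ j ∈ S, (d l - d j) = 0 := by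
      rw [Finset.sum_range]
      have h3 : (((∑ l : Fin (N + 2), (-1 : ℤ) ^ (l : ℕ) * (β l : ℤ) * ∏ j ∈ S, (d l - d j)) : ℤ) : ℚ) = 0 := by
        rw [← h1]
        push_cast
        refine Finset.sum_congr rfl fun l _ => ?_
        have h4 := hQe l
        push_cast at h4
        rw [h4]
      exact_mod_cast h3
    have h3 : ∀ l ∈ Finset.range (N + 2), l ∉ ({i, i'} : Finset ℕ) → (-1 : ℤ) ^ l * (β l : ℤ) * ∏ j ∈ S, (d l - d j) = 0 := by
      intro l hl hl2
      rw [Finset.mem_insert, Finset.mem_singleton, not_or] at hl2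
      have h4 : l ∈ S := Finset.mem_erase.2 ⟨hl2.2, Finset.mem_erase.2 ⟨hl2.1, hl⟩⟩
      rw [Finset.prod_eq_zero h4 (sub_self _), mul_zero]
    have hsub : ({i, i'} : Finset ℕ) ⊆ Finset.range (N + 2) := by
      intro l hl
      rw [Finset.mem_insert, Finset.mem_singleton] at hl
      rw [Finset.mem_range]
      omega
    rw [← Finset.sum_subset hsub h3, Finset.sum_pair hii] at h2
    have hP : ∏ j ∈ (Finset.range (N + 1 + 1)).erase i, (d i - d j) = (d i - d i') * ∏ j ∈ S, (d i - d j) :=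
      (Finset.mul_prod_erase _ _ hi'S).symm
    have hP' : ∏ j ∈ (Finset.range (N + 1 + 1)).erase i', (d i' - d j) = (d i' - d i) * ∏ j ∈ S, (d i' - d j) := by
      have h4 : S = ((Finset.range (N + 2)).erase i').erase i := Finset.erase_right_comm
      have h5 : i ∈ (Finset.range (N + 2)).erase i' := Finset.mem_erase.2 ⟨hii, Finset.mem_range.2 (by omega)⟩
      rw [h4]
      exact (Finset.mul_prod_erase _ _ h5).symm
    have hs := h3_sign (N + 1) d hd i hi
    have hs' := h3_sign (N + 1) d hd i' hi'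
    rw [hP] at hs
    rw [hP'] at hs'
    have h6 : (-1 : ℤ) ^ (N + 1) ≠ 0 := pow_ne_zero _ (by norm_num)
    refine mul_left_cancel₀ h6 ?_
    linear_combination (d i - d i') * h2 - (β i : ℤ) * hs + (β i' : ℤ) * hs'


end H92B
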