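import Pool.Agent.Lib.H92B.Basic

/-!
# H92B, chunk H5

Uniqueness. For i ≤ s: HK for (i, 0) gives β i * Π_i = β 0 * Π_0 = β' 0 * Π_0 = β' i * Π_i with Π_i = ∏ over j ∈ (range (s + 1)).erase i of |d j - d i| ≠ 0, since d is strictly increasing on 0, .., s (so d j ≠ d i). For i > s both are 0.
-/

open MvPolynomial

namespace H92B

theorem h5 (s : ℕ) (d : ℕ → ℤ) (hd : ∀ i < s, d i < d (i + 1)) (β β' : ℕ → ℕ) (h : HK d s β) (h' : HK d s β')
    (h0 : β 0 = β' 0) (hz : ∀ i, s < i → β i = 0) (hz' : ∀ i, s < i → β' i = 0) : β = β' := by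
  have hne : ∀ i e : ℕ, i + (e + 1) ≤ s → d i < d (i + (e + 1)) := by
    intro i e
    induction e with
    | zero => exact fun h => hd i (by omega)
    | succ e ih => exact fun h => (ih (by omega)).trans (hd (i + (e + 1)) (by omega))
  have hne2 : ∀ i ≤ s, ∀ j ≤ s, j ≠ i → d j - d i ≠ 0 := by
    intro i hi j hj hij
    rcases lt_or_gt_of_ne hij with h1 | h1
    · have := hne j (i - j - 1) (by omega)
      rw [show j + (i - j - 1 + 1) = i by omega] at this
      omega
    · have := hne i (j - i - 1) (by omega)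
      rw [show i + (j - i - 1 + 1) = j by omega] at this
      omega
  funext i
  by_cases hi : i ≤ s
  · have h1 := h i hi 0 (Nat.zero_le _)
    have h2 := h' i hi 0 (Nat.zero_le _)
    rw [h0, ← h2] at h1
    have h3 : ∏ j ∈ (Finset.range (s + 1)).erase i, |d j - d i| ≠ 0 := by
      refine Finset.prod_ne_zero_iff.2 fun j hj => abs_ne_zero.2 ?_
      rw [Finset.mem_erase, Finset.mem_range] at hj
      exact hne2 i hi j (by omega) hj.1
    exact_mod_cast mul_right_cancel₀ h3 h1
  · rw [hz i (by omega), hz' i (by omega)]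

end H92B
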