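import Pool.Agent.Lib.H92B.Basic

/-!
# H92B, chunk R2

Generation. (a) g j = ⊥ for j < e: for j < L this is hL; strong induction upward: if j < e and g (j - 1) = ⊥ then by gen_of_HV every y ∈ g j is a sum of X a • z a with z a ∈ g (j - 1) = ⊥, so y = 0. (To set up the induction: prove for all t : ℕ that g j = ⊥ for all j < e with j < L + t.)
(b) by induction on t : ℕ: every y ∈ g (e + t) is π x for some x ∈ HM t. t = 0: y is a k-combination of the w b (hw2), y = sum of c b • w b, take x b = C (c b) (C_mem_hm; the scalar action is compatible by IsScalarTower, C c • m = c • m: use algebraMap_smul or MvPolynomial.algebraMap_eq). t + 1: y = sum of X a • z a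
with z a ∈ g (e + t), z a = π (x a), take the sum of X a • x a (HM_X). For negative t: y ∈ g (e + t) = ⊥ and x = 0.
(c) π x ∈ g (e + j) for x ∈ HM j: π x = sum over b of x b • w b; for j < 0 x = 0 (HM_neg). For p homogeneous of degree j and m ∈ g e, p • m ∈ g (e + j): p is a k-combination of monomials of degree j (p.as_sum), and for a monomial by induction on the degree (monomial (μ + single a 1) 1 = X a * monomial μ 1) using hg.
-/

open MvPolynomial

namespace H92B

theorem r2_pi {k : Type} [Field k] {n : ℕ} {M : Type} [AddCommGroup M] [Module (P k n) M] {β : ℕ}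
    (π : (Fin β → P k n) →ₗ[P k n] M) (x : Fin β → P k n) : π x = ∑ b, x b • π (Pi.single b 1) := by
  conv_lhs => rw [← Finset.univ_sum_single x]
  rw [map_sum]
  refine Finset.sum_congr rfl fun b _ => ?_
  rw [← map_smul]
  congr 1
  rw [← Pi.single_smul, smul_eq_mul, mul_one]

theorem r2_smul {k : Type} [Field k] {n : ℕ} {M : Type} [AddCommGroup M] [Module (P k n) M] [Module k M] [IsScalarTower k (P k n) M]
    (g : ℤ → Submodule k M) (hg : ∀ (a : Fin n) (j : ℤ) (x : M), x ∈ g j → (X a : P k n) • x ∈ g (j + 1))
    (i j : ℤ) (p : P k n) (hp : p ∈ hm k n j) (m : M) (hm' : m ∈ g i) : p • m ∈ g (i + j) := by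
  by_cases hj : 0 ≤ j
  · lift j to ℕ using hj
    have h1 : ∀ t : ℕ, ∀ μ : Fin n →₀ ℕ, μ.degree = t → (monomial μ (1 : k) : P k n) • m ∈ g (i + t) := by
      intro t
      induction t with
      | zero =>
        intro μ hμ
        have h2 : μ = 0 := (Finsupp.degree_eq_zero_iff μ).1 hμ
        rw [h2, Nat.cast_zero, add_zero, show (monomial (0 : Fin n →₀ ℕ) (1 : k) : P k n) = 1 from rfl, one_smul]
        exact hm'
      | succ t ih =>
        intro μ hμ
        obtain ⟨a, ha⟩ : ∃ a, μ a ≠ 0 := by
          by_contra h2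
          push Not at h2
          rw [Finsupp.ext h2 (g := 0), map_zero] at hμ
          omega
        have h3 : μ - Finsupp.single a 1 + Finsupp.single a 1 = μ := tsub_add_cancel_of_le (Finsupp.single_le_iff.2 (by omega))
        have h2 : (monomial μ (1 : k) : P k n) = X a * monomial (μ - Finsupp.single a 1) 1 := by
          rw [X, monomial_mul, one_mul, add_comm, h3]
        have h4 : (μ - Finsupp.single a 1).degree = t := by
          rw [← h3, map_add, Finsupp.degree_single] at hμ
          omega
        rw [h2, mul_smul]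
        have := hg a _ _ (ih _ h4)
        rwa [show i + (t : ℤ) + 1 = i + ((t + 1 : ℕ) : ℤ) by push_cast; ring] at this
    rw [p.as_sum, Finset.sum_smul]
    refine Submodule.sum_mem _ fun μ hμ => ?_
    have h5 : (monomial μ (coeff μ p) : P k n) = (coeff μ p : k) • monomial μ (1 : k) := by
      rw [smul_monomial, smul_eq_mul, mul_one]
    rw [h5, smul_assoc]
    refine Submodule.smul_mem _ _ (h1 j μ ?_)
    have h6 := (mem_hm_nat.1 hp) (mem_support_iff.1 hμ)
    rw [← h6, Finsupp.degree_eq_weight_one]
    rfl
  · rw [hm_neg (by omega), Submodule.mem_bot] at hp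
    rw [hp, zero_smul]
    exact Submodule.zero_mem _

theorem r2 {k : Type} [Field k] {n : ℕ} {M : Type} [AddCommGroup M] [Module (P k n) M] [Module k M] [IsScalarTower k (P k n) M]
    (g : ℤ → Submodule k M) (hg : ∀ (a : Fin n) (j : ℤ) (x : M), x ∈ g j → (X a : P k n) • x ∈ g (j + 1))
    (L : ℤ) (hL : ∀ j < L, g j = ⊥) (e : ℤ) (h0 : ∀ j, j ≠ e → HV n g 0 j)
    (β : ℕ) (w : Fin β → M) (hw : ∀ b, w b ∈ g e) (hw2 : g e ≤ Submodule.span k (Set.range w))
    (π : (Fin β → P k n) →ₗ[P k n] M) (hπ : ∀ b, π (Pi.single b 1) = w b) :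
    (∀ j < e, g j = ⊥) ∧ (∀ (j : ℤ), ∀ y ∈ g (e + j), ∃ x ∈ HM k n β j, π x = y) ∧
      ∀ (j : ℤ), ∀ x ∈ HM k n β j, π x ∈ g (e + j) := by
  refine ⟨?_, ?_, ?_⟩
  · have h1 : ∀ t : ℕ, ∀ j, j < e → j < L + t → g j = ⊥ := by
      intro t
      induction t with
      | zero =>
        intro j _ hj
        exact hL j (by simpa using hj)
      | succ t ih =>
        intro j hje hj
        rw [eq_bot_iff]
        intro y hy
        obtain ⟨z, hz1, hz2⟩ := gen_of_HV g j (h0 j hje.ne) y hy
        have h2 := ih (j - 1) (by omega) (by push_cast at hj; omega)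
        refine (Submodule.mem_bot k).2 ?_
        rw [hz2]
        refine Finset.sum_eq_zero fun a _ => ?_
        have h3 := hz1 a
        rw [h2, Submodule.mem_bot] at h3
        rw [h3, smul_zero]
    intro j hj
    exact h1 (j - L + 1).toNat j hj (by omega)
  · have hlow : ∀ j < e, g j = ⊥ := by
      have h1 : ∀ t : ℕ, ∀ j, j < e → j < L + t → g j = ⊥ := by
        intro t
        induction t with
        | zero =>
          intro j _ hj
          exact hL j (by simpa using hj)
        | succ t ih =>
          intro j hje hj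
          rw [eq_bot_iff]
          intro y hy
          obtain ⟨z, hz1, hz2⟩ := gen_of_HV g j (h0 j hje.ne) y hy
          have h2 := ih (j - 1) (by omega) (by push_cast at hj; omega)
          refine (Submodule.mem_bot k).2 ?_
          rw [hz2]
          refine Finset.sum_eq_zero fun a _ => ?_
          have h3 := hz1 a
          rw [h2, Submodule.mem_bot] at h3
          rw [h3, smul_zero]
      intro j hj
      exact h1 (j - L + 1).toNat j hj (by omega)
    have h1 : ∀ t : ℕ, ∀ y ∈ g (e + t), ∃ x ∈ HM k n β t, π x = y := by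
      intro t
      induction t with
      | zero =>
        intro y hy
        rw [Nat.cast_zero, add_zero] at hy
        obtain ⟨c, hc⟩ := (Submodule.mem_span_range_iff_exists_fun k).1 (hw2 hy)
        refine ⟨fun b => C (c b), mem_HM.2 fun b => by rw [Nat.cast_zero]; exact C_mem_hm _, ?_⟩
        rw [r2_pi, ← hc]
        refine Finset.sum_congr rfl fun b _ => ?_
        rw [hπ]
        exact algebraMap_smul (P k n) (c b) (w b)
      | succ t ih =>
        intro y hy
        obtain ⟨z, hz1, hz2⟩ := gen_of_HV g _ (h0 (e + ((t + 1 : ℕ) : ℤ)) (by push_cast; omega)) y hy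
        have h2 : ∀ a, ∃ x ∈ HM k n β t, π x = z a := by
          intro a
          refine ih (z a) ?_
          have := hz1 a
          rwa [show e + ((t + 1 : ℕ) : ℤ) - 1 = e + t by push_cast; ring] at this
        choose x hx1 hx2 using h2
        refine ⟨∑ a, (X a : P k n) • x a, Submodule.sum_mem _ fun a _ => ?_, ?_⟩
        · have := HM_X a (hx1 a)
          rwa [show (t : ℤ) + 1 = ((t + 1 : ℕ) : ℤ) by push_cast; ring] at this
        · rw [map_sum, hz2]
          exact Finset.sum_congr rfl fun a _ => by rw [map_smul, hx2]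
    intro j y hy
    by_cases hj : 0 ≤ j
    · lift j to ℕ using hj
      exact h1 j y hy
    · rw [hlow (e + j) (by omega), Submodule.mem_bot] at hy
      exact ⟨0, Submodule.zero_mem _, by rw [map_zero, hy]⟩
  · intro j x hx
    rw [r2_pi]
    refine Submodule.sum_mem _ fun b _ => ?_
    rw [hπ]
    exact r2_smul g hg e j (x b) (mem_HM.1 hx b) (w b) (hw b)

end H92B
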