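import Pool.Agent.Lib.H92B.Basic
import Pool.Agent.Lib.H92B.CH
import Pool.Agent.Lib.H92B.K3
import Pool.Agent.Lib.H92B.G1
import Pool.Agent.Lib.H92B.R2
import Pool.Agent.Lib.H92B.R3

/-!
# H92B, chunk R4

The step. Let e = d i - c and β' = finrank k (g e), w a basis of g e (Module.finBasis k (g e), coerced to M), π x = sum over b of x b • w b (for instance Fintype.linearCombination or LinearMap.pi ... such that π (Pi.single b 1) = w b). TC with q = 0 gives HV g 0 j for j ≠ e (the condition i + 0 ≤ s and j + 0 = d i - c fails),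
so r2 applies. If s < i then HV g 0 e also holds, so every element of g e is a sum of X a • z a with z a ∈ g (e - 1) = ⊥ (gen_of_HV, r2 (a)), so g e = ⊥ and β' = 0. The kernel is homogeneous by r3.
TC for the kernel: let (q, j) with not (i + 1 + q ≤ s and j + q = d (i + 1 + q) - d i). If q = 0 and j = 0: gr (ker π) 0 = ⊥: an element x ∈ HM 0 has constant components x b = C (c b) and π x = sum of c b • w b = 0, so c = 0 since w is a basis (linear independence); use HV_bot. Otherwise apply ch with g := HM k n β', g' := g, gk := gr (ker π), e (the map π sends HM j to g (j + e)),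
h1 := k3, h2 := the hypothesis TC for q + 1 and j - 1 + e (the condition i + (q + 1) ≤ s and j - 1 + e + (q + 1) = d (i + (q + 1)) - c is the same as the excluded one), h3 := r2 (b) at degree j - 2. If n = 0: 0 < n is needed for k3; we assume hn.
-/

open MvPolynomial

namespace H92B

theorem r4 {k : Type} [Field k] {n : ℕ} (hn : 0 < n) {M : Type} [AddCommGroup M] [Module (P k n) M] [Module k M] [IsScalarTower k (P k n) M]
    (g : ℤ → Submodule k M) (hg : GrM n g) (L : ℤ) (hL : ∀ j < L, g j = ⊥) (hf : ∀ j, FiniteDimensional k (g j))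
    (d : ℕ → ℤ) (s i : ℕ) (c : ℤ) (hTC : TC n g d s i c) :
    ∃ (β : ℕ) (π : (Fin β → P k n) →ₗ[P k n] M), β = Module.finrank k (g (d i - c)) ∧ (s < i → β = 0) ∧
      (∀ b, π (Pi.single b 1) ∈ g (d i - c)) ∧ (∀ (j : ℤ), ∀ y ∈ g (d i - c + j), ∃ x ∈ HM k n β j, π x = y) ∧
      (∀ (j : ℤ), ∀ x ∈ HM k n β j, π x ∈ g (d i - c + j)) ∧ IsHom (LinearMap.ker π) ∧
      TC n (gr (LinearMap.ker π)) d s (i + 1) (d i) := by
  set e : ℤ := d i - c with he
  have := hf e
  let bas := Module.finBasis k (g e)
  let w : Fin (Module.finrank k (g e)) → M := fun b => (bas b : M)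
  have hw : ∀ b, w b ∈ g e := fun b => (bas b).2
  let π : (Fin (Module.finrank k (g e)) → P k n) →ₗ[P k n] M := Fintype.linearCombination (P k n) w
  have hπ : ∀ b, π (Pi.single b 1) = w b := fun b => by
    show Fintype.linearCombination (P k n) w (Pi.single b 1) = w b
    rw [Fintype.linearCombination_apply_single, one_smul]
  have hw2 : g e ≤ Submodule.span k (Set.range w) := by
    intro y hy
    rw [Submodule.mem_span_range_iff_exists_fun]
    refine ⟨fun b => bas.repr ⟨y, hy⟩ b, ?_⟩
    have h1 := congrArg (Submodule.subtype (g e)) (bas.sum_repr ⟨y, hy⟩)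
    rw [map_sum] at h1
    exact h1
  have h0 : ∀ j, j ≠ e → HV n g 0 j := by
    intro j hj
    refine hTC 0 j fun h => hj ?_
    have := h.2
    rw [Nat.cast_zero, add_zero, add_zero] at this
    exact this
  obtain ⟨ha, hb, hc⟩ := r2 g hg.mul L hL e h0 _ w hw hw2 π hπ
  refine ⟨_, π, rfl, fun hsi => ?_, fun b => by rw [hπ]; exact hw b, hb, hc, r3 g hg.ind _ e π hc, ?_⟩
  · have h1 : HV n g 0 e := hTC 0 e fun h => by omega
    have h2 : g e = ⊥ := by
      rw [eq_bot_iff]
      intro y hy
      obtain ⟨z, hz1, hz2⟩ := gen_of_HV g e h1 y hy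
      refine (Submodule.mem_bot k).2 ?_
      rw [hz2]
      refine Finset.sum_eq_zero fun a _ => ?_
      have h3 := hz1 a
      rw [ha (e - 1) (by omega), Submodule.mem_bot] at h3
      rw [h3, smul_zero]
    rw [h2]
    exact finrank_bot k M
  · intro q j hqj
    by_cases h00 : q = 0 ∧ j = 0
    · refine HV_bot _ q j ?_
      rw [h00.2, eq_bot_iff]
      intro x hx
      rw [mem_gr, mem_HM] at hx
      have h1 : ∀ b, x b = C (coeff 0 (x b)) := by
        intro b
        have h2 := hx.2 b
        have h3 : (x b).IsHomogeneous 0 := by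
          have h4 := mem_hm_nat (k := k) (n := n) (j := 0) (p := x b)
          rw [Nat.cast_zero] at h4
          exact h4.1 h2
        have h5 := homogeneousComponent_eq_self h3
        rw [homogeneousComponent_zero] at h5
        exact h5.symm
      have h2 : ∑ b, (coeff 0 (x b) : k) • w b = 0 := by
        have h3 : π x = 0 := hx.1
        rw [r2_pi] at h3
        rw [← h3]
        refine Finset.sum_congr rfl fun b _ => ?_
        rw [hπ]
        conv_rhs => rw [h1 b]
        exact (algebraMap_smul (P k n) (coeff 0 (x b)) (w b)).symm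
      have h3 : ∑ b, (coeff 0 (x b) : k) • bas b = 0 := by
        apply Subtype.ext
        refine Eq.trans ?_ h2
        have h4 : ((∑ b, (coeff 0 (x b) : k) • bas b : g e) : M) = (g e).subtype (∑ b, (coeff 0 (x b) : k) • bas b) := rfl
        rw [h4, map_sum]
        rfl
      have h4 := Fintype.linearIndependent_iff.1 bas.linearIndependent _ h3
      refine (Submodule.mem_bot k).2 (funext fun b => ?_)
      rw [h1 b, h4 b, C_0]
      rfl
    · refine ch (HM k n _) g π e (gr (LinearMap.ker π)) (fun j x => ?_) (fun a j x hx => HM_X a hx) (fun j x hx => ?_) q j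
        (k3 hn _ q j h00) (hTC (q + 1) (j - 1 + e) fun h => hqj ?_) fun _ y hy => ?_
      · rw [mem_gr, and_comm, LinearMap.mem_ker]
      · rw [add_comm]
        exact hc j x hx
      · refine ⟨by omega, ?_⟩
        have h1 := h.2
        rw [show i + (q + 1) = i + 1 + q by ring, he] at h1
        push_cast at h1
        omega
      · rw [add_comm] at hy
        exact hb (j - 2) y hy

end H92B
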