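import Pool.Agent.Lib.H92B.Basic
import Pool.Agent.Lib.H92B.R4
import Pool.Agent.Lib.H92B.G1
import Pool.Agent.Lib.H92B.G3

/-!
# H92B, chunk R5A

The step for a submodule of a free module. Apply r4 to g = gr Z (pieces of the submodule of Fin β → P k n): GrM: mul by HM_X and the submodule property, independence by g1 (iSupIndep.mono, gr Z j ≤ HM j); L = 0 (HM_neg); finite-dimensionality: g3_fin and gr Z j ≤ HM j (Submodule.finiteDimensional_of_le). The index is i + 1 and c = d i.
The range of π is Z: each π (Pi.single b 1) ∈ Z, so range ≤ Z (the Pi.single b 1 span: LinearMap.range_le or π x = sum of x b • π (Pi.single b 1)). Conversely z ∈ Z is the sum of its homogeneous components z_j ∈ Z (hZ; finitely many nonzero, sum_homogeneousComponent), and z_j ∈ gr Z j = gr Z (d (i+1) - d i + (j - (d (i + 1) - d i))) is in the range.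
-/

open MvPolynomial

namespace H92B

theorem r5a {k : Type} [Field k] {n : ℕ} (hn : 0 < n) (d : ℕ → ℤ) (s i β : ℕ) (Z : Submodule (P k n) (Fin β → P k n)) (hZ : IsHom Z)
    (hTC : TC n (gr Z) d s (i + 1) (d i)) :
    ∃ (β' : ℕ) (π : (Fin β' → P k n) →ₗ[P k n] (Fin β → P k n)), (s < i + 1 → β' = 0) ∧
      (∀ b, π (Pi.single b 1) ∈ HM k n β (d (i + 1) - d i)) ∧ LinearMap.range π = Z ∧ IsHom (LinearMap.ker π) ∧
      TC n (gr (LinearMap.ker π)) d s (i + 2) (d (i + 1)) := by
  have hle : gr Z ≤ HM k n β := fun j x hx => (mem_gr.1 hx).2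
  have hg : GrM n (gr Z) := ⟨fun a j x hx => mem_gr.2 ⟨Z.smul_mem _ (mem_gr.1 hx).1, HM_X a (mem_gr.1 hx).2⟩,
    (g1 k n β).ind.mono hle⟩
  obtain ⟨β', π, _, h2, h3, h4, h5, h6, h7⟩ := r4 hn (gr Z) hg 0 (fun j hj => by
    rw [eq_bot_iff]
    have := hle j
    rwa [HM_neg hj] at this) (fun j => by
    have := g3_fin k n β j
    exact Submodule.finiteDimensional_of_le (hle j)) d s (i + 1) (d i) hTC
  refine ⟨β', π, h2, fun b => (mem_gr.1 (h3 b)).2, le_antisymm ?_ ?_, h6, h7⟩
  · rintro _ ⟨x, rfl⟩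
    rw [r2_pi]
    exact Submodule.sum_mem _ fun b _ => Z.smul_mem _ (mem_gr.1 (h3 b)).1
  · intro z hz
    let zc : ℕ → Fin β → P k n := fun j i => homogeneousComponent j (z i)
    let N : ℕ := (Finset.univ.sup fun i => (z i).totalDegree) + 1
    have hN : ∀ i, (z i).totalDegree < N := fun i =>
      Nat.lt_succ_of_le (Finset.le_sup (f := fun i => (z i).totalDegree) (Finset.mem_univ i))
    have hsum : ∑ j ∈ Finset.range N, zc j = z := by
      funext i
      rw [Finset.sum_apply]
      have h1 := sum_homogeneousComponent (z i)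
      rw [← Finset.sum_subset (Finset.range_subset_range.2 (hN i))]
      · exact h1
      · intro j _ hj
        rw [Finset.mem_range, not_lt] at hj
        exact homogeneousComponent_eq_zero _ _ (by omega)
    rw [← hsum]
    refine Submodule.sum_mem _ fun j _ => ?_
    have h8 : zc j ∈ gr Z j := mem_gr.2 ⟨hZ z hz j, mem_HM.2 fun i => mem_hm_nat.2 (homogeneousComponent_isHomogeneous _ _)⟩
    obtain ⟨x, _, hx2⟩ := h4 ((j : ℤ) - (d (i + 1) - d i)) (zc j) (by
      rwa [show d (i + 1) - d i + ((j : ℤ) - (d (i + 1) - d i)) = j by ring])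
    exact ⟨x, hx2⟩

end H92B
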