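import Pool.Agent.Lib.H92B.Basic
import Pool.Agent.Lib.H92B.R5A

/-!
# H92B, chunk R5

The resolution. Let State i be the type of all pairs p : Σ β : ℕ, Submodule (P k n) (Fin β → P k n) with IsHom p.2 and TC n (gr p.2) d s (i + 1) (d i) (a subtype). r5a gives for x : State i a y : State (i + 1), and a π : (Fin y.1.1 → P k n) →ₗ (Fin x.1.1 → P k n) with range π = x.1.2, ker π = y.1.2, π (Pi.single b 1) ∈ HM (d (i + 1) - d i), and (s < i + 1 → y.1.1 = 0).
Choose such y as a function next (i) (x) and define seq : (i : ℕ) → State i by recursion, seq 0 = ⟨⟨β0, Z0⟩, ..⟩. Put β i = (seq i).1.1 and f i = the π for x = seq i. Then range (f (i + 1)) = (seq (i + 1)).1.2 = ker (f i), range (f 0) = Z0, β 0 = β0 by rfl (for the cast-free statement we ask for β 0 = β0 and HEq-free: the statement about f 0 uses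
the existence form below, prove it by providing the witness with β 0 reducing to β0 by rfl). Homogeneity: hm_toNat and mem_HM.
-/

open MvPolynomial

namespace H92B

/-- The states of the recursion. -/
def r5_State (k : Type) [Field k] (n : ℕ) (d : ℕ → ℤ) (s i : ℕ) : Type :=
  {p : Σ β : ℕ, Submodule (P k n) (Fin β → P k n) // IsHom p.2 ∧ TC n (gr p.2) d s (i + 1) (d i)}

theorem r5_next {k : Type} [Field k] {n : ℕ} (hn : 0 < n) (d : ℕ → ℤ) (s i : ℕ) (x : r5_State k n d s i) :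
    ∃ (y : r5_State k n d s (i + 1)) (π : (Fin y.1.1 → P k n) →ₗ[P k n] (Fin x.1.1 → P k n)), (s < i + 1 → y.1.1 = 0) ∧
      (∀ b, π (Pi.single b 1) ∈ HM k n x.1.1 (d (i + 1) - d i)) ∧ LinearMap.range π = x.1.2 ∧ LinearMap.ker π = y.1.2 := by
  obtain ⟨⟨β, Z⟩, hZ, hTC⟩ := x
  obtain ⟨β', π, h1, h2, h3, h4, h5⟩ := r5a hn d s i β Z hZ hTC
  exact ⟨⟨⟨β', LinearMap.ker π⟩, h4, h5⟩, π, h1, h2, h3, rfl⟩

theorem r5 {k : Type} [Field k] {n : ℕ} (hn : 0 < n) (d : ℕ → ℤ) (s β0 : ℕ) (Z0 : Submodule (P k n) (Fin β0 → P k n)) (hZ : IsHom Z0)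
    (hTC : TC n (gr Z0) d s 1 (d 0)) :
    ∃ (β : ℕ → ℕ) (hβ0 : β 0 = β0) (f : (i : ℕ) → (Fin (β (i + 1)) → P k n) →ₗ[P k n] (Fin (β i) → P k n)),
      (∀ i, s < i → β i = 0) ∧
      (∀ (i : ℕ) (a : Fin (β i)) (b : Fin (β (i + 1))), (f i (Pi.single b 1) a).IsHomogeneous (d (i + 1) - d i).toNat) ∧
      (∀ i : ℕ, LinearMap.range (f (i + 1)) = LinearMap.ker (f i)) ∧
      (∀ x : Fin (β 0) → P k n, x ∈ LinearMap.range (f 0) ↔ (fun i : Fin β0 => x (Fin.cast hβ0.symm i)) ∈ Z0) := by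
  choose nx π h1 h2 h3 h4 using fun i (x : r5_State k n d s i) => r5_next hn d s i x
  let seq : (i : ℕ) → r5_State k n d s i := fun i => Nat.rec (motive := r5_State k n d s) ⟨⟨β0, Z0⟩, hZ, hTC⟩ (fun i x => nx i x) i
  refine ⟨fun i => (seq i).1.1, rfl, fun i => π i (seq i), fun i hi => ?_, fun i a b => ?_, fun i => ?_, fun x => ?_⟩
  · cases i with
    | zero => omega
    | succ i => exact h1 i (seq i) hi
  · exact hm_toNat (mem_HM.1 (h2 i (seq i) b) a)
  · exact (h3 (i + 1) (seq (i + 1))).trans (h4 i (seq i)).symm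
  · rw [h3 0 (seq 0)]
    rfl

end H92B
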