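import Pool.Agent.Lib.H92B.Basic
import Pool.Agent.Lib.H92B.R5
import Pool.Agent.Lib.H92B.H2
import Pool.Agent.Lib.H92B.H3
import Pool.Agent.Lib.H92B.H5

/-!
# H92B, chunk PU

The resolution with the right Betti numbers, n = s = N + 1. Take the resolution β', f of r5 for Z0 (β' 0 = β 0). By h2 (hsurj: from hfl through the equivalence of r5, the components of the cast vector are the same polynomials) and h3 HK d (N + 1) β' holds. By h5 β = β'; subst (or rewrite) and give f.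
-/

open MvPolynomial

namespace H92B

theorem pu {k : Type} [Field k] (N : ℕ) (d : ℕ → ℤ) (hd : ∀ i < N + 1, d i < d (i + 1)) (β : ℕ → ℕ) (h : HK d (N + 1) β)
    (hz : ∀ i, N + 1 < i → β i = 0) (b : ℕ) (hb : β 0 = b) (Z0 : Submodule (P k (N + 1)) (Fin b → P k (N + 1))) (hZ : IsHom Z0)
    (hTC : TC (N + 1) (gr Z0) d (N + 1) 1 (d 0)) (t0 : ℤ) (hfl : ∀ t, t0 ≤ t → ∀ x ∈ HM k (N + 1) b t, x ∈ Z0) :
    Res k (N + 1) d β := by
  obtain ⟨β', hβ0, f, hz', hhom, hex, hr⟩ := r5 (Nat.succ_pos N) d (N + 1) b Z0 hZ hTC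
  obtain ⟨t1, ht1⟩ := h2 d hd β' hz' f hhom hex t0 (fun t ht x hx => (hr x).2 (hfl t ht _ (by
    rw [mem_HM] at hx ⊢
    exact fun i => hx _)))
  have hHK := h3 N d hd β' t1 ht1
  have hβ : β = β' := h5 (N + 1) d hd β β' h hHK (by rw [hb, hβ0]) hz hz'
  rw [hβ]
  exact ⟨f, hhom, hex⟩

end H92B
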