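import Pool.Agent.Lib.H92B.Basic
import Pool.Agent.Lib.H92B.L5
import Pool.Agent.Lib.H92B.L10
import Pool.Agent.Lib.H92B.F1A
import Pool.Agent.Lib.H92B.F1B
import Pool.Agent.Lib.H92B.N1
import Pool.Agent.Lib.H92B.NR
import Pool.Agent.Lib.H92B.PU
import Pool.Agent.Lib.H92B.H1

/-!
# H92B, chunk F1

The first family. Let cA = |Mon (N + 2) m|, cB = |Mon (N + 2) (m + p)| (positive, h1_pos), a0, b0 from nr (a0 * cA = b0 * cB), R from l10 for t = tm (N + 2) p m (l5), and take the bound R * b0. Let β be given. By n1 and nr β 1 = r * a0, β 0 = r * b0, and R * b0 ≤ β 0 = r * b0 gives R ≤ r. l10 gives Φ, f1a gives A, f1b gives the type condition etc. for Z0 = range A.mulVecLin (hab: multiply a0 * cA = b0 * cB by r),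
and pu (with N + 1 in place of N, b = r * b0) gives the resolution. The sequence d is strictly increasing up to N + 2 by h1, h2.
-/

open MvPolynomial

namespace H92B

theorem f1 (k : Type) [Field k] (N p m : ℕ) (hp : 1 ≤ p) (d : ℕ → ℤ) (h1 : d 1 = d 0 + p)
    (h2 : ∀ q, 2 ≤ q → q ≤ N + 2 → d q = d 0 + (m + p + q) - 1) : Good k (N + 2) (N + 2) d := by
  obtain ⟨a0, b0, ha0, hb0, hab, hsplit⟩ := nr (Fintype.card (Mon (N + 2) m)) (Fintype.card (Mon (N + 2) (m + p)))
    (h1_pos _ _ (by omega)) (h1_pos _ _ (by omega))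
  obtain ⟨R, hR⟩ := l10 (tm (N + 2) p m) (fun K _ => l5 (N + 2) p m (by omega) hp K) a0 b0 hab hb0 (h1_pos _ _ (by omega)) k
  refine ⟨R * b0, fun β hz hpos hbig hHK => ?_⟩
  obtain ⟨r, hr1, hr0⟩ := hsplit _ _ (n1 N p m hp d h1 h2 β hHK)
  have hRr : R ≤ r := by
    rw [hr0] at hbig
    exact Nat.le_of_mul_le_mul_right hbig hb0
  obtain ⟨Φ, hΦ⟩ := hR r hRr
  obtain ⟨A, hA, hinj⟩ := f1a (N + 2) p m (r * a0) (r * b0) Φ hΦ
  obtain ⟨hIs, hTC, hfl⟩ := f1b N p m (r * a0) (r * b0) A hA hinj (by rw [mul_assoc, hab, mul_assoc]) d h1 h2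
  have hd : ∀ i < N + 1 + 1, d i < d (i + 1) := by
    intro i hi
    rcases Nat.eq_zero_or_pos i with h0 | h0
    · subst h0
      rw [zero_add, h1]
      omega
    · by_cases hi1 : i = 1
      · subst hi1
        rw [h2 (1 + 1) (by omega) (by omega), h1]
        push_cast
        omega
      · rw [h2 i (by omega) (by omega), h2 (i + 1) (by omega) (by omega)]
        push_cast
        omega
  exact pu (N + 1) d hd β hHK hz (r * b0) hr0 _ hIs hTC _ hfl

end H92B
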