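import Pool.Agent.Lib.H92B.Basic

/-!
# H92B, chunk F2A

The pairing. θ is the P-linear map with (θ x) i = Σ_j x j • θ_ij, θ_ij = Du.mk' (fun ν => if ν is in An n (j0 + l) then Φ i j ν else 0) ∈ Dg (j0 + l) (mem_Dg_iff). Degrees: Dg_smul: x j ∈ hm j', so x j • θ_ij ∈ Dg (h - j'), h = j0 + l. Injectivity on HM j0: x ∈ HM j0, x j = Σ over a ∈ Mon n j0 of ζ j a • monomial a 1 (ζ j a = coeff a (x j)). For y ∈ Mon n l ((θ x) i).ev (monomial y 1) = Σ_j Σ_a ζ j a * θ_ij (monomial (a + y) 1) = Σ_j Σ_a ζ j a * Φ i j (a + y)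
= Σ_j bl (tc n j0 l) k (Φ i j) (ζ j) y. If θ x = 0 then ζ = 0 by h, so x = 0.
-/

open MvPolynomial

namespace H92B

theorem f2a_repr {k : Type} [Field k] {n m : ℕ} {x : P k n} (hx : x ∈ hm k n m) :
    x = ∑ μ : Mon n m, monomial (μ : Fin n →₀ ℕ) (coeff (μ : Fin n →₀ ℕ) x) := by
  ext ν
  rw [coeff_sum]
  by_cases h : ν ∈ An n m
  · rw [Finset.sum_eq_single ⟨ν, h⟩]
    · rw [coeff_monomial, if_pos rfl]
    · intro μ _ hμ
      rw [coeff_monomial, if_neg fun h1 => hμ (Subtype.ext h1)]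
    · exact fun h1 => absurd (Finset.mem_univ _) h1
  · have h0 : ∀ μ ∈ (Finset.univ : Finset (Mon n m)), coeff ν (monomial (μ : Fin n →₀ ℕ) (coeff (μ : Fin n →₀ ℕ) x)) = 0 := by
      intro μ _
      rw [coeff_monomial, if_neg]
      intro h1
      exact h (h1 ▸ μ.2)
    rw [Finset.sum_eq_zero h0]
    by_contra h1
    have h2 := (hm_coeff.1 hx) ν h1
    exact h (mem_An.2 (by exact_mod_cast h2))

/-- The evaluation as an additive map. -/
noncomputable def f2a_ev {k : Type} [Field k] {n : ℕ} (x : P k n) : Du k n →+ k where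
  toFun f := f.ev x
  map_zero' := rfl
  map_add' _ _ := rfl

theorem f2a_sum {k : Type} [Field k] {n : ℕ} {ι : Type} (s : Finset ι) (f : ι → Du k n) (x : P k n) :
    (∑ i ∈ s, f i).ev x = ∑ i ∈ s, (f i).ev x := map_sum (f2a_ev x) f s

/-- The linear map with the given matrix of linear forms. -/
noncomputable def f2a_map {k : Type} [Field k] {n a b : ℕ} (T : Fin b → Fin a → Du k n) :
    (Fin a → P k n) →ₗ[P k n] (Fin b → Du k n) where
  toFun x i := ∑ j, x j • T i j
  map_add' x y := by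
    funext i
    rw [Pi.add_apply, ← Finset.sum_add_distrib]
    exact Finset.sum_congr rfl fun j _ => by rw [Pi.add_apply, add_smul]
  map_smul' c x := by
    funext i
    rw [RingHom.id_apply, Pi.smul_apply, Finset.smul_sum]
    exact Finset.sum_congr rfl fun j _ => by rw [Pi.smul_apply, smul_eq_mul, mul_smul]

theorem f2a {k : Type} [Field k] (n j0 l a b : ℕ) (Φ : Fin b → Fin a → Mon n (j0 + l) → k) (h : NoKer (tc n j0 l) k Φ) :
    ∃ θ : (Fin a → P k n) →ₗ[P k n] (Fin b → Du k n), (∀ (j : ℤ), ∀ x ∈ HM k n a j, θ x ∈ GM k n b ((j0 : ℤ) + l) j) ∧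
      ∀ x ∈ HM k n a j0, θ x = 0 → x = 0 := by
  classical
  let T : Fin b → Fin a → Du k n := fun i j =>
    Du.mk' (fun ν => if hν : ν ∈ An n (j0 + l) then Φ i j ⟨ν, hν⟩ else 0)
  have hT : ∀ i j, T i j ∈ Dg k n ((j0 : ℤ) + l) := by
    intro i j
    rw [mem_Dg_iff]
    intro μ hμ
    show (Du.mk' (fun ν => if hν : ν ∈ An n (j0 + l) then Φ i j ⟨ν, hν⟩ else 0) : Du k n).ev (monomial μ 1) = 0
    rw [Du.mk'_ev, dif_neg]
    intro h1
    apply hμ
    rw [mem_An.1 h1]
    push_cast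
    rfl
  refine ⟨f2a_map T, fun j x hx => ?_, fun x hx hx0 => ?_⟩
  · rw [mem_GM]
    intro i
    exact Submodule.sum_mem _ fun r _ => Dg_smul (mem_HM.1 hx r) (hT i r)
  · have h1 := h (fun j μ => coeff (μ : Fin n →₀ ℕ) (x j)) (fun i => by
      funext y
      have h2 := congrArg (fun f : Du k n => f.ev (monomial (y : Fin n →₀ ℕ) 1)) (congrFun hx0 i)
      change (∑ j, x j • T i j : Du k n).ev (monomial (y : Fin n →₀ ℕ) 1) = 0 at h2
      rw [f2a_sum] at h2
      rw [Finset.sum_apply, Pi.zero_apply, ← h2]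
      refine Finset.sum_congr rfl fun j _ => ?_
      rw [Du.smul_ev]
      conv_rhs => rw [f2a_repr (mem_HM.1 hx j)]
      rw [Finset.sum_mul, map_sum]
      unfold bl
      rw [Finset.sum_comm]
      refine Finset.sum_congr rfl fun μ _ => ?_
      have hμy : (μ : Fin n →₀ ℕ) + (y : Fin n →₀ ℕ) ∈ An n (j0 + l) := by
        rw [mem_An, map_add, mem_An.1 μ.2, mem_An.1 y.2]
      rw [monomial_mul, mul_one, Finset.sum_eq_single ⟨(μ : Fin n →₀ ℕ) + (y : Fin n →₀ ℕ), hμy⟩]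
      · have h3 : (monomial ((μ : Fin n →₀ ℕ) + (y : Fin n →₀ ℕ)) (coeff (μ : Fin n →₀ ℕ) (x j)) : P k n) =
            (coeff (μ : Fin n →₀ ℕ) (x j)) • monomial ((μ : Fin n →₀ ℕ) + (y : Fin n →₀ ℕ)) (1 : k) := by
          rw [smul_monomial, smul_eq_mul, mul_one]
        rw [h3, map_smul]
        show _ = coeff (μ : Fin n →₀ ℕ) (x j) •
          (Du.mk' (fun ν => if hν : ν ∈ An n (j0 + l) then Φ i j ⟨ν, hν⟩ else 0) : Du k n).ev
            (monomial ((μ : Fin n →₀ ℕ) + (y : Fin n →₀ ℕ)) 1)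
        rw [Du.mk'_ev, dif_pos hμy, smul_eq_mul]
        unfold tc
        rw [if_pos rfl]
        push_cast
        ring
      · intro ν _ hν
        unfold tc
        rw [if_neg fun h3 => hν (Subtype.ext h3.symm)]
        push_cast
        ring
      · exact fun h3 => absurd (Finset.mem_univ _) h3)
    funext j
    rw [f2a_repr (mem_HM.1 hx j)]
    refine Finset.sum_eq_zero fun μ _ => ?_
    have h3 := congrFun (congrFun h1 j) μ
    change coeff (μ : Fin n →₀ ℕ) (x j) = 0 at h3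
    rw [h3, monomial_zero]

end H92B
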