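import Pool.Agent.Lib.H92B.Basic

/-!
# H92B, chunk G2

The grading of the graded dual. mul: GM_X. Independence: for each i show Disjoint (GM i) (⨆ j ≠ i, GM j). Let D be the k-submodule of all x such that (x b).ev p = 0 for all b and all p homogeneous of degree l, for all l : ℕ with (l : ℤ) = h - i.
For j ≠ i GM j ≤ D (mem_GM, mem_Dg), so the supremum is in D; an x in GM i and in D vanishes on all the homogeneous polynomials, so it is 0 (Du_ext_monomial).
-/

open MvPolynomial

namespace H92B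

theorem g2 (k : Type) [Field k] (n c : ℕ) (h : ℤ) : GrM n (GM k n c h) := by
  refine ⟨fun a j x hx => GM_X a hx, ?_⟩
  rw [iSupIndep_def]
  intro i
  rw [Submodule.disjoint_def]
  intro x hx1 hx2
  let D : Submodule k (Fin c → Du k n) :=
    { carrier := {x | ∀ b, ∀ μ : Fin n →₀ ℕ, ((μ.degree : ℕ) : ℤ) = h - i → (x b).ev (monomial μ 1) = 0}
      zero_mem' := fun b μ _ => rfl
      add_mem' := fun {x y} hx hy b μ hμ => by
        rw [Pi.add_apply, Du.add_ev, hx b μ hμ, hy b μ hμ, add_zero]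
      smul_mem' := fun c x hx b μ hμ => by
        rw [Pi.smul_apply, Du.csmul_ev, hx b μ hμ, mul_zero] }
  have h1 : (⨆ (j : ℤ) (_ : j ≠ i), GM k n c h j) ≤ D := by
    refine iSup_le fun j => iSup_le fun hj y hy b μ hμ => ?_
    rw [mem_GM] at hy
    exact (mem_Dg_iff.1 (hy b)) μ (by omega)
  have h2 : ∀ b, ∀ μ : Fin n →₀ ℕ, ((μ.degree : ℕ) : ℤ) = h - i → (x b).ev (monomial μ 1) = 0 := h1 hx2
  funext b
  refine Du_ext_monomial fun μ => ?_
  rw [mem_GM] at hx1
  show (x b).ev (monomial μ 1) = 0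
  by_cases h3 : ((μ.degree : ℕ) : ℤ) = h - i
  · exact h2 b μ h3
  · exact (mem_Dg_iff.1 (hx1 b)) μ h3

end H92B
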