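import Pool.Agent.Lib.H92B.Basic

/-!
# H92B, chunk G4

Dimensions of the graded dual. Dg k n t for a natural t is isomorphic to the functions on Mon n t: f ↦ (μ ↦ f.ev (monomial μ 1)); injective by mem_Dg_iff and Du_ext_monomial, surjective by Du.mk' of the extension by zero (mem_Dg_iff; the members of Mon n t are the multi-indices of degree t,
Finset.mem_finsuppAntidiag, Finsupp.degree). GM is the power (Module.finrank_pi_fintype). For negative degrees Dg = ⊥ (Dg_neg).
-/

open MvPolynomial

namespace H92B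

/-- The coordinates. -/
noncomputable def g4_map (k : Type) [Field k] (n c t : ℕ) (h j : ℤ) : GM k n c h j →ₗ[k] (Fin c → Mon n t → k) where
  toFun x b μ := (x.1 b).ev (monomial (μ : Fin n →₀ ℕ) 1)
  map_add' x y := by
    funext b μ
    simp
  map_smul' c x := by
    funext b μ
    simp

theorem g4_bij (k : Type) [Field k] (n c t : ℕ) (h j : ℤ) (hj : h - j = t) : Function.Bijective (g4_map k n c t h j) := by
  constructor
  · rw [injective_iff_map_eq_zero]
    intro x hx
    apply Subtype.ext
    funext b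
    show x.1 b = 0
    refine Du_ext_monomial fun μ => ?_
    rw [Du.zero_ev]
    by_cases h1 : μ ∈ An n t
    · exact congrFun (congrFun hx b) ⟨μ, h1⟩
    · refine (mem_Dg_iff.1 (mem_GM.1 x.2 b)) μ fun h2 => h1 (mem_An.2 ?_)
      rw [hj] at h2
      exact_mod_cast h2
  · intro y
    refine ⟨⟨fun b => Du.mk' (fun μ => if hμ : μ ∈ An n t then y b ⟨μ, hμ⟩ else 0), mem_GM.2 fun b => mem_Dg_iff.2 fun μ hμ => ?_⟩, ?_⟩
    · rw [Du.mk'_ev, dif_neg fun h1 => hμ ?_]
      rw [hj, mem_An.1 h1]
    · funext b μ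
      show (Du.mk' (fun μ => if hμ : μ ∈ An n t then y b ⟨μ, hμ⟩ else 0) : Du k n).ev (monomial (μ : Fin n →₀ ℕ) 1) = y b μ
      rw [Du.mk'_ev, dif_pos μ.2]

theorem g4_fin (k : Type) [Field k] (n c : ℕ) (h j : ℤ) : FiniteDimensional k (GM k n c h j) := by
  by_cases hj : 0 ≤ h - j
  · obtain ⟨t, ht⟩ := Int.eq_ofNat_of_zero_le hj
    exact (LinearEquiv.ofBijective _ (g4_bij k n c t h j ht)).symm.finiteDimensional
  · rw [GM_gt (by omega)]
    infer_instance

theorem g4_rank (k : Type) [Field k] (n c t : ℕ) (h j : ℤ) (hj : h - j = t) :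
    Module.finrank k (GM k n c h j) = c * Fintype.card (Mon n t) := by
  rw [(LinearEquiv.ofBijective _ (g4_bij k n c t h j hj)).finrank_eq, Module.finrank_pi_fintype]
  simp

end H92B
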