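import Pool.Agent.Lib.H92B.Basic
import Pool.Agent.Lib.H92B.K0

/-!
# H92B, chunk K4A

The Koszul homology of the graded dual (one copy), homological degrees q < n. For a multi-index μ and a set T let A(T, μ) = {a | a ∉ T or 1 ≤ μ a} (a Finset; it is all of Fin n
if T = ∅; it is empty only if T = univ and μ = 0), and choose ch with ch A ∈ A for A nonempty (min'; default ⟨0, _⟩, n > 0 because q < n). Let a0 = ch (A(T, μ)). Define ψ T = Du.mk' of the function
μ ↦ if a0 ∈ T (then 1 ≤ μ a0 when A is nonempty) and 1 ≤ μ a0 then sg a0 (T.erase a0) * (φ (T.erase a0)).ev (monomial (μ - single a0 1) 1) else 0.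
ψ T = 0 if T.card ≠ q + 1 (as φ (T.erase a0) = 0). Degree: if the value at μ is not zero then the degree of μ - single a0 1 is h - j (mem_Dg_iff for φ), so the degree of μ is h - j + 1 = h - (j - 1).
The equation kd ψ T = φ T: if T.card ≠ q both sides are 0 (kd_card). Let T.card = q < n, so T ≠ univ, and compare the values at monomial μ 1 (Du_ext_monomial); A(T, μ) is nonempty. The value of kd ψ T at x^μ is
the sum over a ∉ T of sg a T * (ψ (insert a T)).ev (x^(μ + single a 1)) (Du.smul_ev, X a * monomial μ 1 = monomial (μ + single a 1) 1), and A(insert a T, μ + single a 1) = A(T, μ), so the chosen element is the same a0.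
Case a0 ∉ T: only a = a0 contributes (a0 ∈ insert a T forces a = a0) and the contribution is sg a0 T * sg a0 T * (φ T).ev (x^μ) (k0_sq). Case a0 ∈ T: then 1 ≤ μ a0 (as a0 ∈ A(T, μ)); with T' = T.erase a0 the sum is
the sum over a ∉ T of sg a T * sg a0 (insert a T') * (φ (insert a T')).ev (x^(μ + single a 1 - single a0 1)) = - sg a0 T' * (sum of sg a T' * ..) by k0_swap, and the value of kd φ T' = 0 at x^(μ - single a0 1) says
sg a0 T' * (φ T).ev (x^μ) + (sum over a ∉ T of sg a T' * (φ (insert a T')).ev (x^(μ - single a0 1 + single a 1))) = 0. Multiply by sg a0 T' (k0_sq).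
-/

open MvPolynomial

namespace H92B

/-- A choice of an element. -/
noncomputable def k4a_ch {n : ℕ} (hn : 0 < n) (A : Finset (Fin n)) : Fin n := if h : A.Nonempty then A.min' h else ⟨0, hn⟩

theorem k4a_ch_mem {n : ℕ} (hn : 0 < n) (A : Finset (Fin n)) (h : A.Nonempty) : k4a_ch hn A ∈ A := by
  unfold k4a_ch
  rw [dif_pos h]
  exact Finset.min'_mem _ _

/-- The allowed indices. -/
def k4a_A {n : ℕ} (T : Finset (Fin n)) (μ : Fin n →₀ ℕ) : Finset (Fin n) := Finset.univ.filter (fun a => a ∉ T ∨ 1 ≤ μ a)

theorem k4a_A_insert {n : ℕ} (T : Finset (Fin n)) (μ : Fin n →₀ ℕ) (a : Fin n) (ha : a ∉ T) :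
    k4a_A (insert a T) (μ + Finsupp.single a 1) = k4a_A T μ := by
  ext b
  unfold k4a_A
  simp only [Finset.mem_filter, Finset.mem_univ, true_and, Finset.mem_insert, not_or]
  by_cases hb : b = a
  · subst hb
    simp [ha]
  · simp [hb, Ne.symm hb, Finsupp.single_apply]

/-- The evaluation as an additive map. -/
noncomputable def k4a_ev {k : Type} [Field k] {n : ℕ} (x : P k n) : Du k n →+ k where
  toFun f := f.ev x
  map_zero' := rfl
  map_add' _ _ := rfl

theorem k4a_zsmul {k : Type} [Field k] {n : ℕ} (z : ℤ) (f : Du k n) (x : P k n) : (z • f).ev x = (z : k) * f.ev x := by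
  have h : k4a_ev x (z • f) = z • k4a_ev x f := map_zsmul _ _ _
  rw [zsmul_eq_mul] at h
  exact h

theorem k4a_kd {k : Type} [Field k] {n : ℕ} (φ : Finset (Fin n) → Du k n) (T : Finset (Fin n)) (μ : Fin n →₀ ℕ) :
    (kd k φ T).ev (monomial μ 1) =
      ∑ a ∈ Tᶜ, (sg a T : k) * (φ (insert a T)).ev (monomial (μ + Finsupp.single a 1) 1) := by
  unfold kd
  have h : k4a_ev (monomial μ (1 : k)) (∑ a ∈ Tᶜ, sg a T • ((X a : P k n) • φ (insert a T))) =
      ∑ a ∈ Tᶜ, k4a_ev (monomial μ (1 : k)) (sg a T • ((X a : P k n) • φ (insert a T))) := map_sum _ _ _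
  refine h.trans (Finset.sum_congr rfl fun a _ => ?_)
  refine (k4a_zsmul _ _ _).trans ?_
  rw [Du.smul_ev, X, monomial_mul, one_mul, add_comm]

theorem k4a {k : Type} [Field k] {n : ℕ} (h : ℤ) (q : ℕ) (hq : q < n) (j : ℤ) :
    HV n (fun j => Dg k n (h - j)) q j := by
  have hn : 0 < n := by omega
  intro φ h1 h2 h3
  let c : Finset (Fin n) → (Fin n →₀ ℕ) → Fin n := fun T μ => k4a_ch hn (k4a_A T μ)
  let v : Finset (Fin n) → (Fin n →₀ ℕ) → k := fun T μ =>
    if c T μ ∈ T ∧ 1 ≤ μ (c T μ) then
      (sg (c T μ) (T.erase (c T μ)) : k) * (φ (T.erase (c T μ))).ev (monomial (μ - Finsupp.single (c T μ) 1) 1) else 0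
  refine ⟨fun T => Du.mk' (v T), fun T => ?_, fun T hT => ?_, fun T => ?_⟩
  · rw [mem_Dg_iff]
    intro μ hμ
    rw [Du.mk'_ev]
    show (if c T μ ∈ T ∧ 1 ≤ μ (c T μ) then _ else _) = _
    split_ifs with h4
    · have h5 := (mem_Dg_iff.1 (h1 (T.erase (c T μ)))) (μ - Finsupp.single (c T μ) 1) ?_
      · rw [h5, mul_zero]
      · intro h6
        apply hμ
        have h7 : μ = μ - Finsupp.single (c T μ) 1 + Finsupp.single (c T μ) 1 :=
          (tsub_add_cancel_of_le (Finsupp.single_le_iff.2 h4.2)).symm
        rw [h7, map_add, Finsupp.degree_single, Nat.cast_add, h6]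
        push_cast
        ring
    · rfl
  · refine Du_ext_monomial fun μ => ?_
    rw [Du.mk'_ev, Du.zero_ev]
    show (if c T μ ∈ T ∧ 1 ≤ μ (c T μ) then _ else _) = _
    split_ifs with h4
    · rw [h2 (T.erase (c T μ)), Du.zero_ev, mul_zero]
      rw [Finset.card_erase_of_mem h4.1]
      have := Finset.card_pos.2 ⟨_, h4.1⟩
      omega
    · rfl
  · by_cases hT : T.card = q
    · refine Du_ext_monomial fun μ => ?_
      rw [k4a_kd]
      have hne : (k4a_A T μ).Nonempty := by
        obtain ⟨b, hb⟩ : ∃ b, b ∉ T := by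
          by_contra h4
          push Not at h4
          have : T = Finset.univ := Finset.eq_univ_iff_forall.2 h4
          rw [this, Finset.card_univ, Fintype.card_fin] at hT
          omega
        exact ⟨b, Finset.mem_filter.2 ⟨Finset.mem_univ _, Or.inl hb⟩⟩
      have hc := k4a_ch_mem hn _ hne
      have hcc : ∀ a ∈ Tᶜ, c (insert a T) (μ + Finsupp.single a 1) = c T μ := by
        intro a ha
        show k4a_ch hn _ = k4a_ch hn _
        rw [k4a_A_insert T μ a (Finset.mem_compl.1 ha)]
      have hv : ∀ a ∈ Tᶜ, v (insert a T) (μ + Finsupp.single a 1) =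
          if c T μ ∈ insert a T ∧ 1 ≤ (μ + Finsupp.single a 1 : Fin n →₀ ℕ) (c T μ) then
            (sg (c T μ) ((insert a T).erase (c T μ)) : k) *
              (φ ((insert a T).erase (c T μ))).ev (monomial (μ + Finsupp.single a 1 - Finsupp.single (c T μ) 1) 1) else 0 := by
        intro a ha
        show (if c (insert a T) (μ + Finsupp.single a 1) ∈ insert a T ∧ 1 ≤ (μ + Finsupp.single a 1 : Fin n →₀ ℕ) (c (insert a T) (μ + Finsupp.single a 1)) then _ else _) = _
        rw [hcc a ha]
      generalize hb : c T μ = b at hv hc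
      change k4a_ch hn (k4a_A T μ) = b at hb
      rw [hb] at hc
      unfold k4a_A at hc
      rw [Finset.mem_filter] at hc
      by_cases hbT : b ∈ T
      · have hμb : 1 ≤ μ b := hc.2.resolve_left fun h4 => h4 hbT
        have h4 := k4a_kd φ (T.erase b) (μ - Finsupp.single b 1)
        have h5 : (T.erase b)ᶜ = insert b Tᶜ := by
          ext a
          simp only [Finset.mem_compl, Finset.mem_erase, Finset.mem_insert]
          tauto
        rw [h3, Du.zero_ev, h5, Finset.sum_insert (by simpa using hbT), Finset.insert_erase hbT,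
          tsub_add_cancel_of_le (Finsupp.single_le_iff.2 hμb)] at h4
        have h6 : ∑ a ∈ Tᶜ, (sg a T : k) * (Du.mk' (v (insert a T))).ev (monomial (μ + Finsupp.single a 1) 1) =
            - (sg b (T.erase b) : k) * ∑ a ∈ Tᶜ, (sg a (T.erase b) : k) *
              (φ (insert a (T.erase b))).ev (monomial (μ - Finsupp.single b 1 + Finsupp.single a 1) 1) := by
          rw [Finset.mul_sum]
          refine Finset.sum_congr rfl fun a ha => ?_
          have ha' : a ∉ T := Finset.mem_compl.1 ha
          have hab : a ≠ b := fun h => ha' (h ▸ hbT)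
          rw [Du.mk'_ev, hv a ha, if_pos ⟨Finset.mem_insert_of_mem hbT, by
            rw [Finsupp.add_apply]
            omega⟩, Finset.erase_insert_of_ne hab,
            tsub_add_eq_add_tsub (Finsupp.single_le_iff.2 hμb)]
          have h7 := k0_swap a b T ha' hbT
          have h8 : (sg a T : k) * (sg b (insert a (T.erase b)) : k) = - ((sg a (T.erase b) : k) * (sg b (T.erase b) : k)) := by
            exact_mod_cast congrArg (fun z : ℤ => (z : k)) h7
          rw [← mul_assoc, h8]
          ring
        rw [h6]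
        have h9 : (sg b (T.erase b) : k) * (sg b (T.erase b) : k) = 1 := by
          exact_mod_cast congrArg (fun z : ℤ => (z : k)) (k0_sq b (T.erase b))
        linear_combination (sg b (T.erase b) : k) * h4 + (φ T).ev (monomial μ 1) * h9
      · rw [Finset.sum_eq_single_of_mem b (Finset.mem_compl.2 hbT)]
        · rw [Du.mk'_ev, hv b (Finset.mem_compl.2 hbT), if_pos ⟨Finset.mem_insert_self _ _, by simp⟩, Finset.erase_insert hbT,
            add_tsub_cancel_right, ← mul_assoc]
          have h9 : (sg b T : k) * (sg b T : k) = 1 := by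
            exact_mod_cast congrArg (fun z : ℤ => (z : k)) (k0_sq b T)
          rw [h9, one_mul]
        · intro a ha hab
          rw [Du.mk'_ev, hv a ha, if_neg, mul_zero]
          rintro ⟨h4, _⟩
          rcases Finset.mem_insert.1 h4 with h4 | h4
          · exact hab h4.symm
          · exact hbT h4
    · rw [h2 T hT]
      refine kd_card _ q (fun T hT => ?_) T hT
      refine Du_ext_monomial fun μ => ?_
      rw [Du.mk'_ev, Du.zero_ev]
      show (if c T μ ∈ T ∧ 1 ≤ μ (c T μ) then _ else _) = _
      split_ifs with h4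
      · rw [h2 (T.erase (c T μ)), Du.zero_ev, mul_zero]
        rw [Finset.card_erase_of_mem h4.1]
        have := Finset.card_pos.2 ⟨_, h4.1⟩
        omega
      · rfl

end H92B
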