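import Pool.Agent.Lib.H92B.Basic

/-!
# H92B, chunk K5A

No socle in the graded dual except in degree h. By HV_top let f ∈ Dg (h - j) with X a • f = 0 for all a, h ≠ j. Show f = 0 by Du_ext_monomial: for a multi-index μ: if μ = 0 then its degree 0 is not h - j, so
the value is 0 by mem_Dg_iff. If μ ≠ 0 pick a with 1 ≤ μ a; monomial μ 1 = X a * monomial (μ - single a 1) 1, and f.ev (X a * y) = (X a • f).ev y = 0.
-/

open MvPolynomial

namespace H92B

theorem k5a {k : Type} [Field k] {n : ℕ} (h j : ℤ) (hj : j ≠ h) : HV n (fun j => Dg k n (h - j)) n j := by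
  refine HV_top _ j fun f hf h1 => Du_ext_monomial fun μ => ?_
  rw [Du.zero_ev]
  by_cases hμ : μ = 0
  · refine (mem_Dg_iff.1 hf) μ ?_
    rw [hμ, map_zero, Nat.cast_zero]
    omega
  · obtain ⟨a, ha⟩ : ∃ a, μ a ≠ 0 := by
      by_contra h2
      push Not at h2
      exact hμ (Finsupp.ext h2)
    have h2 : (monomial μ (1 : k) : P k n) = X a * monomial (μ - Finsupp.single a 1) 1 := by
      rw [X, monomial_mul, one_mul, add_tsub_cancel_of_le (Finsupp.single_le_iff.2 (by omega))]
    rw [h2, ← Du.smul_ev, h1 a, Du.zero_ev]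

end H92B
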