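import Pool.Agent.Lib.H92B.Basic
import Pool.Agent.Lib.H92B.K4A
import Pool.Agent.Lib.H92B.K5A
import Pool.Agent.Lib.H92B.KV

/-!
# H92B, chunk K4

q < n: kv applied to k4a. q = n: kv applied to k5a. q > n: HV_gt. GM k n c h j is by definition Submodule.pi Set.univ (fun _ => Dg k n (h - j)).
-/

open MvPolynomial

namespace H92B

theorem k4 {k : Type} [Field k] {n : ℕ} (c : ℕ) (h : ℤ) (q : ℕ) (j : ℤ) (hqj : ¬ (q = n ∧ j = h)) :
    HV n (GM k n c h) q j := by
  rcases lt_trichotomy q n with h1 | h1 | h1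
  · exact kv c (fun j => Dg k n (h - j)) q j (k4a h q h1 j)
  · subst h1
    exact kv c (fun j => Dg k q (h - j)) q j (k5a h j fun h2 => hqj ⟨rfl, h2⟩)
  · exact HV_gt _ q j h1

end H92B
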