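import Pool.Agent.Lib.H92B.Basic
import Pool.Agent.Lib.H92B.K3
import Pool.Agent.Lib.H92B.K4
import Pool.Agent.Lib.H92B.CH
import Pool.Agent.Lib.H92B.E1
import Pool.Agent.Lib.H92B.E2
import Pool.Agent.Lib.H92B.G2
import Pool.Agent.Lib.H92B.G3
import Pool.Agent.Lib.H92B.G4
import Pool.Agent.Lib.H92B.R3

/-!
# H92B, chunk F2B

The type condition for the second family, n = N + 2, h = j0 + l. Z = ker θ. IsHom Z: r3 with g = GM (independence g2, e = 0). (1) θ is injective on HM a j for j ≤ j0: e1_down, HM_socle. So gr Z j = ⊥ for j ≤ j0. (2) θ : HM a j0 → GM b h j0 is surjective: e2 with g3_rank and g4_rank (h - j0 = l), so θ : HM a j → GM b h j is surjective for j ≥ j0: e1_up with k4 (q = 0 < n). (3) for t > h GM b h t = ⊥ (GM_gt), so θ x = 0 for x ∈ HM t.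
(4) TC: let q, j with not (1 + q ≤ N + 2 and j + q = d (1 + q) - d 0). q > N + 2: HV_gt; q = N + 2: HV_top and HM_socle. j ≤ j0: HV_bot by (1). So let q ≤ N + 1 and j ≥ j0 + 1 ≥ 1. If q ≤ N: 1 + q + 1 ≤ N + 2, so d (1 + q) - d 0 = j0 + 1 + q and j ≠ j0 + 1, so j - 2 ≥ j0. Apply ch with g = HM a, g' = GM b h, e = 0, gk = gr Z: h1 by k3 (j ≠ 0), h2 by k4 (q + 1 < N + 2), h3 by (2). If q = N + 1: d (N + 2) - d 0 = h + N + 2 so j ≠ h + 1; ch with
h1 by k3, h2 by k4 (q + 1 = N + 2 = n but j - 1 ≠ h), h3 void (q + 2 ≤ n fails).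
-/

open MvPolynomial

namespace H92B

theorem f2b {k : Type} [Field k] (N j0 l a b : ℕ) (θ : (Fin a → P k (N + 2)) →ₗ[P k (N + 2)] (Fin b → Du k (N + 2)))
    (hθ : ∀ (j : ℤ), ∀ x ∈ HM k (N + 2) a j, θ x ∈ GM k (N + 2) b ((j0 : ℤ) + l) j) (hinj : ∀ x ∈ HM k (N + 2) a j0, θ x = 0 → x = 0)
    (hab : a * Fintype.card (Mon (N + 2) j0) = b * Fintype.card (Mon (N + 2) l))
    (d : ℕ → ℤ) (h1 : ∀ q, 1 ≤ q → q ≤ N + 1 → d q = d 0 + (j0 + q)) (h2 : d (N + 2) = d 0 + (j0 + l + (N + 2))) :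
    IsHom (LinearMap.ker θ) ∧ TC (N + 2) (gr (LinearMap.ker θ)) d (N + 2) 1 (d 0) ∧
      ∀ t : ℤ, (j0 : ℤ) + l < t → ∀ x ∈ HM k (N + 2) a t, x ∈ LinearMap.ker θ := by
  have hn : 0 < N + 2 := by omega
  have hfd1 := g3_fin k (N + 2) a j0
  have hfd2 := g4_fin k (N + 2) b ((j0 : ℤ) + l) j0
  have hinj' : ∀ j ≤ (j0 : ℤ), ∀ x ∈ HM k (N + 2) a j, θ x = 0 → x = 0 :=
    e1_down (HM k (N + 2) a) θ j0 (fun a j x hx => HM_X a hx) (fun j _ y _ hy => HM_socle hn hy) hinj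
  have hsurj0 := e2 (HM k (N + 2) a j0) (GM k (N + 2) b ((j0 : ℤ) + l) j0) θ (hθ j0) (by
    rw [g3_rank, g4_rank k (N + 2) b l ((j0 : ℤ) + l) j0 (by ring), hab]) (fun x hx hx0 => hinj x hx hx0)
  have hsurj : ∀ j, (j0 : ℤ) ≤ j → ∀ y ∈ GM k (N + 2) b ((j0 : ℤ) + l) (j + 0), ∃ x ∈ HM k (N + 2) a j, θ x = y :=
    e1_up (HM k (N + 2) a) (GM k (N + 2) b ((j0 : ℤ) + l)) θ 0 j0 (fun a j x hx => HM_X a hx)
      (fun j hj => k4 b _ 0 (j + 0) (by omega)) (by rwa [add_zero])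
  refine ⟨r3 (GM k (N + 2) b ((j0 : ℤ) + l)) (g2 k (N + 2) b _).ind a 0 θ (fun j x hx => by
    rw [zero_add]
    exact hθ j x hx), ?_, fun t ht x hx => ?_⟩
  · intro q j hqj
    by_cases hq : N + 2 < q
    · exact HV_gt _ q j hq
    by_cases hq2 : q = N + 2
    · subst hq2
      exact HV_top _ j fun y _ hy => HM_socle hn hy
    by_cases hj0 : j ≤ j0
    · refine HV_bot _ q j ?_
      rw [eq_bot_iff]
      intro x hx
      exact (Submodule.mem_bot k).2 (hinj' j hj0 x (mem_gr.1 hx).2 (mem_gr.1 hx).1)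
    have hjq : j + q ≠ d (1 + q) - d 0 := fun h => hqj ⟨by omega, h⟩
    refine ch (HM k (N + 2) a) (GM k (N + 2) b ((j0 : ℤ) + l)) θ 0 (gr (LinearMap.ker θ)) (fun j x => ?_)
      (fun a j x hx => HM_X a hx) (fun j x hx => by rw [add_zero]; exact hθ j x hx) q j (k3 hn a q j (by omega))
      (k4 b _ (q + 1) (j - 1 + 0) fun h => ?_) fun hq3 y hy => ?_
    · rw [mem_gr, and_comm, LinearMap.mem_ker]
    · apply hjq
      rw [show 1 + q = N + 2 by omega, h2]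
      have h3 := h.1
      have h4 := h.2
      push_cast
      omega
    · refine hsurj (j - 2) ?_ y hy
      rw [h1 (1 + q) (by omega) (by omega)] at hjq
      push_cast at hjq
      omega
  · have h3 := hθ t x hx
    rw [GM_gt ht] at h3
    exact (Submodule.mem_bot k).1 h3

end H92B
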