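import Pool.Agent.Lib.H92B.Basic
import Pool.Agent.Lib.H92B.H1

/-!
# H92B, chunk L6

Stability of the contraction. Let U ≠ ⊥ and 0 ≠ u ∈ U. The map v ↦ bl (tc n j l) K v u from (Mon n (j + l) → K) to (Mon n l → K) is surjective: it is the transpose of the map w ↦ u * w, (Mon n l → K) → (Mon n (j + l) → K), (u * w)(x) = sum over a + b = x of u a * w b, which is injective since the polynomials form a domain (identify u with the polynomial sum of u a * monomial a 1, w similarly; the product
of nonzero polynomials is nonzero, and its coefficients at x ∈ Mon n (j + l) are (u * w)(x)). Concretely: if the range is not everything there is a nonzero linear functional, given by w ≠ 0, sum over b of w b * bl v u b = 0 for all v (a proper subspace of (Mon n l → K) is annihilated by a nonzero w, e.g. Submodule.exists_le_ker_of_lt_top and the expression of the functional as a dot product);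
taking v = Pi.single x 1 gives (u * w)(x) = 0 for all x, so u * w = 0, contradiction. Hence TU = ⊤ for U ≠ ⊥ (also for U = ⊤, which is not ⊥ as Mon n j is nonempty, h1_pos), and the inequality is finrank U * |B| < |B| * |A| for U ≠ ⊤ (Submodule.finrank_lt, |B| > 0 by h1_pos).
-/

open MvPolynomial

namespace H92B

theorem l6 (n j l : ℕ) (hn : 1 ≤ n) (K : Type) [Field K] : Stab (tc n j l) K := by
  classical
  have hval : ∀ (x : Mon n (j + l)) (u : Mon n j → K) (b : Mon n l), bl (tc n j l) K (Pi.single x 1) u b =
      ∑ a : Mon n j, if (a : Fin n →₀ ℕ) + (b : Fin n →₀ ℕ) = (x : Fin n →₀ ℕ) then u a else 0 := by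
    intro x u b
    unfold bl
    rw [Finset.sum_eq_single x]
    · refine Finset.sum_congr rfl fun a _ => ?_
      rw [Pi.single_eq_same, mul_one]
      unfold tc
      split_ifs
      · rw [Int.cast_one, one_mul]
      · rw [Int.cast_zero, zero_mul]
    · intro l _ hl
      refine Finset.sum_eq_zero fun a _ => ?_
      rw [Pi.single_eq_of_ne hl, mul_zero, zero_mul]
    · exact fun h => absurd (Finset.mem_univ _) h
  have hpoly : ∀ (r : ℕ) (u : Mon n r → K), u ≠ 0 → (∑ a : Mon n r, monomial (a : Fin n →₀ ℕ) (u a) : P K n) ≠ 0 := by
    intro r u hu h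
    apply hu
    funext a
    have h1 := congrArg (coeff (a : Fin n →₀ ℕ)) h
    rw [coeff_sum, Finset.sum_eq_single a] at h1
    · rw [coeff_monomial, if_pos rfl, coeff_zero] at h1
      exact h1
    · intro b _ hb
      rw [coeff_monomial, if_neg fun h2 => hb (Subtype.ext h2)]
    · exact fun h => absurd (Finset.mem_univ _) h
  have htop : ∀ U : Submodule K (Mon n j → K), U ≠ ⊥ → TU (tc n j l) K U = ⊤ := by
    intro U hU
    obtain ⟨u, hu, hu0⟩ := (Submodule.ne_bot_iff U).1 hU
    by_contra hne
    obtain ⟨φ, hφ0, hφ⟩ := Submodule.exists_le_ker_of_lt_top _ (lt_top_iff_ne_top.2 hne)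
    let c : Mon n l → K := fun b => φ (Pi.single b 1)
    have hφc : ∀ w : Mon n l → K, φ w = ∑ b, w b * c b := by
      intro w
      conv_lhs => rw [← Finset.univ_sum_single w]
      rw [map_sum]
      refine Finset.sum_congr rfl fun b _ => ?_
      have h1 : (Pi.single b (w b) : Mon n l → K) = w b • Pi.single b 1 := by
        rw [← Pi.single_smul, smul_eq_mul, mul_one]
      rw [h1, map_smul, smul_eq_mul]
    have hc0 : c ≠ 0 := by
      intro h
      apply hφ0
      ext w
      rw [LinearMap.comp_apply, hφc]
      simp [h]
    have hprod : (∑ a : Mon n j, monomial (a : Fin n →₀ ℕ) (u a) : P K n) * (∑ b : Mon n l, monomial (b : Fin n →₀ ℕ) (c b)) = 0 := by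
      ext x
      rw [coeff_zero, Finset.sum_mul_sum, coeff_sum]
      by_cases hx : x ∈ An n (j + l)
      · have h1 : φ (bl (tc n j l) K (Pi.single ⟨x, hx⟩ 1) u) = 0 := hφ (Submodule.subset_span ⟨_, u, hu, rfl⟩)
        rw [hφc] at h1
        rw [← h1]
        simp only [hval, Finset.sum_mul]
        rw [Finset.sum_comm]
        refine Finset.sum_congr rfl fun b _ => ?_
        rw [coeff_sum]
        refine Finset.sum_congr rfl fun a _ => ?_
        rw [monomial_mul, coeff_monomial]
        split_ifs
        · rfl
        · rw [zero_mul]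
      · refine Finset.sum_eq_zero fun a _ => ?_
        rw [coeff_sum]
        refine Finset.sum_eq_zero fun b _ => ?_
        rw [monomial_mul, coeff_monomial, if_neg]
        intro h1
        apply hx
        rw [← h1, mem_An, map_add, mem_An.1 a.2, mem_An.1 b.2]
    rcases mul_eq_zero.1 hprod with h1 | h1
    · exact hpoly j u hu0 h1
    · exact hpoly l c hc0 h1
  have hposA := h1_pos n j hn
  have hposB := h1_pos n l hn
  constructor
  · refine htop ⊤ ?_
    intro h
    have h1 : Module.finrank K (⊤ : Submodule K (Mon n j → K)) = 0 := by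
      rw [h]
      exact finrank_bot _ _
    rw [finrank_top, Module.finrank_fintype_fun_eq_card] at h1
    omega
  · intro U hU0 hU1
    rw [htop U hU0, finrank_top, Module.finrank_fintype_fun_eq_card, mul_comm]
    refine Nat.mul_lt_mul_of_pos_left ?_ hposB
    have h1 := Submodule.finrank_lt hU1
    rwa [Module.finrank_fintype_fun_eq_card] at h1

end H92B
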