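import Pool.Agent.Lib.H92B.Basic
import Pool.Agent.Lib.H92B.H1

/-!
# H92B, chunk N2

The proportions in the second family, n = N + 2. HK for i = 0, i' = N + 2: β 0 * ∏_{1 ≤ q ≤ N + 2} |d q - d 0| = β (N + 2) * ∏_{0 ≤ q ≤ N + 1} |d q - d (N + 2)|. The left product is (∏_{1 ≤ q ≤ N + 1} (j0 + q)) * (j0 + l + N + 2) = |Mon (N + 2) j0| * (N + 1)! * (j0 + l + N + 2) (h1_prod), the right product is (j0 + l + N + 2) * ∏_{1 ≤ q ≤ N + 1} (l + (N + 2) - q) = (j0 + l + N + 2) * |Mon (N + 2) l| * (N + 1)! (reverse the order of the product). Cancel.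
-/

open MvPolynomial

namespace H92B

theorem n2 (N j0 l : ℕ) (d : ℕ → ℤ) (h1 : ∀ q, 1 ≤ q → q ≤ N + 1 → d q = d 0 + (j0 + q)) (h2 : d (N + 2) = d 0 + (j0 + l + (N + 2)))
    (β : ℕ → ℕ) (h : HK d (N + 2) β) :
    β 0 * Fintype.card (Mon (N + 2) j0) = β (N + 2) * Fintype.card (Mon (N + 2) l) := by
  have h3 := h 0 (by omega) (N + 2) (by omega)
  have e1 : (Finset.range (N + 2 + 1)).erase 0 = insert (N + 2) (Finset.Ico 1 (N + 2)) := by
    ext j
    simp only [Finset.mem_erase, Finset.mem_range, Finset.mem_insert, Finset.mem_Ico]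
    omega
  have e0 : (Finset.range (N + 2 + 1)).erase (N + 2) = insert 0 (Finset.Ico 1 (N + 2)) := by
    ext j
    simp only [Finset.mem_erase, Finset.mem_range, Finset.mem_insert, Finset.mem_Ico]
    omega
  have n0 : (0 : ℕ) ∉ Finset.Ico 1 (N + 2) := by simp
  have n1 : N + 2 ∉ Finset.Ico 1 (N + 2) := by simp
  rw [e1, e0, Finset.prod_insert n0, Finset.prod_insert n1, Finset.prod_Ico_eq_prod_range, Finset.prod_Ico_eq_prod_range] at h3
  have p1 : ∏ r ∈ Finset.range (N + 2 - 1), |d (1 + r) - d 0| = ((Fintype.card (Mon (N + 2) j0) * (N + 1).factorial : ℕ) : ℤ) := by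
    rw [h1_prod (N + 1) j0, show N + 2 - 1 = N + 1 by omega]
    push_cast
    refine Finset.prod_congr rfl fun r hr => ?_
    rw [Finset.mem_range] at hr
    rw [h1 (1 + r) (by omega) (by omega), abs_of_pos (by push_cast; omega)]
    push_cast
    ring
  have p0 : ∏ r ∈ Finset.range (N + 2 - 1), |d (1 + r) - d (N + 2)| = ((Fintype.card (Mon (N + 2) l) * (N + 1).factorial : ℕ) : ℤ) := by
    rw [h1_prod (N + 1) l, show N + 2 - 1 = N + 1 by omega, ← Finset.prod_range_reflect]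
    push_cast
    refine Finset.prod_congr rfl fun r hr => ?_
    rw [Finset.mem_range] at hr
    have h5 : ((1 + (N - r) : ℕ) : ℤ) = 1 + (N - r) := by omega
    rw [h1 (1 + (N - r)) (by omega) (by omega), h2, h5, abs_of_neg (by omega)]
    ring
  have q1 : |d (N + 2) - d 0| = (j0 : ℤ) + l + (N + 2) := by
    rw [h2, abs_of_pos (by omega)]
    ring
  have q0 : |d 0 - d (N + 2)| = (j0 : ℤ) + l + (N + 2) := by
    rw [abs_sub_comm, q1]
  rw [p1, p0, q1, q0] at h3
  have hF : (((j0 : ℤ) + l + (N + 2)) * (N + 1).factorial) ≠ 0 := by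
    have := Nat.factorial_pos (N + 1)
    positivity
  have h4 : ((β 0 * Fintype.card (Mon (N + 2) j0) : ℕ) : ℤ) * (((j0 : ℤ) + l + (N + 2)) * (N + 1).factorial) =
      ((β (N + 2) * Fintype.card (Mon (N + 2) l) : ℕ) : ℤ) * (((j0 : ℤ) + l + (N + 2)) * (N + 1).factorial) := by
    push_cast at h3 ⊢
    linear_combination h3
  exact_mod_cast mul_right_cancel₀ hF h4

end H92B
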