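import Pool.Agent.Lib.H92B.Basic
import Pool.Agent.Lib.H92B.L6
import Pool.Agent.Lib.H92B.L10
import Pool.Agent.Lib.H92B.F2A
import Pool.Agent.Lib.H92B.F2B
import Pool.Agent.Lib.H92B.N2
import Pool.Agent.Lib.H92B.NR
import Pool.Agent.Lib.H92B.PU
import Pool.Agent.Lib.H92B.H1

/-!
# H92B, chunk F2

The second family. cA = |Mon (N + 2) j0|, cB = |Mon (N + 2) l| (positive, h1_pos), a0, b0 from nr, R from l10 for t = tc (N + 2) j0 l (l6), and take the bound R * a0. Let β be given. By n2 and nr β 0 = r * a0, β (N + 2) = r * b0, and R ≤ r. l10 gives Φ, f2a gives θ : (Fin (r * a0) → P) → (Fin (r * b0) → Du), f2b gives the type condition for Z0 = ker θ ⊆ (Fin (r * a0) → P), pu (with N + 1 in place of N, b = r * a0) the resolution.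
The sequence d is strictly increasing up to N + 2.
-/

open MvPolynomial

namespace H92B

theorem f2 (k : Type) [Field k] (N j0 l : ℕ) (d : ℕ → ℤ) (h1 : ∀ q, 1 ≤ q → q ≤ N + 1 → d q = d 0 + (j0 + q))
    (h2 : d (N + 2) = d 0 + (j0 + l + (N + 2))) : Good k (N + 2) (N + 2) d := by
  obtain ⟨a0, b0, ha0, hb0, hab, hsplit⟩ := nr (Fintype.card (Mon (N + 2) j0)) (Fintype.card (Mon (N + 2) l))
    (h1_pos _ _ (by omega)) (h1_pos _ _ (by omega))
  obtain ⟨R, hR⟩ := l10 (tc (N + 2) j0 l) (fun K _ => l6 (N + 2) j0 l (by omega) K) a0 b0 hab hb0 (h1_pos _ _ (by omega)) k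
  refine ⟨R * a0, fun β hz hpos hbig hHK => ?_⟩
  obtain ⟨r, hr0, hr1⟩ := hsplit _ _ (n2 N j0 l d h1 h2 β hHK)
  have hRr : R ≤ r := by
    rw [hr0] at hbig
    exact Nat.le_of_mul_le_mul_right hbig ha0
  obtain ⟨Φ, hΦ⟩ := hR r hRr
  obtain ⟨θ, hθ, hinj⟩ := f2a (N + 2) j0 l (r * a0) (r * b0) Φ hΦ
  obtain ⟨hIs, hTC, hfl⟩ := f2b N j0 l (r * a0) (r * b0) θ hθ hinj (by rw [mul_assoc, hab, mul_assoc]) d h1 h2
  have hd : ∀ i < N + 1 + 1, d i < d (i + 1) := by
    intro i hi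
    rcases Nat.eq_zero_or_pos i with h0 | h0
    · subst h0
      rw [h1 (0 + 1) (by omega) (by omega)]
      push_cast
      omega
    · by_cases hi1 : i = N + 1
      · subst hi1
        rw [h1 (N + 1) (by omega) (by omega), show N + 1 + 1 = N + 2 from rfl, h2]
        push_cast
        omega
      · rw [h1 i (by omega) (by omega), h1 (i + 1) (by omega) (by omega)]
        push_cast
        omega
  exact pu (N + 1) d hd β hHK hz (r * a0) hr0 _ hIs hTC ((j0 : ℤ) + l + 1) fun t ht x hx => hfl t (by omega) x hx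

end H92B
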