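import Pool.Agent.Lib.H92B.Basic
import Pool.Agent.Lib.H92B.E2
import Pool.Agent.Lib.H92B.G3

/-!
# H92B, chunk F3A

The adjoint map. Let A be the matrix of f1a, α x = A.mulVec x : (Fin a → P) → (Fin b → P), and let ρ : (Fin b → Du) → (Fin a → Du), (ρ f) j = Σ_i A i j • f i (P-linear). Degrees: f i ∈ Dg (h - j'), A i j ∈ hm p, so A i j • f i ∈ Dg (h - j' - p) = Dg ((h - p) - j') (Dg_smul), h = m + p - 1. Injectivity on GM b h (-1), that is f i ∈ Dg (m + p): let ρ f = 0. α : HM a m → HM b (m + p) is surjective (e2, g3_rank, hab; degrees by hm_mul). For y ∈ HM b (m + p), y = α x: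
Σ_i (f i).ev (y i) = Σ_i Σ_j (f i).ev (A i j * x j) = Σ_j ((ρ f) j).ev (x j) = 0. Taking y = Pi.single i (monomial ν 1) with ν of degree m + p: (f i).ev (monomial ν 1) = 0, and for ν of another degree it is 0 by mem_Dg_iff. So f = 0 (Du_ext_monomial).
-/

open MvPolynomial

namespace H92B

/-- The evaluation as an additive map. -/
noncomputable def f3a_ev {k : Type} [Field k] {n : ℕ} (x : P k n) : Du k n →+ k where
  toFun f := f.ev x
  map_zero' := rfl
  map_add' _ _ := rfl

theorem f3a_sum {k : Type} [Field k] {n : ℕ} {ι : Type} (s : Finset ι) (f : ι → Du k n) (x : P k n) :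
    (∑ i ∈ s, f i).ev x = ∑ i ∈ s, (f i).ev x := map_sum (f3a_ev x) f s

/-- The adjoint map. -/
noncomputable def f3a_map {k : Type} [Field k] {n a b : ℕ} (A : Matrix (Fin b) (Fin a) (P k n)) :
    (Fin b → Du k n) →ₗ[P k n] (Fin a → Du k n) where
  toFun f j := ∑ i, A i j • f i
  map_add' x y := by
    funext i
    rw [Pi.add_apply, ← Finset.sum_add_distrib]
    exact Finset.sum_congr rfl fun j _ => by rw [Pi.add_apply, smul_add]
  map_smul' c x := by
    funext i
    rw [RingHom.id_apply, Pi.smul_apply, Finset.smul_sum]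
    exact Finset.sum_congr rfl fun j _ => by rw [Pi.smul_apply, smul_comm]

theorem f3a {k : Type} [Field k] (n p m a b : ℕ) (A : Matrix (Fin b) (Fin a) (P k n)) (hA : ∀ i j, A i j ∈ hm k n p)
    (hinj : ∀ x ∈ HM k n a m, A.mulVec x = 0 → x = 0) (hab : a * Fintype.card (Mon n m) = b * Fintype.card (Mon n (m + p))) :
    ∃ ρ : (Fin b → Du k n) →ₗ[P k n] (Fin a → Du k n),
      (∀ (j : ℤ), ∀ x ∈ GM k n b ((m : ℤ) + p - 1) j, ρ x ∈ GM k n a ((m : ℤ) - 1) j) ∧
      ∀ x ∈ GM k n b ((m : ℤ) + p - 1) (-1), ρ x = 0 → x = 0 := by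
  classical
  refine ⟨f3a_map A, fun j x hx => ?_, fun f hf hf0 => ?_⟩
  · rw [mem_GM] at hx ⊢
    intro i
    change (∑ r, A r i • x r : Du k n) ∈ Dg k n ((m : ℤ) - 1 - j)
    refine Submodule.sum_mem _ (fun (r : Fin b) _ => ?_)
    have h1 := Dg_smul (hA r i) (hx r)
    rwa [show (m : ℤ) + p - 1 - j - p = m - 1 - j by ring] at h1
  · have hfd1 := g3_fin k n a m
    have hfd2 := g3_fin k n b ((m : ℤ) + p)
    have hsurj := e2 (HM k n a m) (HM k n b ((m : ℤ) + p)) A.mulVecLin (fun x hx => by
      rw [mem_HM] at hx ⊢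
      intro i
      rw [Matrix.mulVecLin_apply, Matrix.mulVec, dotProduct]
      refine Submodule.sum_mem _ fun j _ => ?_
      rw [add_comm]
      exact hm_mul (hA i j) (hx j)) (by
      have h1 := g3_rank k n b (m + p)
      push_cast at h1
      rw [g3_rank, h1, hab]) (fun x hx hx0 => hinj x hx hx0)
    have hpair : ∀ y ∈ HM k n b ((m : ℤ) + p), ∑ i, (f i).ev (y i) = 0 := by
      intro y hy
      obtain ⟨x, _, rfl⟩ := hsurj y hy
      have h1 : ∀ i, (f i).ev (A.mulVecLin x i) = ∑ j, (A i j • f i).ev (x j) := by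
        intro i
        rw [Matrix.mulVecLin_apply, Matrix.mulVec, dotProduct, map_sum]
        rfl
      rw [Finset.sum_congr rfl fun i _ => h1 i, Finset.sum_comm]
      refine Finset.sum_eq_zero fun j _ => ?_
      rw [← f3a_sum]
      have h2 : (∑ i, A i j • f i : Du k n) = 0 := congrFun hf0 j
      rw [h2, Du.zero_ev]
    funext i
    refine Du_ext_monomial fun ν => ?_
    show (f i).ev (monomial ν 1) = 0
    by_cases hν : ν.degree = m + p
    · have h1 := hpair (Pi.single i (monomial ν 1)) (mem_HM.2 fun r => by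
        by_cases hr : r = i
        · subst hr
          rw [Pi.single_eq_same]
          have h2 := mem_hm_nat.2 (isHomogeneous_monomial (1 : k) hν)
          push_cast at h2
          exact h2
        · rw [Pi.single_eq_of_ne hr]
          exact Submodule.zero_mem _)
      rw [Finset.sum_eq_single i] at h1
      · rwa [Pi.single_eq_same] at h1
      · intro r _ hr
        rw [Pi.single_eq_of_ne hr, map_zero]
      · exact fun h3 => absurd (Finset.mem_univ _) h3
    · refine (mem_Dg_iff.1 (mem_GM.1 hf i)) ν fun h1 => hν ?_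
      have h2 : ((ν.degree : ℕ) : ℤ) = ((m + p : ℕ) : ℤ) := by
        rw [h1]
        push_cast
        ring
      exact_mod_cast h2

end H92B
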