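import Pool.Agent.Lib.H92B.Basic
import Pool.Agent.Lib.H92B.K4
import Pool.Agent.Lib.H92B.CH
import Pool.Agent.Lib.H92B.E1
import Pool.Agent.Lib.H92B.E2
import Pool.Agent.Lib.H92B.G2
import Pool.Agent.Lib.H92B.G4
import Pool.Agent.Lib.H92B.H2

/-!
# H92B, chunk F3B

The type condition for the third family, n = N + 2, h = m + p - 1 ≥ 0 (p ≥ 1), h' = m - 1. g j = {x ∈ GM b h j | ρ x = 0}. (1) ρ is injective on GM b h j for j ≤ -1: e1_down with i0 = -1, hsoc from k4 (q = n, j ≠ h as j < 0 ≤ h) and socle_of_HV. So g j = ⊥ for j ≤ -1. (2) ρ : GM b h (-1) → GM a h' (-1) is surjective: e2 with g4_rank (h + 1 = m + p, h' + 1 = m) and hab; so ρ : GM b h j → GM a h' j is surjective for j ≥ -1 (e1_up with k4, q = 0 < n, e = 0).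
GrM: mul: GM_X and linearity; independence: g2 and iSupIndep.mono. Finite-dimensional: g4_fin and le. g j = ⊥ for j > h: GM_gt. The rank of g 0: rank-nullity for ρ : GM b h 0 → GM a h' 0, surjective by (2): finrank (g 0) + finrank (GM a h' 0) = finrank (GM b h 0) = b * |Mon (m + p - 1)| (g4_rank), and finrank (GM a h' 0) = a * |Mon (m - 1)| if m ≥ 1 and 0 if m = 0 (GM_gt).
TC: let q, j with not (0 + q ≤ N + 2 and j + q = d (0 + q) - d 0). q > N + 2: HV_gt. j ≤ -1: HV_bot. So q ≤ N + 2, j ≥ 0, j + q ≠ d q - d 0. Use ch with g = GM b h, g' = GM a h', e = 0, gk = g. q ≤ N: d q - d 0 = q, so j ≠ 0, j - 2 ≥ -1: h1 by k4 (q < n), h2 by k4 (q + 1 < n), h3 by (2). q = N + 1: d q - d 0 = m + N + 1, j ≠ m: h1 by k4 (q < n), h2 by k4 (q + 1 = n, j - 1 ≠ m - 1), h3 void. q = N + 2: j ≠ m + p - 1 = h: h1 by k4, h2: HV_gt, h3 void.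
-/

open MvPolynomial

namespace H92B

theorem f3b {k : Type} [Field k] (N p m a b : ℕ) (hp : 1 ≤ p) (ρ : (Fin b → Du k (N + 2)) →ₗ[P k (N + 2)] (Fin a → Du k (N + 2)))
    (hρ : ∀ (j : ℤ), ∀ x ∈ GM k (N + 2) b ((m : ℤ) + p - 1) j, ρ x ∈ GM k (N + 2) a ((m : ℤ) - 1) j)
    (hinj : ∀ x ∈ GM k (N + 2) b ((m : ℤ) + p - 1) (-1), ρ x = 0 → x = 0)
    (hab : a * Fintype.card (Mon (N + 2) m) = b * Fintype.card (Mon (N + 2) (m + p)))
    (d : ℕ → ℤ) (h1 : ∀ q, q ≤ N → d q = d 0 + q) (h2 : d (N + 1) = d 0 + (m + (N + 1))) (h3 : d (N + 2) = d 0 + (m + (N + 1) + p)) :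
    ∃ g : ℤ → Submodule k (Fin b → Du k (N + 2)), GrM (N + 2) g ∧ (∀ j < 0, g j = ⊥) ∧ (∀ j, FiniteDimensional k (g j)) ∧
      (∀ j : ℤ, (m : ℤ) + p - 1 < j → g j = ⊥) ∧ TC (N + 2) g d (N + 2) 0 (d 0) ∧
      Module.finrank k (g 0) + a * (if 1 ≤ m then Fintype.card (Mon (N + 2) (m - 1)) else 0) = b * Fintype.card (Mon (N + 2) (m + p - 1)) := by
  have hn : 0 < N + 2 := by omega
  set h : ℤ := (m : ℤ) + p - 1 with hh
  have hinj' : ∀ j ≤ (-1 : ℤ), ∀ x ∈ GM k (N + 2) b h j, ρ x = 0 → x = 0 :=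
    e1_down (GM k (N + 2) b h) ρ (-1) (fun a j x hx => GM_X a hx)
      (fun j hj y hy hy2 => socle_of_HV _ j (k4 b h (N + 2) j (by omega)) y hy hy2) hinj
  have hfd1 := g4_fin k (N + 2) b h (-1)
  have hfd2 := g4_fin k (N + 2) a ((m : ℤ) - 1) (-1)
  have hsurj0 := e2 (GM k (N + 2) b h (-1)) (GM k (N + 2) a ((m : ℤ) - 1) (-1)) ρ (hρ (-1)) (by
    rw [g4_rank k (N + 2) b (m + p) h (-1) (by push_cast; omega), g4_rank k (N + 2) a m ((m : ℤ) - 1) (-1) (by ring), hab])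
    (fun x hx hx0 => hinj x hx hx0)
  have hsurj : ∀ j, (-1 : ℤ) ≤ j → ∀ y ∈ GM k (N + 2) a ((m : ℤ) - 1) (j + 0), ∃ x ∈ GM k (N + 2) b h j, ρ x = y :=
    e1_up (GM k (N + 2) b h) (GM k (N + 2) a ((m : ℤ) - 1)) ρ 0 (-1) (fun a j x hx => GM_X a hx)
      (fun j hj => k4 a _ 0 (j + 0) (by omega)) (by rwa [add_zero])
  let g : ℤ → Submodule k (Fin b → Du k (N + 2)) := fun j => GM k (N + 2) b h j ⊓ LinearMap.ker (ρ.restrictScalars k)
  have hgm : ∀ j x, x ∈ g j ↔ x ∈ GM k (N + 2) b h j ∧ ρ x = 0 := fun j x => Iff.rfl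
  have hle : g ≤ GM k (N + 2) b h := fun j => inf_le_left
  refine ⟨g, ⟨fun i j x hx => ?_, (g2 k (N + 2) b h).ind.mono hle⟩, fun j hj => ?_, fun j => ?_, fun j hj => ?_, fun q j hqj => ?_, ?_⟩
  · refine (hgm _ _).2 ⟨GM_X i ((hgm _ _).1 hx).1, ?_⟩
    rw [map_smul, ((hgm _ _).1 hx).2, smul_zero]
  · rw [eq_bot_iff]
    intro x hx
    exact (Submodule.mem_bot k).2 (hinj' j (by omega) x ((hgm _ _).1 hx).1 ((hgm _ _).1 hx).2)
  · have := g4_fin k (N + 2) b h j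
    exact Submodule.finiteDimensional_of_le (hle j)
  · rw [eq_bot_iff, ← GM_gt (k := k) (n := N + 2) (c := b) hj]
    exact hle j
  · by_cases hq : N + 2 < q
    · exact HV_gt _ q j hq
    by_cases hj0 : j ≤ -1
    · refine HV_bot _ q j ?_
      rw [eq_bot_iff]
      intro x hx
      exact (Submodule.mem_bot k).2 (hinj' j (by omega) x ((hgm _ _).1 hx).1 ((hgm _ _).1 hx).2)
    have hjq : j + q ≠ d q - d 0 := fun h => hqj ⟨by omega, by rw [zero_add]; exact h⟩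
    refine ch (GM k (N + 2) b h) (GM k (N + 2) a ((m : ℤ) - 1)) ρ 0 g hgm
      (fun a j x hx => GM_X a hx) (fun j x hx => by rw [add_zero]; exact hρ j x hx) q j (k4 b h q j fun h4 => ?_)
      (k4 a _ (q + 1) (j - 1 + 0) fun h4 => ?_) fun hq3 y hy => ?_
    · apply hjq
      rw [h4.1, h3, h4.2, hh]
      push_cast
      ring
    · apply hjq
      have h5 := h4.1
      have h6 := h4.2
      rw [show q = N + 1 by omega, h2]
      push_cast
      omega
    · refine hsurj (j - 2) ?_ y hy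
      rw [h1 q (by omega)] at hjq
      omega
  · have h4 := g4_fin k (N + 2) b h 0
    have h5 := h2_rn (GM k (N + 2) b h 0) (ρ.restrictScalars k)
    have h6 : (GM k (N + 2) b h 0).map (ρ.restrictScalars k) = GM k (N + 2) a ((m : ℤ) - 1) 0 := by
      ext y
      constructor
      · rintro ⟨x, hx, rfl⟩
        exact hρ 0 x hx
      · intro hy
        obtain ⟨x, hx1, hx2⟩ := hsurj 0 (by omega) y (by rwa [add_zero])
        exact ⟨x, hx1, hx2⟩
    have h7 : Module.finrank k (GM k (N + 2) a ((m : ℤ) - 1) 0) = a * (if 1 ≤ m then Fintype.card (Mon (N + 2) (m - 1)) else 0) := by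
      split_ifs with h8
      · exact g4_rank k (N + 2) a (m - 1) ((m : ℤ) - 1) 0 (by omega)
      · rw [GM_gt (by omega), finrank_bot, mul_zero]
    rw [h6, h7, g4_rank k (N + 2) b (m + p - 1) h 0 (by omega)] at h5
    rw [h5, add_comm]

end H92B
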