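import Pool.Agent.Lib.H92B.Basic
import Pool.Agent.Lib.H92B.H1

/-!
# H92B, chunk N3

The proportions in the third family, n = N + 2. HK for i = N + 1, i' = N + 2: ∏_{j ≠ N + 1} |d j - d (N + 1)| = (∏_{q ≤ N} (m + N + 1 - q)) * p = |Mon (N + 2) m| * (N + 1)! * p (h1_prod with the order of the product reversed: m + N + 1 - q for q = 0, .., N runs through m + 1, .., m + N + 1), ∏_{j ≠ N + 2} |d j - d (N + 2)| = (∏_{q ≤ N} (m + p + N + 1 - q)) * p = |Mon (N + 2) (m + p)| * (N + 1)! * p. Cancel p * (N + 1)!.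
-/

open MvPolynomial

namespace H92B

theorem n3 (N p m : ℕ) (hp : 1 ≤ p) (d : ℕ → ℤ) (h1 : ∀ q, q ≤ N → d q = d 0 + q) (h2 : d (N + 1) = d 0 + (m + (N + 1)))
    (h3 : d (N + 2) = d 0 + (m + (N + 1) + p)) (β : ℕ → ℕ) (h : HK d (N + 2) β) :
    β (N + 1) * Fintype.card (Mon (N + 2) m) = β (N + 2) * Fintype.card (Mon (N + 2) (m + p)) := by
  have h4 := h (N + 1) (by omega) (N + 2) (by omega)
  have e1 : (Finset.range (N + 2 + 1)).erase (N + 1) = insert (N + 2) (Finset.range (N + 1)) := by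
    ext j
    simp only [Finset.mem_erase, Finset.mem_range, Finset.mem_insert]
    omega
  have e0 : (Finset.range (N + 2 + 1)).erase (N + 2) = insert (N + 1) (Finset.range (N + 1)) := by
    ext j
    simp only [Finset.mem_erase, Finset.mem_range, Finset.mem_insert]
    omega
  have n0 : N + 1 ∉ Finset.range (N + 1) := by simp
  have n1 : N + 2 ∉ Finset.range (N + 1) := by simp
  rw [e1, e0, Finset.prod_insert n0, Finset.prod_insert n1] at h4
  have p1 : ∏ r ∈ Finset.range (N + 1), |d r - d (N + 1)| = ((Fintype.card (Mon (N + 2) m) * (N + 1).factorial : ℕ) : ℤ) := by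
    rw [h1_prod (N + 1) m, ← Finset.prod_range_reflect]
    push_cast
    refine Finset.prod_congr rfl fun r hr => ?_
    rw [Finset.mem_range] at hr
    have h5 : ((N - r : ℕ) : ℤ) = N - r := by omega
    rw [h1 (N - r) (by omega), h2, abs_of_neg (by omega), h5]
    ring
  have p0 : ∏ r ∈ Finset.range (N + 1), |d r - d (N + 2)| = ((Fintype.card (Mon (N + 2) (m + p)) * (N + 1).factorial : ℕ) : ℤ) := by
    rw [h1_prod (N + 1) (m + p), ← Finset.prod_range_reflect]
    push_cast
    refine Finset.prod_congr rfl fun r hr => ?_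
    rw [Finset.mem_range] at hr
    have h5 : ((N - r : ℕ) : ℤ) = N - r := by omega
    rw [h1 (N - r) (by omega), h3, abs_of_neg (by omega), h5]
    ring
  have q1 : |d (N + 2) - d (N + 1)| = (p : ℤ) := by
    rw [h2, h3, show d 0 + ((m : ℤ) + (N + 1) + p) - (d 0 + (m + (N + 1))) = p by ring]
    exact abs_of_nonneg (by positivity)
  have q0 : |d (N + 1) - d (N + 2)| = (p : ℤ) := by
    rw [abs_sub_comm, q1]
  rw [p1, p0, q1, q0] at h4
  have hF : ((p : ℤ) * (N + 1).factorial) ≠ 0 := by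
    have := Nat.factorial_pos (N + 1)
    positivity
  have h6 : ((β (N + 1) * Fintype.card (Mon (N + 2) m) : ℕ) : ℤ) * ((p : ℤ) * (N + 1).factorial) =
      ((β (N + 2) * Fintype.card (Mon (N + 2) (m + p)) : ℕ) : ℤ) * ((p : ℤ) * (N + 1).factorial) := by
    push_cast at h4 ⊢
    linear_combination h4
  exact_mod_cast mul_right_cancel₀ hF h6

end H92B
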