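import Pool.Agent.Lib.H92B.Basic

/-!
# H92B, chunk H4

The converse. Over ℚ: for a polynomial Q of degree < s the identity sum over i ≤ s of Q(d i) / ∏_{j ≠ i} (d i - d j) = 0 is Lagrange.coeff_eq_sum with the nodes d i (injective on range (s + 1) as d is strictly increasing there): the coefficient of x^s of Q is 0. Put C = β 0 * ∏_{j ≠ 0} |d j - d 0|; by HK β i = C / ∏_{j ≠ i} |d j - d i|, and
∏_{j ≠ i} (d i - d j) = (-1)^(s - i) ∏_{j ≠ i} |d j - d i|. So (-1)^i β i = (-1)^s C / ∏_{j ≠ i} (d i - d j), and the sum is (-1)^s C times the Lagrange sum.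
-/

open MvPolynomial

namespace H92B

theorem h4_lt (s : ℕ) (d : ℕ → ℤ) (hd : ∀ i < s, d i < d (i + 1)) (i j : ℕ) (hij : i < j) (hj : j ≤ s) : d i < d j := by
  obtain ⟨e, rfl⟩ : ∃ e, j = i + (e + 1) := ⟨j - i - 1, by omega⟩
  clear hij
  induction e with
  | zero => exact hd i (by omega)
  | succ e ih => exact (ih (by omega)).trans (hd (i + (e + 1)) (by omega))

theorem h4_sign (s : ℕ) (d : ℕ → ℤ) (hd : ∀ i < s, d i < d (i + 1)) (i : ℕ) (hi : i ≤ s) :
    (-1 : ℤ) ^ i * ∏ j ∈ (Finset.range (s + 1)).erase i, (d i - d j) =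
      (-1 : ℤ) ^ s * ∏ j ∈ (Finset.range (s + 1)).erase i, |d j - d i| := by
  have h1 : ∀ j ∈ (Finset.range (s + 1)).erase i, d i - d j = (if i < j then -1 else 1) * |d j - d i| := by
    intro j hj
    rw [Finset.mem_erase, Finset.mem_range] at hj
    rcases lt_or_gt_of_ne hj.1 with h2 | h2
    · have h3 := h4_lt s d hd j i h2 hi
      rw [if_neg (by omega), abs_of_neg (by omega)]
      ring
    · have h3 := h4_lt s d hd i j h2 (by omega)
      rw [if_pos h2, abs_of_pos (by omega)]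
      ring
  rw [Finset.prod_congr rfl h1, Finset.prod_mul_distrib, Finset.prod_ite, Finset.prod_const, Finset.prod_const_one, mul_one]
  have h2 : ((Finset.range (s + 1)).erase i).filter (fun j => i < j) = Finset.Ioc i s := by
    ext j
    simp only [Finset.mem_filter, Finset.mem_erase, Finset.mem_range, Finset.mem_Ioc]
    omega
  rw [h2, Nat.card_Ioc, ← mul_assoc, ← pow_add, show i + (s - i) = s by omega]

theorem h4 (s : ℕ) (d : ℕ → ℤ) (hd : ∀ i < s, d i < d (i + 1)) (β : ℕ → ℕ) (h : HK d s β) (Q : Polynomial ℚ) (hQ : Q.natDegree < s) :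
    ∑ i ∈ Finset.range (s + 1), (-1 : ℚ) ^ i * (β i : ℚ) * Q.eval (d i : ℚ) = 0 := by
  have hinj : Set.InjOn (fun i => (d i : ℚ)) (Finset.range (s + 1) : Set ℕ) := by
    intro i hi j hj hij
    rw [Finset.mem_coe, Finset.mem_range] at hi hj
    have h1 : d i = d j := by
      dsimp only at hij
      exact_mod_cast hij
    rcases lt_trichotomy i j with h2 | h2 | h2
    · exact absurd h1 (h4_lt s d hd i j h2 (by omega)).ne
    · exact h2
    · exact absurd h1 (h4_lt s d hd j i h2 (by omega)).ne'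
  have hdeg : Q.degree < ((Finset.range (s + 1)).card : WithBot ℕ) := by
    rw [Finset.card_range]
    exact lt_of_le_of_lt Polynomial.degree_le_natDegree (by exact_mod_cast (by omega : Q.natDegree < s + 1))
  have h1 := Lagrange.coeff_eq_sum hinj hdeg
  rw [Finset.card_range, Nat.add_sub_cancel, Polynomial.coeff_eq_zero_of_natDegree_lt hQ] at h1
  have h2 : ∀ i ∈ Finset.range (s + 1), (-1 : ℚ) ^ i * (β i : ℚ) * Q.eval (d i : ℚ) =
      ((-1 : ℚ) ^ s * ((β 0 : ℚ) * ((∏ j ∈ (Finset.range (s + 1)).erase 0, |d j - d 0| : ℤ) : ℚ))) *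
        (Q.eval (d i : ℚ) / ∏ j ∈ (Finset.range (s + 1)).erase i, ((d i : ℚ) - (d j : ℚ))) := by
    intro i hi
    rw [Finset.mem_range] at hi
    have h3 := h4_sign s d hd i (by omega)
    have h4 := h i (by omega) 0 (Nat.zero_le _)
    have h5 : (∏ j ∈ (Finset.range (s + 1)).erase i, ((d i : ℚ) - (d j : ℚ))) ≠ 0 := by
      refine Finset.prod_ne_zero_iff.2 fun j hj => ?_
      rw [Finset.mem_erase, Finset.mem_range] at hj
      intro h6
      have h7 : d i = d j := by exact_mod_cast sub_eq_zero.1 h6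
      rcases lt_or_gt_of_ne hj.1 with h2 | h2
      · exact absurd h7 (h4_lt s d hd j i h2 (by omega)).ne'
      · exact absurd h7 (h4_lt s d hd i j h2 (by omega)).ne
    have h3' : (-1 : ℚ) ^ i * ∏ j ∈ (Finset.range (s + 1)).erase i, ((d i : ℚ) - (d j : ℚ)) =
        (-1 : ℚ) ^ s * ((∏ j ∈ (Finset.range (s + 1)).erase i, |d j - d i| : ℤ) : ℚ) := by
      have := congrArg (fun z : ℤ => (z : ℚ)) h3
      push_cast at this ⊢
      exact this
    have h4' : (β i : ℚ) * ((∏ j ∈ (Finset.range (s + 1)).erase i, |d j - d i| : ℤ) : ℚ) =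
        (β 0 : ℚ) * ((∏ j ∈ (Finset.range (s + 1)).erase 0, |d j - d 0| : ℤ) : ℚ) := by
      have := congrArg (fun z : ℤ => (z : ℚ)) h4
      push_cast at this ⊢
      exact this
    rw [← h4']
    field_simp
    linear_combination (β i : ℚ) * Q.eval (d i : ℚ) * h3'
  rw [Finset.sum_congr rfl h2, ← Finset.mul_sum, ← h1, mul_zero]

end H92B
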