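import Pool.Agent.Lib.H92B.Basic
import Pool.Agent.Lib.H92B.H1
import Pool.Agent.Lib.H92B.H4

/-!
# H92B, chunk N4

The value of β 0 in the third family. Apply h4 with s = N + 2 and Q(x) = (1 / (N + 1)!) * ∏_{1 ≤ r ≤ N + 1} (r - (x - d 0)), of degree N + 1 < N + 2. Q(d 0) = 1. Q(d q) = 0 for 1 ≤ q ≤ N (d q - d 0 = q). Q(d (N + 1)): d (N + 1) - d 0 = m + N + 1, Q = (-1)^(N + 1) * (1 / (N + 1)!) * ∏_{1 ≤ r ≤ N + 1} (m + N + 1 - r) = (-1)^(N + 1) * |Mon (N + 2) (m - 1)| if m ≥ 1 (h1_prod: m + N + 1 - r runs through m, .., m + N) and 0 if m = 0 (the factor r = N + 1).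
Q(d (N + 2)) = (-1)^(N + 1) * |Mon (N + 2) (m + p - 1)|. So β 0 + (-1)^(N + 1) (-1)^(N + 1) β (N + 1) |Mon (m - 1)| + (-1)^(N + 2) (-1)^(N + 1) β (N + 2) |Mon (m + p - 1)| = 0. The sequence d is strictly increasing up to N + 2 (h1, h2, h3, 1 ≤ p); for N = 0 the statement h1 only says d 0 = d 0.
-/

open MvPolynomial

namespace H92B

theorem n4_prod (N M : ℕ) : ∏ r ∈ Finset.range (N + 1), ((r : ℚ) + 1 - (M + (N + 1))) =
    (-1) ^ (N + 1) * ((if 1 ≤ M then Fintype.card (Mon (N + 2) (M - 1)) else 0 : ℕ) : ℚ) * (N + 1).factorial := by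
  split_ifs with hM
  · have h1 := h1_prod (N + 1) (M - 1)
    have h2 : ((Fintype.card (Mon (N + 2) (M - 1)) : ℕ) : ℚ) * (N + 1).factorial = ∏ r ∈ Finset.range (N + 1), ((M : ℚ) + r) := by
      have h3 : ((Fintype.card (Mon (N + 1 + 1) (M - 1)) * (N + 1).factorial : ℕ) : ℚ) =
          ((∏ r ∈ Finset.range (N + 1), (M - 1 + r + 1) : ℕ) : ℚ) := by rw [h1]
      push_cast at h3
      rw [h3]
      refine Finset.prod_congr rfl fun r _ => ?_
      rw [Nat.cast_sub hM]
      push_cast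
      ring
    rw [mul_assoc, h2, ← Finset.prod_range_reflect, ← Finset.card_range (N + 1), ← Finset.prod_const, Finset.card_range,
      ← Finset.prod_mul_distrib]
    refine Finset.prod_congr rfl fun r hr => ?_
    rw [Finset.mem_range] at hr
    have h5 : ((N + 1 - 1 - r : ℕ) : ℚ) = N - r := by
      rw [show N + 1 - 1 - r = N - r by omega, Nat.cast_sub (by omega)]
    rw [h5]
    ring
  · have h0 : M = 0 := by omega
    rw [h0, Nat.cast_zero, mul_zero, zero_mul]
    refine Finset.prod_eq_zero (Finset.self_mem_range_succ N) ?_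
    ring

theorem n4 (N p m : ℕ) (hp : 1 ≤ p) (d : ℕ → ℤ) (h1 : ∀ q, q ≤ N → d q = d 0 + q) (h2 : d (N + 1) = d 0 + (m + (N + 1)))
    (h3 : d (N + 2) = d 0 + (m + (N + 1) + p)) (β : ℕ → ℕ) (h : HK d (N + 2) β) :
    β 0 + β (N + 1) * (if 1 ≤ m then Fintype.card (Mon (N + 2) (m - 1)) else 0) = β (N + 2) * Fintype.card (Mon (N + 2) (m + p - 1)) := by
  let Q : Polynomial ℚ := ∏ r ∈ Finset.range (N + 1), (Polynomial.C ((r : ℚ) + 1 + (d 0 : ℚ)) - Polynomial.X)
  have hQd : Q.natDegree < N + 2 := by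
    have h4 : Q.natDegree ≤ ∑ r ∈ Finset.range (N + 1), 1 := by
      refine (Polynomial.natDegree_prod_le _ _).trans (Finset.sum_le_sum fun r _ => ?_)
      refine (Polynomial.natDegree_sub_le _ _).trans ?_
      rw [Polynomial.natDegree_C, Polynomial.natDegree_X]
      simp
    simp at h4
    omega
  have hQe : ∀ x : ℚ, Q.eval x = ∏ r ∈ Finset.range (N + 1), ((r : ℚ) + 1 - (x - d 0)) := by
    intro x
    show (∏ r ∈ Finset.range (N + 1), (Polynomial.C ((r : ℚ) + 1 + (d 0 : ℚ)) - Polynomial.X)).eval x = _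
    rw [Polynomial.eval_prod]
    refine Finset.prod_congr rfl fun r _ => ?_
    rw [Polynomial.eval_sub, Polynomial.eval_C, Polynomial.eval_X]
    ring
  have hd : ∀ i < N + 2, d i < d (i + 1) := by
    intro i hi
    by_cases hi1 : i = N + 1
    · subst hi1
      rw [show N + 1 + 1 = N + 2 from rfl, h2, h3]
      omega
    · by_cases hi2 : i = N
      · subst hi2
        rw [h1 i le_rfl, h2]
        omega
      · rw [h1 i (by omega), h1 (i + 1) (by omega)]
        push_cast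
        omega
  have h4 := h4 (N + 2) d hd β h Q hQd
  rw [show N + 2 + 1 = N + 1 + 1 + 1 from rfl, Finset.sum_range_succ, Finset.sum_range_succ, Finset.sum_range_succ'] at h4
  have z : ∑ i ∈ Finset.range N, (-1 : ℚ) ^ (i + 1) * (β (i + 1) : ℚ) * Q.eval (d (i + 1) : ℚ) = 0 := by
    refine Finset.sum_eq_zero fun i hi => ?_
    rw [Finset.mem_range] at hi
    rw [hQe, h1 (i + 1) (by omega), Finset.prod_eq_zero (Finset.mem_range.2 (by omega : i < N + 1)), mul_zero]
    push_cast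
    ring
  have q0 : Q.eval (d 0 : ℚ) = (N + 1).factorial := by
    rw [hQe, ← Finset.prod_range_add_one_eq_factorial]
    push_cast
    refine Finset.prod_congr rfl fun r _ => ?_
    ring
  have q1 : Q.eval (d (N + 1) : ℚ) = (-1) ^ (N + 1) * ((if 1 ≤ m then Fintype.card (Mon (N + 2) (m - 1)) else 0 : ℕ) : ℚ) * (N + 1).factorial := by
    rw [hQe, ← n4_prod, h2]
    refine Finset.prod_congr rfl fun r _ => ?_
    push_cast
    ring
  have q2 : Q.eval (d (N + 2) : ℚ) = (-1) ^ (N + 1) * ((Fintype.card (Mon (N + 2) (m + p - 1)) : ℕ) : ℚ) * (N + 1).factorial := by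
    have h5 := n4_prod N (m + p)
    rw [if_pos (by omega)] at h5
    rw [hQe, ← h5, h3]
    refine Finset.prod_congr rfl fun r _ => ?_
    push_cast
    ring
  rw [z, q0, q1, show N + 1 + 1 = N + 2 from rfl, q2] at h4
  have hF : ((N + 1).factorial : ℚ) ≠ 0 := by exact_mod_cast (Nat.factorial_pos (N + 1)).ne'
  have hs : ((-1 : ℚ) ^ (N + 1)) * (-1) ^ (N + 1) = 1 := by
    rw [← mul_pow]
    norm_num
  have hs2 : ((-1 : ℚ) ^ (N + 2)) * (-1) ^ (N + 1) = -1 := by
    rw [pow_succ (-1 : ℚ) (N + 1)]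
    linear_combination (-1 : ℚ) * hs
  have h6 : ((β 0 + β (N + 1) * (if 1 ≤ m then Fintype.card (Mon (N + 2) (m - 1)) else 0) : ℕ) : ℚ) * (N + 1).factorial =
      ((β (N + 2) * Fintype.card (Mon (N + 2) (m + p - 1)) : ℕ) : ℚ) * (N + 1).factorial := by
    rw [Nat.cast_add, Nat.cast_mul, Nat.cast_mul]
    rw [zero_add, pow_zero, one_mul] at h4
    linear_combination h4 - (β (N + 1) : ℚ) * ((if 1 ≤ m then Fintype.card (Mon (N + 2) (m - 1)) else 0 : ℕ) : ℚ) * (N + 1).factorial * hs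
      - (β (N + 2) : ℚ) * ((Fintype.card (Mon (N + 2) (m + p - 1)) : ℕ) : ℚ) * (N + 1).factorial * hs2
  exact_mod_cast mul_right_cancel₀ hF h6

end H92B
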