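import Pool.Agent.Lib.H92B.Basic
import Pool.Agent.Lib.H92B.L5
import Pool.Agent.Lib.H92B.L10
import Pool.Agent.Lib.H92B.F1A
import Pool.Agent.Lib.H92B.F3A
import Pool.Agent.Lib.H92B.F3B
import Pool.Agent.Lib.H92B.N3
import Pool.Agent.Lib.H92B.N4
import Pool.Agent.Lib.H92B.NR
import Pool.Agent.Lib.H92B.PU
import Pool.Agent.Lib.H92B.H1
import Pool.Agent.Lib.H92B.R4

/-!
# H92B, chunk F3

The third family. cA = |Mon (N + 2) m|, cB = |Mon (N + 2) (m + p)|, a0, b0 from nr, R from l10 for t = tm (N + 2) p m (l5). By n3 and nr β (N + 1) = r * a0, β (N + 2) = r * b0. The bound: HK for (0, N + 2) says β 0 * Π_0 = β (N + 2) * Π with Π_0 ≥ 1 and Π = ∏_{j ≠ N + 2} |d j - d (N + 2)| ≥ 1, so β 0 ≤ r * b0 * Π; take the bound R * b0 * Π (natAbs of the product), then R * b0 * Π ≤ β 0 ≤ r * b0 * Π gives R ≤ r.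
l10 gives Φ, f1a gives A (with a = r * a0, b = r * b0), f3a gives ρ, f3b gives g. r4 with i = 0, c = d 0, s = N + 2 (L = 0) gives β0' = finrank (g (d 0 - d 0)) = finrank (g 0) and π : (Fin β0' → P) → (Fin b → Du), with Z0 = ker π homogeneous and TC (gr Z0) d (N + 2) 1 (d 0); β0' = β 0 by f3b and n4. For t > m + p - 1 and x ∈ HM t: π x ∈ g (d 0 - d 0 + t) = ⊥, so x ∈ Z0. Apply pu (with N + 1 in place of N, b = β0').
-/

open MvPolynomial

namespace H92B

theorem f3 (k : Type) [Field k] (N p m : ℕ) (hp : 1 ≤ p) (d : ℕ → ℤ) (h1 : ∀ q, q ≤ N → d q = d 0 + q) (h2 : d (N + 1) = d 0 + (m + (N + 1)))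
    (h3 : d (N + 2) = d 0 + (m + (N + 1) + p)) : Good k (N + 2) (N + 2) d := by
  obtain ⟨a0, b0, ha0, hb0, hab, hsplit⟩ := nr (Fintype.card (Mon (N + 2) m)) (Fintype.card (Mon (N + 2) (m + p)))
    (h1_pos _ _ (by omega)) (h1_pos _ _ (by omega))
  obtain ⟨R, hR⟩ := l10 (tm (N + 2) p m) (fun K _ => l5 (N + 2) p m (by omega) hp K) a0 b0 hab hb0 (h1_pos _ _ (by omega)) k
  have hd : ∀ i < N + 1 + 1, d i < d (i + 1) := by
    intro i hi
    by_cases hi1 : i = N + 1
    · subst hi1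
      rw [show N + 1 + 1 = N + 2 from rfl, h2, h3]
      omega
    · by_cases hi2 : i = N
      · subst hi2
        rw [h1 i le_rfl, h2]
        omega
      · rw [h1 i (by omega), h1 (i + 1) (by omega)]
        push_cast
        omega
  have hmono : ∀ j, j < N + 2 → d j ≠ d (N + 2) := by
    intro j hj
    have h4 : ∀ e : ℕ, j + (e + 1) ≤ N + 2 → d j < d (j + (e + 1)) := by
      intro e
      induction e with
      | zero => exact fun h => hd j (by omega)
      | succ e ih => exact fun h => (ih (by omega)).trans (hd (j + (e + 1)) (by omega))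
    obtain ⟨e, he⟩ : ∃ e, N + 2 = j + (e + 1) := ⟨N + 2 - j - 1, by omega⟩
    have := h4 e he.ge
    rw [← he] at this
    exact this.ne
  let Pi : ℕ := (∏ j ∈ (Finset.range (N + 2 + 1)).erase (N + 2), |d j - d (N + 2)|).natAbs
  have hPi : (∏ j ∈ (Finset.range (N + 2 + 1)).erase (N + 2), |d j - d (N + 2)|) = (Pi : ℤ) := by
    have h4 : 0 ≤ (∏ j ∈ (Finset.range (N + 2 + 1)).erase (N + 2), |d j - d (N + 2)|) :=
      Finset.prod_nonneg fun j _ => abs_nonneg _
    exact (Int.natAbs_of_nonneg h4).symm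
  have hPipos : 0 < Pi := by
    have h4 : 0 < (∏ j ∈ (Finset.range (N + 2 + 1)).erase (N + 2), |d j - d (N + 2)|) := by
      refine Finset.prod_pos fun j hj => abs_pos.2 (sub_ne_zero.2 (hmono j ?_))
      rw [Finset.mem_erase, Finset.mem_range] at hj
      omega
    rw [hPi] at h4
    exact_mod_cast h4
  refine ⟨R * b0 * Pi, fun β hz hpos hbig hHK => ?_⟩
  obtain ⟨r, hr1, hr2⟩ := hsplit _ _ (n3 N p m hp d h1 h2 h3 β hHK)
  have hRr : R ≤ r := by
    have h4 := hHK 0 (by omega) (N + 2) le_rfl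
    have h5 : 1 ≤ ∏ j ∈ (Finset.range (N + 2 + 1)).erase 0, |d j - d 0| := by
      refine Int.le_of_sub_one_lt ?_
      rw [sub_self]
      refine Finset.prod_pos fun j hj => abs_pos.2 (sub_ne_zero.2 ?_)
      rw [Finset.mem_erase, Finset.mem_range] at hj
      have h4 : ∀ e : ℕ, 0 + (e + 1) ≤ N + 2 → d 0 < d (0 + (e + 1)) := by
        intro e
        induction e with
        | zero => exact fun h => hd 0 (by omega)
        | succ e ih => exact fun h => (ih (by omega)).trans (hd (0 + (e + 1)) (by omega))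
      obtain ⟨e, he⟩ : ∃ e, j = 0 + (e + 1) := ⟨j - 1, by omega⟩
      have := h4 e (by omega)
      rw [← he] at this
      exact this.ne'
    rw [hPi] at h4
    have h6 : (β 0 : ℤ) ≤ (β (N + 2) : ℤ) * Pi := by
      rw [← h4]
      exact le_mul_of_one_le_right (by positivity) h5
    have h7 : β 0 ≤ β (N + 2) * Pi := by exact_mod_cast h6
    rw [hr2] at h7
    have h8 : R * b0 * Pi ≤ r * b0 * Pi := hbig.trans h7
    exact Nat.le_of_mul_le_mul_right (Nat.le_of_mul_le_mul_right h8 hPipos) hb0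
  obtain ⟨Φ, hΦ⟩ := hR r hRr
  obtain ⟨A, hA, hinj⟩ := f1a (N + 2) p m (r * a0) (r * b0) Φ hΦ
  have hab' : r * a0 * Fintype.card (Mon (N + 2) m) = r * b0 * Fintype.card (Mon (N + 2) (m + p)) := by
    rw [mul_assoc, hab, mul_assoc]
  obtain ⟨ρ, hρ, hρinj⟩ := f3a (N + 2) p m (r * a0) (r * b0) A hA hinj hab'
  obtain ⟨g, hg, hlow, hfin, hup, hTC, hrank⟩ := f3b N p m (r * a0) (r * b0) hp ρ hρ hρinj hab' d h1 h2 h3
  obtain ⟨β0, π, hβ0, _, _, _, hπ, hIs, hTC'⟩ := r4 (by omega) g hg 0 hlow hfin d (N + 2) 0 (d 0) hTC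
  rw [sub_self] at hβ0 hπ
  have hβ : β 0 = β0 := by
    have h4 := n4 N p m hp d h1 h2 h3 β hHK
    rw [hr1, hr2, ← hrank, ← hβ0] at h4
    exact Nat.add_right_cancel h4
  refine pu (N + 1) d hd β hHK hz β0 hβ (LinearMap.ker π) hIs hTC' ((m : ℤ) + p) fun t ht x hx => ?_
  have h5 := hπ t x hx
  rw [hup _ (by omega)] at h5
  exact (Submodule.mem_bot k).1 h5

end H92B
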