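import Pool.Agent.Lib.H92B.Basic

/-!
# H92B, chunk FC

The three positions. For i ≤ N let l i ≤ N + 2 with d (l i) = m + i. Since d is strictly increasing on 0, .., N + 2 (strict monotonicity from hd), l i < l (i + 1), and there is no index strictly between (its value would be an integer strictly between m + i and m + i + 1), so l (i + 1) = l i + 1, l i = l 0 + i, and l 0 + N ≤ N + 2, so l 0 ∈ {0, 1, 2}. l 0 = 2: the first alternative with p = (d 1 - d 0).toNat ≥ 1, m' = (d 2 - d 1 - 1).toNat: for 2 ≤ q ≤ N + 2 d q = d 2 + (q - 2) = d 0 + p + m' + 1 + q - 2.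
l 0 = 1: the second with j0 = (d 1 - d 0 - 1).toNat, d q = d 1 + (q - 1) for 1 ≤ q ≤ N + 1, l' = (d (N + 2) - d (N + 1) - 1).toNat: d (N + 2) = d (N + 1) + 1 + l' = d 0 + j0 + (N + 1) + 1 + l'. l 0 = 0: the third with m' = (d (N + 1) - d 0 - (N + 1)).toNat (d (N + 1) > d N = d 0 + N), p = (d (N + 2) - d (N + 1)).toNat ≥ 1.
-/

open MvPolynomial

namespace H92B

theorem fc (N : ℕ) (d : ℕ → ℤ) (hd : ∀ i < N + 2, d i < d (i + 1)) (m : ℤ) (h : ∀ i : ℕ, i ≤ N → ∃ l ≤ N + 2, d l = m + i) :
    (∃ p m' : ℕ, 1 ≤ p ∧ d 1 = d 0 + p ∧ ∀ q : ℕ, 2 ≤ q → q ≤ N + 2 → d q = d 0 + (m' + p + q) - 1) ∨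
    (∃ j0 l : ℕ, (∀ q : ℕ, 1 ≤ q → q ≤ N + 1 → d q = d 0 + (j0 + q)) ∧ d (N + 2) = d 0 + (j0 + l + (N + 2))) ∨
    (∃ p m' : ℕ, 1 ≤ p ∧ (∀ q : ℕ, q ≤ N → d q = d 0 + q) ∧ d (N + 1) = d 0 + (m' + (N + 1)) ∧ d (N + 2) = d 0 + (m' + (N + 1) + p)) := by
  have hlt : ∀ i e : ℕ, i + (e + 1) ≤ N + 2 → d i < d (i + (e + 1)) := by
    intro i e
    induction e with
    | zero => exact fun h => hd i (by omega)
    | succ e ih => exact fun h => (ih (by omega)).trans (hd (i + (e + 1)) (by omega))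
  have hlt' : ∀ i j : ℕ, i < j → j ≤ N + 2 → d i < d j := by
    intro i j hij hj
    have := hlt i (j - i - 1) (by omega)
    rwa [show i + (j - i - 1 + 1) = j by omega] at this
  obtain ⟨l0, hl0, hd0⟩ := h 0 (Nat.zero_le _)
  rw [Nat.cast_zero, add_zero] at hd0
  have hl : ∀ i : ℕ, i ≤ N → l0 + i ≤ N + 2 ∧ d (l0 + i) = m + i := by
    intro i
    induction i with
    | zero => exact fun _ => ⟨hl0, by rw [add_zero, hd0, Nat.cast_zero, add_zero]⟩
    | succ i ih =>
      intro hi
      obtain ⟨h1, h2⟩ := ih (by omega)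
      obtain ⟨l', hl', h3⟩ := h (i + 1) hi
      have h4 : l0 + i < l' := by
        by_contra h5
        rcases Nat.lt_or_ge l' (l0 + i) with h6 | h6
        · have := hlt' l' (l0 + i) h6 h1
          rw [h2, h3] at this
          push_cast at this
          omega
        · have h7 : l' = l0 + i := by omega
          rw [h7, h2] at h3
          push_cast at h3
          omega
      have h5 := hd (l0 + i) (by omega)
      rcases Nat.lt_or_ge (l0 + i + 1) l' with h6 | h6
      · have h7 := hlt' (l0 + i + 1) l' h6 hl'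
        rw [h3] at h7
        rw [h2] at h5
        push_cast at h7
        omega
      · have h7 : l' = l0 + i + 1 := by omega
        subst h7
        exact ⟨by omega, by rw [← add_assoc, h3]⟩
  have hl0' : l0 ≤ 2 := by
    have := (hl N le_rfl).1
    omega
  have hc : l0 = 2 ∨ l0 = 1 ∨ l0 = 0 := by omega
  rcases hc with rfl | rfl | rfl
  · left
    have h01 := hlt' 0 1 (by omega) (by omega)
    have h12 := hlt' 1 2 (by omega) (by omega)
    refine ⟨(d 1 - d 0).toNat, (d 2 - d 1 - 1).toNat, by omega, by omega, fun q hq1 hq2 => ?_⟩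
    have h3 := (hl (q - 2) (by omega)).2
    rw [show 2 + (q - 2) = q by omega] at h3
    rw [h3]
    have h4 : ((q - 2 : ℕ) : ℤ) = q - 2 := by omega
    omega
  · right
    left
    have h01 := hlt' 0 1 (by omega) (by omega)
    have hN := (hl N le_rfl).2
    have hN2 := hlt' (1 + N) (N + 2) (by omega) (by omega)
    refine ⟨(d 1 - d 0 - 1).toNat, (d (N + 2) - d (1 + N) - 1).toNat, fun q hq1 hq2 => ?_, by omega⟩
    have h3 := (hl (q - 1) (by omega)).2
    rw [show 1 + (q - 1) = q by omega] at h3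
    rw [h3]
    omega
  · right
    right
    have hN := (hl N le_rfl).2
    rw [zero_add] at hN
    have hN1 := hlt' N (N + 1) (by omega) (by omega)
    have hN2 := hlt' (N + 1) (N + 2) (by omega) (by omega)
    refine ⟨(d (N + 2) - d (N + 1)).toNat, (d (N + 1) - d 0 - (N + 1)).toNat, by omega, fun q hq => ?_, by omega, by omega⟩
    have h3 := (hl q hq).2
    rw [zero_add] at h3
    omega

end H92B
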