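import Pool.Agent.Lib.H92B.Basic

/-!
# H92B, chunk Z0

The case s = 0: β i = 0 for i > 0. Take f i = 0 (all the modules Fin (β (i + 1)) → P k n are trivial as β (i + 1) = 0: IsEmpty (Fin (β (i + 1))), so all the maps are 0, the homogeneity is vacuous, and range (f (i + 1)) = ⊥ = ⊤ = ker (f i) in the trivial module; Subsingleton.elim).
-/

open MvPolynomial

namespace H92B

theorem z0 (k : Type) [Field k] (n : ℕ) (d : ℕ → ℤ) (β : ℕ → ℕ) (hβ : ∀ i, 0 < i → β i = 0) : Res k n d β := by
  have h1 : ∀ i, IsEmpty (Fin (β (i + 1))) := fun i => by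
    rw [hβ (i + 1) (Nat.succ_pos i)]
    infer_instance
  refine ⟨fun i => 0, fun i a b => ((h1 i).false b).elim, fun i => ?_⟩
  have := h1 i
  ext x
  have hx : x = 0 := Subsingleton.elim _ _
  rw [hx]
  simp

end H92B
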