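import Pool.Agent.Lib.H92B.Basic

/-!
# H92B, chunk Z1

The case s = 1, n ≥ 1: β 1 = β 0, β i = 0 for i > 1. f 0 = X 0 ^ (d 1 - d 0).toNat times the isomorphism (Fin (β 1) → P) → (Fin (β 0) → P), x ↦ (i ↦ x (Fin.cast _ i)), that is f 0 x i = X ⟨0, _⟩ ^ D * x (Fin.cast h01.symm i); f i = 0 for i ≥ 1. Homogeneity: the entries are X^D or 0. Exactness: ker (f 0) = ⊥ (domain) = range (f 1) (f 1 = 0 by definition); for i ≥ 1 ker (f i) is in the trivial module Fin (β (i + 1)) → P with i + 1 ≥ 2.
-/

open MvPolynomial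

namespace H92B

theorem z1 (k : Type) [Field k] (n : ℕ) (hn : 0 < n) (d : ℕ → ℤ) (β : ℕ → ℕ) (hβ : ∀ i, 1 < i → β i = 0) (h01 : β 1 = β 0) : Res k n d β := by
  let D : ℕ := (d 1 - d 0).toNat
  let x0 : P k n := X ⟨0, hn⟩
  let f0 : (Fin (β 1) → P k n) →ₗ[P k n] (Fin (β 0) → P k n) :=
    { toFun := fun x i => x0 ^ D * x (Fin.cast h01.symm i)
      map_add' := fun x y => funext fun i => by simp [mul_add]
      map_smul' := fun c x => funext fun i => by simp [mul_left_comm] }
  have h1 : ∀ i, IsEmpty (Fin (β (i + 2))) := fun i => by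
    rw [hβ (i + 2) (by omega)]
    infer_instance
  refine ⟨fun i => match i with
    | 0 => f0
    | _ + 1 => 0, fun i => ?_, fun i => ?_⟩
  · match i with
    | 0 =>
      intro a b
      show (x0 ^ D * (Pi.single b (1 : P k n) : Fin (β 1) → P k n) (Fin.cast h01.symm a)).IsHomogeneous _
      by_cases hab : Fin.cast h01.symm a = b
      · rw [hab, Pi.single_eq_same, mul_one]
        have := (isHomogeneous_X k (⟨0, hn⟩ : Fin n)).pow D
        rwa [one_mul] at this
      · rw [Pi.single_eq_of_ne hab, mul_zero]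
        exact isHomogeneous_zero _ _ _
    | i + 1 => exact fun a b => ((h1 i).false b).elim
  · match i with
    | 0 =>
      show LinearMap.range (0 : (Fin (β 2) → P k n) →ₗ[P k n] (Fin (β 1) → P k n)) = LinearMap.ker f0
      rw [LinearMap.range_zero]
      refine (LinearMap.ker_eq_bot'.2 fun x hx => ?_).symm
      funext i
      have h2 := congrFun hx (Fin.cast h01 i)
      change x0 ^ D * x (Fin.cast h01.symm (Fin.cast h01 i)) = 0 at h2
      rcases mul_eq_zero.1 h2 with h3 | h3
      · exact absurd h3 (pow_ne_zero _ (X_ne_zero _))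
      · exact h3
    | i + 1 =>
      have := h1 i
      show LinearMap.range (0 : (Fin (β (i + 3)) → P k n) →ₗ[P k n] (Fin (β (i + 2)) → P k n)) =
        LinearMap.ker (0 : (Fin (β (i + 2)) → P k n) →ₗ[P k n] (Fin (β (i + 1)) → P k n))
      ext x
      have hx : x = 0 := Subsingleton.elim _ _
      rw [hx]
      simp

end H92B
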