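import Pool.Agent.Lib.H92B.Basic
import Pool.Agent.Lib.H92B.FC
import Pool.Agent.Lib.H92B.F1
import Pool.Agent.Lib.H92B.F2
import Pool.Agent.Lib.H92B.F3
import Pool.Agent.Lib.H92B.Z0
import Pool.Agent.Lib.H92B.Z1
import Pool.Agent.Lib.H92B.BC
import Pool.Agent.Lib.H92B.EX

/-!
# H92B, chunk FIN

The theorem. Put e (i) = the given progression-normalised sequence: we are given g ≥ 1, c and e with d i = c + g * e i for i ≤ s. Good k n s e implies Good k n s d: HK d s β iff HK e s β (each |d j - d i| = g * |e j - e i| for i, j ≤ s, and both products have s factors, so the common factor g^s cancels), and Res k n e β → Res k n (fun i => c + g * e i) β by ex, and Res only uses the values (d (i + 1) - d i).toNat for which Fin (β (i + 1)) is not empty, i + 1 ≤ s.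
Good k n s e: if s = 0 use z0; if s = 1 HK gives β 0 = β 1 (|e 0 - e 1| = |e 1 - e 0| ≠ 0) and z1 (n ≥ 1). If s = N + 2: fc and f1, f2, f3 give Good k (N + 2) (N + 2) e, and bc iterated n - (N + 2) times gives Good k n (N + 2) e.
-/

open MvPolynomial

namespace H92B

theorem fin_mono (s : ℕ) (d : ℕ → ℤ) (hd : ∀ i < s, d i < d (i + 1)) (i e : ℕ) (h : i + (e + 1) ≤ s) : d i < d (i + (e + 1)) := by
  induction e with
  | zero => exact hd i (by omega)
  | succ e ih => exact (ih (by omega)).trans (hd (i + (e + 1)) (by omega))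

theorem fin_bc (k : Type) [Field k] (n : ℕ) (d : ℕ → ℤ) (β : ℕ → ℕ) (h : Res k n d β) (t : ℕ) : Res k (n + t) d β := by
  induction t with
  | zero => exact h
  | succ t ih => exact bc k (n + t) d β ih

/-- The case g = 1. -/
theorem fin_one (k : Type) [Field k] (n s : ℕ) (hs : s ≤ n) (d : ℕ → ℤ) (hd : ∀ i < s, d i < d (i + 1)) (m : ℤ)
    (h : ∀ i : ℕ, i + 1 < s → ∃ l ≤ s, d l = m + i) : Good k n s d := by
  match s, hs, hd, h with
  | 0, _, _, _ => exact ⟨0, fun β hz _ _ _ => z0 k n d β fun i hi => hz i hi⟩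
  | 1, hs, hd, _ =>
    refine ⟨0, fun β hz _ _ hHK => z1 k n (by omega) d β (fun i hi => hz i hi) ?_⟩
    have h1 := hHK 0 (by omega) 1 le_rfl
    have e0 : (Finset.range (1 + 1)).erase 0 = {1} := by decide
    have e1 : (Finset.range (1 + 1)).erase 1 = {0} := by decide
    rw [e0, e1, Finset.prod_singleton, Finset.prod_singleton, abs_sub_comm (d 0)] at h1
    have h2 : |d 1 - d 0| ≠ 0 := by
      have := hd 0 (by omega)
      rw [zero_add] at this
      exact abs_ne_zero.2 (by omega)
    exact_mod_cast (mul_right_cancel₀ h2 h1).symm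
  | N + 2, hs, hd, h =>
    have h1 : Good k (N + 2) (N + 2) d := by
      rcases fc N d hd m (fun i hi => h i (by omega)) with ⟨p, m', hp, h1, h2⟩ | ⟨j0, l, h1, h2⟩ | ⟨p, m', hp, h1, h2, h3⟩
      · exact f1 k N p m' hp d h1 h2
      · exact f2 k N j0 l d h1 h2
      · exact f3 k N p m' hp d h1 h2 h3
    obtain ⟨B, hB⟩ := h1
    refine ⟨B, fun β hz hpos hbig hHK => ?_⟩
    obtain ⟨t, rfl⟩ := Nat.exists_eq_add_of_le hs
    exact fin_bc k (N + 2) d β (hB β hz hpos hbig hHK) t

theorem fin_main (k : Type) [Field k] (n s : ℕ) (hs : s ≤ n) (d : ℕ → ℤ) (hd : ∀ i < s, d i < d (i + 1)) (m : ℤ) (g : ℕ) (hg : 0 < g)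
    (hdiv : ∀ i ≤ s, (g : ℤ) ∣ d i - d 0)
    (h : ∀ i : ℕ, i + 1 < s → ∃ l ≤ s, d l = m + g * i) : Good k n s d := by
  have hg' : (g : ℤ) ≠ 0 := by exact_mod_cast hg.ne'
  let e : ℕ → ℤ := fun i => (d i - d 0) / g
  have he : ∀ i ≤ s, d i = d 0 + g * e i := by
    intro i hi
    have := Int.mul_ediv_cancel' (hdiv i hi)
    show d i = d 0 + g * ((d i - d 0) / g)
    rw [this]
    ring
  have hgpos : (0 : ℤ) < g := by exact_mod_cast hg
  have hed : ∀ i < s, e i < e (i + 1) := by
    intro i hi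
    have h1 := hd i hi
    rw [he i (by omega), he (i + 1) (by omega)] at h1
    have h2 : (g : ℤ) * e i < g * e (i + 1) := by linarith
    exact lt_of_mul_lt_mul_left h2 hgpos.le
  have hG : Good k n s e := by
    refine fin_one k n s hs e hed ((m - d 0) / g) fun i hi => ?_
    obtain ⟨l0, hl0, h0⟩ := h 0 (by omega)
    have h1 : (g : ℤ) ∣ m - d 0 := by
      have := hdiv l0 hl0
      rwa [h0, Nat.cast_zero, mul_zero, add_zero] at this
    obtain ⟨l, hl, h2⟩ := h i hi
    refine ⟨l, hl, ?_⟩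
    rw [he l hl] at h2
    have h3 := Int.mul_ediv_cancel' h1
    have h4 : (g : ℤ) * e l = g * ((m - d 0) / g + i) := by
      rw [mul_add, h3]
      linarith
    exact mul_left_cancel₀ hg' h4
  obtain ⟨B, hB⟩ := hG
  refine ⟨B, fun β hz hpos hbig hHK => ?_⟩
  have hHK' : HK e s β := by
    intro i hi i' hi'
    have h1 := hHK i hi i' hi'
    have h2 : ∀ i ≤ s, ∏ j ∈ (Finset.range (s + 1)).erase i, |d j - d i| =
        (g : ℤ) ^ s * ∏ j ∈ (Finset.range (s + 1)).erase i, |e j - e i| := by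
      intro i hi
      have h3 : ((Finset.range (s + 1)).erase i).card = s := by
        rw [Finset.card_erase_of_mem (Finset.mem_range.2 (by omega)), Finset.card_range]
        rfl
      have h5 : (g : ℤ) ^ s = ∏ _j ∈ (Finset.range (s + 1)).erase i, (g : ℤ) := by
        rw [Finset.prod_const, h3]
      rw [h5, ← Finset.prod_mul_distrib]
      refine Finset.prod_congr rfl fun j hj => ?_
      rw [Finset.mem_erase, Finset.mem_range] at hj
      rw [he i hi, he j (by omega), show d 0 + (g : ℤ) * e j - (d 0 + g * e i) = g * (e j - e i) by ring, abs_mul,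
        abs_of_pos hgpos]
    rw [h2 i hi, h2 i' hi'] at h1
    have h3 : (g : ℤ) ^ s ≠ 0 := pow_ne_zero _ hg'
    refine mul_left_cancel₀ h3 ?_
    linarith
  obtain ⟨f, hf1, hf2⟩ := ex k n e (d 0) g hg β (hB β hz hpos hbig hHK')
  refine ⟨f, fun i a b => ?_, hf2⟩
  have h1 : i + 1 ≤ s := by
    by_contra h1
    have := hz (i + 1) (by omega)
    exact (Fin.cast this b).elim0
  have h2 := hf1 i a b
  rw [he i (by omega), he (i + 1) h1]
  exact h2

end H92B
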